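import Mathlib

/-!
Module SL, Phase 2 (chunks SLQ..): definitions about lists. Overview in Q/README.md.

Everything is done with lists of positions. A state `QS` consists of the own path `l` (a list from the end `x` to the end `y`), a cyclic list
`k` that has been split off (`[]` if there is none), a list `J` of further cyclic lists, and a bit `mg` (true once the path has absorbed an old cycle).
-/

set_option autoImplicit false

namespace Pool.Agent.H38H

open Classical

/-! ### lists -/

section lists
variable {α : Type}

/-- adjacent in a list -/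
def LAdj (l : List α) (a b : α) : Prop := ∃ P Q : List α, l = P ++ a :: b :: Q ∨ l = P ++ b :: a :: Q

/-- the first and the last element -/
def Ends (l : List α) (a b : α) : Prop := l.head? = some a ∧ l.getLast? = some b

/-- cyclically adjacent in a list -/
def CAdj (c : List α) (a b : α) : Prop := LAdj c a b ∨ Ends c a b ∨ Ends c b a

/-- `R` is the cyclic list `c` cut between its cyclic neighbours `w` and `x'`, listed from `x'` to `w` -/
def Opn (c : List α) (w x' : α) (R : List α) : Prop :=
  ∃ P Q U : List α, c = P ++ w :: Q ∧
    ((Q ++ P = x' :: U ∧ R = (x' :: U) ++ [w]) ∨ (Q ++ P = U ++ [x'] ∧ R = (U ++ [x']).reverse ++ [w]))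

/-- states of the list surgery -/
structure QS (α : Type) where
  l : List α
  k : List α
  J : List (List α)
  mg : Bool

/-- the same state, path listed from the other end -/
def QS.rev (s : QS α) : QS α := { s with l := s.l.reverse }

/-- all elements -/
def QS.all (s : QS α) : List α := s.l ++ s.k ++ s.J.flatten

/-- adjacency in a state -/
def QS.Adj (s : QS α) (a b : α) : Prop := LAdj s.l a b ∨ CAdj s.k a b ∨ ∃ c ∈ s.J, CAdj c a b

/-- one move `a = (w, x')` at the head `x` of the path: the new edge is `x w`, the edge `w x'` is deleted, `x'` is the new head.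
keep, split off, absorb `k`, absorb a cycle of `J`. -/
def QStep (s : QS α) (a : α × α) (s' : QS α) : Prop :=
  (∃ P Q : List α, s.l = P ++ a.2 :: a.1 :: Q ∧ s' = ⟨(P ++ [a.2]).reverse ++ a.1 :: Q, s.k, s.J, s.mg⟩) ∨
  (∃ P Q : List α, s.l = P ++ a.1 :: a.2 :: Q ∧ s.k = [] ∧ 2 ≤ P.length ∧
    s' = ⟨a.2 :: Q, P ++ [a.1], s.J, s.mg⟩) ∨
  (∃ R : List α, Opn s.k a.1 a.2 R ∧ s' = ⟨R ++ s.l, [], s.J, s.mg⟩) ∨
  (∃ (J₁ : List (List α)) (c : List α) (J₂ : List (List α)) (R : List α), s.J = J₁ ++ c :: J₂ ∧
    Opn c a.1 a.2 R ∧ s' = ⟨R ++ s.l, s.k, J₁ ++ J₂, true⟩)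

/-- well formed -/
structure QS.WF (s : QS α) : Prop where
  nodup : s.all.Nodup
  k3 : s.k = [] ∨ 3 ≤ s.k.length
  J3 : ∀ c ∈ s.J, 3 ≤ c.length

/-- the next state -/
noncomputable def nxt (o : Option (QS α)) (a : α × α) : Option (QS α) :=
  o.bind (fun s => if h : ∃ s', QStep s a s' then some h.choose else none)

/-- moves (latest first) at the head of the path -/
noncomputable def runX (s0 : QS α) : List (α × α) → Option (QS α)
  | [] => some s0
  | a :: m => nxt (runX s0 m) a

/-- moves (latest first) at the last element of the path -/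
noncomputable def runY (o : Option (QS α)) : List (α × α) → Option (QS α)
  | [] => o
  | a :: m => (nxt ((runY o m).map QS.rev) a).map QS.rev

/-- value of a state; `n` is the number of slots, `E` bounds the number of touched slots -/
noncomputable def qval (n E : ℕ) (s : QS α) : ℝ :=
  if s.k = [] then (if s.mg = true then 1 else 0.6)
  else if s.mg = true then max 0 (((s.k.length : ℝ) - 6 * E) / (1.58 * n)) else 0

/-- final value -/
noncomputable def qvalf (s : QS α) : ℝ := if s.k = [] ∧ s.mg = true then 1 else 0

end lists

end Pool.Agent.H38H
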