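import Pool.Agent.Lib.H38H.Q0
import Pool.Agent.Lib.H38H.Q.D0

/-!
Module SL, Phase 2 (chunks SLQ..): definitions. Overview in Q/README.md.
-/

set_option autoImplicit false

namespace Pool.Agent.H38H

open Classical


variable {ι : Type} [Fintype ι] {L : ℕ}

/-- potentials of pairs of lists of moves -/
noncomputable def qV (E : ℕ) (s0 : QS (ι × Bool)) (mx my : List (Mv ι)) : ℝ :=
  (runY (runX s0 mx) my).elim 0 (qval (Fintype.card ι) E)

/-- final potential -/
noncomputable def qVf (s0 : QS (ι × Bool)) (mx my : List (Mv ι)) : ℝ :=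
  (runY (runX s0 mx) my).elim 0 qvalf

/-- invariant: `T` is the set of touched slots, the path goes from `x` to `y` -/
structure QInv (I : Inst ι L) (T : Finset ι) (x y : ι × Bool) (s : QS (ι × Bool)) : Prop where
  wf : s.WF
  full : ∀ v, v ∈ s.all
  ends : Ends s.l x y
  hx : x.1 ∈ T
  hy : y.1 ∈ T
  nb : ∀ v : ι × Bool, v.1 ∉ T → ∃ o, I.outer v = some o ∧ o ≠ flip v ∧ s.Adj v (flip v) ∧ s.Adj v o
  small : s.mg = false → s.l.length + s.k.length ≤ Fintype.card ι

/-- all edges of the state are edges of the instance with content `h`, mid edges are present at d- and b-slots -/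
structure QGood (I : Inst ι L) (h : SB ι) (s : QS (ι × Bool)) : Prop where
  adj : ∀ a b, s.Adj a b → I.PAdj h a b
  mid : ∀ a, I.kind (ap h a).1 ≠ Kind.c → s.Adj a (flip a)

/-- a state between attempts: a list `cs` of cyclic lists of positions -/
structure CSt (I : Inst ι L) (h : SB ι) (K : Finset ι) (l0 : ℕ) (cs : List (List (ι × Bool))) : Prop where
  nodup : cs.flatten.Nodup
  full : ∀ v, v ∈ cs.flatten
  big : ∀ c ∈ cs, l0 ≤ c.length
  adj : ∀ c ∈ cs, ∀ a b, CAdj c a b → I.PAdj h a b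
  mid : ∀ a, I.kind (ap h a).1 ≠ Kind.c → ∃ c ∈ cs, CAdj c a (flip a)
  nb : ∀ v : ι × Bool, v.1 ∉ K → ∃ o, I.outer v = some o ∧ o ≠ flip v ∧
    (∃ c ∈ cs, CAdj c v (flip v)) ∧ ∃ c ∈ cs, CAdj c v o

end Pool.Agent.H38H
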