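import Pool.Agent.Lib.H38H.Q.D0

/-!
Chunk SLQ1 (M). Adjacency in a list, pure list facts.

Proofs. `LAdj` is symmetric in `a, b` by definition. `ladj_reverse`: reverse the decomposition. `ladj_append`: if `P ++ Q = P' ++ a :: b :: Q'` compare
lengths (`List.append_eq_append_iff`): the pair lies in `P`, in `Q`, or `a` is the last element of `P` and `b` the first of `Q`. `ladj_triple`: from the two decompositions
(4 cases) and `Nodup` the position of `v` is the same (for `l = P ++ v :: Q = P' ++ v :: Q'` with `Nodup` one gets `P = P'`, `Q = Q'`; `List.append_eq_append_iff` or induction); a pair `v :: a` gives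
that `a` is the head of `Q`, a pair `a :: v` that `a` is the last element of `P`; if both are on the same side then `a = b`. `ladj_two` and `ladj_head` follow.
-/

set_option autoImplicit false

namespace Pool.Agent.H38H

open Classical

variable {α : Type}

theorem SLQ1_get {l : List α} {a b : α} :
    (∃ P Q : List α, l = P ++ a :: b :: Q) ↔ ∃ k, l[k]? = some a ∧ l[k + 1]? = some b := by
  constructor
  · rintro ⟨P, Q, rfl⟩
    refine ⟨P.length, ?_, ?_⟩
    · simp
    · simp
  · rintro ⟨k, h1, h2⟩
    obtain ⟨hk, h3⟩ := List.getElem?_eq_some_iff.1 h2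
    obtain ⟨hk', h4⟩ := List.getElem?_eq_some_iff.1 h1
    refine ⟨l.take k, l.drop (k + 1 + 1), ?_⟩
    have e1 : l.drop k = l[k] :: l.drop (k + 1) := List.drop_eq_getElem_cons hk'
    have e2 : l.drop (k + 1) = l[k + 1] :: l.drop (k + 1 + 1) := List.drop_eq_getElem_cons hk
    rw [h4, e2, h3] at e1
    rw [← e1, List.take_append_drop]

theorem SLQ1_ladj {l : List α} {a b : α} : LAdj l a b ↔
    (∃ P Q : List α, l = P ++ a :: b :: Q) ∨ ∃ P Q : List α, l = P ++ b :: a :: Q := by
  constructor
  · rintro ⟨P, Q, h | h⟩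
    · exact Or.inl ⟨P, Q, h⟩
    · exact Or.inr ⟨P, Q, h⟩
  · rintro (⟨P, Q, h⟩ | ⟨P, Q, h⟩)
    · exact ⟨P, Q, Or.inl h⟩
    · exact ⟨P, Q, Or.inr h⟩

theorem SLQ1_app {P Q : List α} {a b : α} : (∃ P' Q' : List α, P ++ Q = P' ++ a :: b :: Q') ↔
    (∃ P' Q' : List α, P = P' ++ a :: b :: Q') ∨ (∃ P' Q' : List α, Q = P' ++ a :: b :: Q') ∨
      (P.getLast? = some a ∧ Q.head? = some b) := by
  rw [SLQ1_get, SLQ1_get, SLQ1_get, List.getLast?_eq_getElem?, List.head?_eq_getElem?]
  constructor
  · rintro ⟨k, h1, h2⟩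
    rcases Nat.lt_trichotomy (k + 1) P.length with h | h | h
    · rw [List.getElem?_append_left (by omega)] at h1
      rw [List.getElem?_append_left h] at h2
      exact Or.inl ⟨k, h1, h2⟩
    · rw [List.getElem?_append_left (by omega)] at h1
      rw [List.getElem?_append_right (by omega)] at h2
      refine Or.inr (Or.inr ⟨?_, ?_⟩)
      · have : P.length - 1 = k := by omega
        rw [this]
        exact h1
      · have : k + 1 - P.length = 0 := by omega
        rw [this] at h2
        exact h2
    · rw [List.getElem?_append_right (by omega)] at h1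
      rw [List.getElem?_append_right (by omega)] at h2
      refine Or.inr (Or.inl ⟨k - P.length, h1, ?_⟩)
      have : k - P.length + 1 = k + 1 - P.length := by omega
      rw [this]
      exact h2
  · rintro (⟨k, h1, h2⟩ | ⟨k, h1, h2⟩ | ⟨h1, h2⟩)
    · obtain ⟨hk, _⟩ := List.getElem?_eq_some_iff.1 h2
      refine ⟨k, ?_, ?_⟩
      · rw [List.getElem?_append_left (by omega)]
        exact h1
      · rw [List.getElem?_append_left hk]
        exact h2
    · refine ⟨P.length + k, ?_, ?_⟩
      · rw [List.getElem?_append_right (by omega)]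
        have : P.length + k - P.length = k := by omega
        rw [this]
        exact h1
      · rw [List.getElem?_append_right (by omega)]
        have : P.length + k + 1 - P.length = k + 1 := by omega
        rw [this]
        exact h2
    · obtain ⟨hk, _⟩ := List.getElem?_eq_some_iff.1 h1
      refine ⟨P.length - 1, ?_, ?_⟩
      · rw [List.getElem?_append_left hk]
        exact h1
      · rw [List.getElem?_append_right (by omega)]
        have : P.length - 1 + 1 - P.length = 0 := by omega
        rw [this]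
        exact h2

theorem SLQ1_ne {l : List α} (hn : l.Nodup) {a b : α} (h : ∃ P Q : List α, l = P ++ a :: b :: Q) : a ≠ b := by
  obtain ⟨P, Q, rfl⟩ := h
  rintro rfl
  rw [List.nodup_append] at hn
  have h1 := hn.2.1
  rw [List.nodup_cons] at h1
  exact h1.1 List.mem_cons_self

theorem SLQ1_head {Q : List α} {a : α} (h : Q.head? = some a) : ∃ Q', Q = a :: Q' := by
  cases Q with
  | nil => simp at h
  | cons c Q =>
    rw [List.head?_cons] at h
    exact ⟨Q, by rw [Option.some.inj h]⟩

theorem SLQ1_last {P : List α} {a : α} (h : P.getLast? = some a) : ∃ P', P = P' ++ [a] := by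
  obtain ⟨P', h1⟩ := List.getLast?_eq_some_iff.1 h
  exact ⟨P', h1⟩

theorem ladj_symm {l : List α} {a b : α} (h : LAdj l a b) : LAdj l b a := by
  obtain ⟨P, Q, h | h⟩ := h
  · exact ⟨P, Q, Or.inr h⟩
  · exact ⟨P, Q, Or.inl h⟩

theorem ladj_mem {l : List α} {a b : α} (h : LAdj l a b) : a ∈ l ∧ b ∈ l := by
  obtain ⟨P, Q, h | h⟩ := h
  · rw [h]
    simp
  · rw [h]
    simp

theorem ladj_reverse {l : List α} {a b : α} : LAdj l.reverse a b ↔ LAdj l a b := by
  have key : ∀ (l : List α) (a b : α), LAdj l a b → LAdj l.reverse a b := by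
    intro l a b h
    obtain ⟨P, Q, h | h⟩ := h
    · refine ⟨Q.reverse, P.reverse, Or.inr ?_⟩
      rw [h]
      simp
    · refine ⟨Q.reverse, P.reverse, Or.inl ?_⟩
      rw [h]
      simp
  refine ⟨fun h => ?_, key l a b⟩
  have h1 := key _ _ _ h
  rwa [List.reverse_reverse] at h1

theorem ladj_nil {a b : α} : ¬ LAdj ([] : List α) a b := by
  rintro ⟨P, Q, h | h⟩
  · simp at h
  · simp at h

theorem ladj_singleton {c a b : α} : ¬ LAdj [c] a b := by
  rintro ⟨P, Q, h | h⟩
  · have h1 := congrArg List.length h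
    simp at h1
    omega
  · have h1 := congrArg List.length h
    simp at h1
    omega

theorem ladj_append {P Q : List α} {a b : α} : LAdj (P ++ Q) a b ↔ LAdj P a b ∨ LAdj Q a b ∨
    (P.getLast? = some a ∧ Q.head? = some b) ∨ (P.getLast? = some b ∧ Q.head? = some a) := by
  rw [SLQ1_ladj, SLQ1_ladj, SLQ1_ladj, SLQ1_app, SLQ1_app]
  constructor
  · rintro ((h | h | h) | (h | h | h))
    · exact Or.inl (Or.inl h)
    · exact Or.inr (Or.inl (Or.inl h))
    · exact Or.inr (Or.inr (Or.inl h))
    · exact Or.inl (Or.inr h)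
    · exact Or.inr (Or.inl (Or.inr h))
    · exact Or.inr (Or.inr (Or.inr h))
  · rintro ((h | h) | (h | h) | h | h)
    · exact Or.inl (Or.inl h)
    · exact Or.inr (Or.inl h)
    · exact Or.inl (Or.inr (Or.inl h))
    · exact Or.inr (Or.inr (Or.inl h))
    · exact Or.inl (Or.inr (Or.inr h))
    · exact Or.inr (Or.inr (Or.inr h))

theorem ladj_cons {c : α} {Q : List α} {a b : α} : LAdj (c :: Q) a b ↔ LAdj Q a b ∨
    (c = a ∧ Q.head? = some b) ∨ (c = b ∧ Q.head? = some a) := by
  have h1 : c :: Q = [c] ++ Q := rfl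
  rw [h1, ladj_append]
  have h2 : ¬ LAdj [c] a b := ladj_singleton
  rw [List.getLast?_singleton, Option.some_inj, Option.some_inj]
  tauto

theorem ladj_ne {l : List α} (hn : l.Nodup) {a b : α} (h : LAdj l a b) : a ≠ b := by
  rcases SLQ1_ladj.1 h with h | h
  · exact SLQ1_ne hn h
  · exact (SLQ1_ne hn h).symm

/-- the decomposition at an element is unique -/
theorem split_unique {l P Q P' Q' : List α} (hn : l.Nodup) {v : α} (h : l = P ++ v :: Q) (h' : l = P' ++ v :: Q') :
    P = P' ∧ Q = Q' := by
  have h1 : l[P.length]? = some v := by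
    rw [h]
    simp
  have h2 : l[P'.length]? = some v := by
    rw [h']
    simp
  have h3 : P.length = P'.length :=
    (List.getElem?_inj (List.getElem?_eq_some_iff.1 h1).1 hn).1 (h1.trans h2.symm)
  have h4 := List.append_inj (h.symm.trans h') h3
  exact ⟨h4.1, (List.cons.inj h4.2).2⟩

/-- a pair `v, a` in this order: `a` is the head of the rest -/
theorem ladj_at {P Q : List α} {v a : α} (hn : (P ++ v :: Q).Nodup) :
    LAdj (P ++ v :: Q) v a ↔ Q.head? = some a ∨ P.getLast? = some a := by
  rw [List.nodup_append] at hn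
  obtain ⟨_, h1, h2⟩ := hn
  rw [List.nodup_cons] at h1
  have hvP : v ∉ P := fun h => h2 v h v List.mem_cons_self rfl
  have h3 : ¬ LAdj P v a := fun h => hvP (ladj_mem h).1
  have h4 : ¬ LAdj Q v a := fun h => h1.1 (ladj_mem h).1
  have h5 : P.getLast? ≠ some v := fun h => hvP (List.mem_of_getLast? h)
  have h6 : Q.head? ≠ some v := fun h => h1.1 (List.mem_of_head? h)
  rw [ladj_append, ladj_cons, List.head?_cons]
  constructor
  · rintro (h | (h | h | h) | h | h)
    · exact absurd h h3
    · exact absurd h h4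
    · exact Or.inl h.2
    · exact absurd h.2 h6
    · exact absurd h.1 h5
    · exact Or.inr h.1
  · rintro (h | h)
    · exact Or.inr (Or.inl (Or.inr (Or.inl ⟨rfl, h⟩)))
    · exact Or.inr (Or.inr (Or.inr ⟨h, rfl⟩))

theorem ladj_triple {l : List α} (hn : l.Nodup) {v a b : α} (ha : LAdj l v a) (hb : LAdj l v b) (hab : a ≠ b) :
    ∃ P Q : List α, l = P ++ a :: v :: b :: Q ∨ l = P ++ b :: v :: a :: Q := by
  obtain ⟨P, Q, rfl⟩ := List.append_of_mem (ladj_mem ha).1
  rw [ladj_at hn] at ha hb
  rcases ha with ha | ha <;> rcases hb with hb | hb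
  · exact absurd (Option.some.inj (ha.symm.trans hb)) hab
  · obtain ⟨Q', rfl⟩ := SLQ1_head ha
    obtain ⟨P', rfl⟩ := SLQ1_last hb
    exact ⟨P', Q', Or.inr (by simp)⟩
  · obtain ⟨Q', rfl⟩ := SLQ1_head hb
    obtain ⟨P', rfl⟩ := SLQ1_last ha
    exact ⟨P', Q', Or.inl (by simp)⟩
  · exact absurd (Option.some.inj (ha.symm.trans hb)) hab

theorem ladj_two {l : List α} (hn : l.Nodup) {v a b d : α} (ha : LAdj l v a) (hb : LAdj l v b) (hab : a ≠ b)
    (hd : LAdj l v d) : d = a ∨ d = b := by
  obtain ⟨P, Q, rfl⟩ := List.append_of_mem (ladj_mem ha).1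
  rw [ladj_at hn] at ha hb hd
  rcases hd with hd | hd
  · rcases ha with ha | ha
    · exact Or.inl (Option.some.inj (hd.symm.trans ha))
    · rcases hb with hb | hb
      · exact Or.inr (Option.some.inj (hd.symm.trans hb))
      · exact absurd (Option.some.inj (ha.symm.trans hb)) hab
  · rcases ha with ha | ha
    · rcases hb with hb | hb
      · exact absurd (Option.some.inj (ha.symm.trans hb)) hab
      · exact Or.inr (Option.some.inj (hd.symm.trans hb))
    · exact Or.inl (Option.some.inj (hd.symm.trans ha))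

theorem ladj_head {l : List α} (hn : l.Nodup) {x a b : α} (hx : l.head? = some x) (ha : LAdj l x a)
    (hb : LAdj l x b) : a = b := by
  obtain ⟨Q, rfl⟩ := SLQ1_head hx
  have h1 : x :: Q = [] ++ x :: Q := rfl
  rw [h1] at ha hb hn
  rw [ladj_at hn] at ha hb
  rcases ha with ha | ha
  · rcases hb with hb | hb
    · exact Option.some.inj (ha.symm.trans hb)
    · simp at hb
  · simp at ha

theorem ends_reverse {l : List α} {a b : α} : Ends l.reverse a b ↔ Ends l b a := by
  unfold Ends
  rw [List.head?_reverse, List.getLast?_reverse]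
  tauto

theorem ends_mem {l : List α} {a b : α} (h : Ends l a b) : a ∈ l ∧ b ∈ l := by
  exact ⟨List.mem_of_head? h.1, List.mem_of_getLast? h.2⟩

end Pool.Agent.H38H
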