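import Pool.Agent.Lib.H38H.Q.D

/-!
Chunk SLQ10 (S/M). Positions that may be targets.

`gd I B` is the set of positions `w` outside `B` whose outer partner exists, is outside `B` and in another slot.
Proofs. `outSum_ge`: the term of `w ∈ gd I B` in `outSum` is `F (w, o)`, the other terms are nonnegative. `midSum_ge`: the same. `card_gd`: if `w` is not in `gd I B` then `w.1 ∈ B` (at most `2 |B|` positions), or
`w.1 ∉ B`: then by the hypothesis `I.outer w = some o` with `o ≠ flip w`, and `o ≠ w` by `outer_ne`, so `o.1 ≠ w.1`, hence `o.1 ∈ B`; `w` is determined by `o` (`outer_symm`), so there are at most `2 |B|` such `w`.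
-/

set_option autoImplicit false

namespace Pool.Agent.H38H

open Classical

variable {ι : Type} [Fintype ι] {L : ℕ}

/-- admissible targets -/
noncomputable def gd (I : Inst ι L) (B : Finset ι) : Finset (ι × Bool) :=
  Finset.univ.filter (fun w => w.1 ∉ B ∧ ∃ o, I.outer w = some o ∧ o.1 ∉ B ∧ o.1 ≠ w.1)

/-- the outer partner (the position itself if there is none) -/
def oo (I : Inst ι L) (w : ι × Bool) : ι × Bool := (I.outer w).getD w

theorem outSum_ge (I : Inst ι L) (B : Finset ι) {F : Mv ι → ℝ} (hF : ∀ a, 0 ≤ F a) :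
    ∑ w ∈ gd I B, F (w, oo I w) ≤ outSum I B F := by
  unfold outSum gd
  rw [Finset.sum_filter]
  refine Finset.sum_le_sum fun w _ => ?_
  unfold oo
  rcases ho : I.outer w with _ | o
  · rw [if_neg]
    · exact le_rfl
    · rintro ⟨-, o, h, -⟩
      simp at h
  · simp only [Option.getD_some, Option.elim_some]
    by_cases h : w.1 ∉ B ∧ o.1 ∉ B ∧ o.1 ≠ w.1
    · rw [if_pos h]
      split_ifs
      · exact le_rfl
      · exact hF _
    · rw [if_neg h, if_neg]
      rintro ⟨h1, o', h2, h3⟩
      rw [← Option.some.inj h2] at h3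
      exact h ⟨h1, h3⟩

theorem midSum_ge (I : Inst ι L) (B : Finset ι) {F : Mv ι → ℝ} (hF : ∀ a, 0 ≤ F a) :
    ∑ w ∈ gd I B, F (w, flip w) ≤ midSum B F := by
  unfold midSum gd
  rw [Finset.sum_filter]
  refine Finset.sum_le_sum fun w _ => ?_
  by_cases h : w.1 ∉ B
  · rw [if_pos h]
    split_ifs
    · exact le_rfl
    · exact hF _
  · rw [if_neg h, if_neg fun h' => h h'.1]

theorem card_gd {I : Inst ι L} {B : Finset ι}
    (hnb : ∀ w : ι × Bool, w.1 ∉ B → ∃ o, I.outer w = some o ∧ o ≠ flip w) (G : Finset (ι × Bool)) :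
    G.card ≤ (G ∩ gd I B).card + 4 * B.card := by
  have h1 : G \ gd I B ⊆ (B ×ˢ (Finset.univ : Finset Bool)) ∪
      Finset.univ.filter fun w : ι × Bool => ∃ o, I.outer w = some o ∧ o.1 ∈ B := by
    intro w hw
    rw [Finset.mem_sdiff] at hw
    rw [Finset.mem_union]
    by_cases hB : w.1 ∈ B
    · exact Or.inl (Finset.mem_product.2 ⟨hB, Finset.mem_univ _⟩)
    · refine Or.inr (Finset.mem_filter.2 ⟨Finset.mem_univ _, ?_⟩)
      obtain ⟨o, ho, hf⟩ := hnb w hB
      refine ⟨o, ho, ?_⟩
      by_contra hoB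
      apply hw.2
      unfold gd
      refine Finset.mem_filter.2 ⟨Finset.mem_univ _, hB, o, ho, hoB, fun h => ?_⟩
      have h2 : o ≠ w := fun h => I.outer_ne w (by rw [ho, h])
      obtain ⟨a, b⟩ := o
      obtain ⟨c, d⟩ := w
      simp only at h
      subst h
      rcases b <;> rcases d <;> simp_all [flip]
  have h2 : (B ×ˢ (Finset.univ : Finset Bool)).card = 2 * B.card := by
    rw [Finset.card_product, Finset.card_univ, Fintype.card_bool, mul_comm]
  have h3 : (Finset.univ.filter fun w : ι × Bool => ∃ o, I.outer w = some o ∧ o.1 ∈ B).card ≤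
      (B ×ˢ (Finset.univ : Finset Bool)).card := by
    refine Finset.card_le_card_of_injOn (oo I) ?_ ?_
    · intro w hw
      rw [Finset.mem_coe, Finset.mem_filter] at hw
      obtain ⟨-, o, ho, hoB⟩ := hw
      rw [Finset.mem_coe, Finset.mem_product]
      unfold oo
      rw [ho]
      exact ⟨hoB, Finset.mem_univ _⟩
    · intro w hw w' hw' h
      rw [Finset.mem_coe, Finset.mem_filter] at hw hw'
      obtain ⟨-, o, ho, -⟩ := hw
      obtain ⟨-, o', ho', -⟩ := hw'
      unfold oo at h
      rw [ho, ho', Option.getD_some, Option.getD_some] at h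
      subst h
      have h4 := I.outer_symm _ _ ho
      rw [I.outer_symm _ _ ho'] at h4
      exact (Option.some.inj h4).symm
  have h4 := (Finset.card_le_card h1).trans (Finset.card_union_le _ _)
  have h5 := Finset.card_inter_add_card_sdiff G (gd I B)
  omega

end Pool.Agent.H38H
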