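import Pool.Agent.Lib.H38H.Q.D0

/-!
Chunk SLQ8 (S/M). Pure arithmetic for the potential of Phase 2.

`sep_sum`: induction on the cardinality: remove the maximum `M` of `X`; the other elements are at most `M - 2` and pairwise at distance at least 2, so (second statement, by the same induction)
`M ≥ 2 * X.card`. Then `X.card * (X.card + 1) = (X.card - 1) * X.card + 2 * X.card`.
`num_keep`: if `N/2 ≤ 9E`: the right side is at least `2n - N/2 - 7E ≥ 2n - 16 E ≥ 1.58 n`. Otherwise `m ≥ N/2 - 3E ≥ 6E ≥ 0` and `m * (m + 1 - 6E) ≥ m * (m - 6E) ≥ (N/2 - 3E)(N/2 - 9E) ≥ N^2/4 - 6 E N`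
(`m ↦ m (m - 6E)` is increasing for `m ≥ 3E`), so `S ≥ (N^2/4 - 6EN)/(1.58 n) ≥ N^2/(6.32 n) - 7.6 E` (`N ≤ 2n`), and the right side is at least `2n - N/2 + N^2/(6.32 n) - 14.6 E`. Finally
`2n - N/2 + N^2/(6.32 n) ≥ 1.605 n` because `(N - 1.58 n)^2 ≥ 0` gives `N^2 ≥ 3.16 n N - 2.4964 n^2`, i.e. `N^2/(6.32 n) ≥ N/2 - 0.395 n`; and `0.025 n ≥ 25 E`.
-/

set_option autoImplicit false

namespace Pool.Agent.H38H

theorem sep_max (X : Finset ℕ) (h1 : ∀ a ∈ X, 2 ≤ a) (h2 : ∀ a ∈ X, ∀ b ∈ X, a < b → a + 2 ≤ b) (M : ℕ)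
    (hM : ∀ a ∈ X, a ≤ M) : 2 * X.card ≤ M := by
  have h3 : X.card ≤ (Finset.Icc 1 (M / 2)).card := by
    refine Finset.card_le_card_of_injOn (fun a => a / 2) ?_ ?_
    · intro a ha
      have h4 := h1 a ha
      have h5 := hM a ha
      rw [Finset.mem_coe, Finset.mem_Icc]
      show 1 ≤ a / 2 ∧ a / 2 ≤ M / 2
      constructor <;> omega
    · intro a ha b hb hab
      by_contra hne
      have hab' : a / 2 = b / 2 := hab
      rcases lt_or_gt_of_ne hne with h | h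
      · have := h2 a ha b hb h
        omega
      · have := h2 b hb a ha h
        omega
  rw [Nat.card_Icc, Nat.add_sub_cancel] at h3
  omega

theorem sep_sum (X : Finset ℕ) (h1 : ∀ a ∈ X, 2 ≤ a) (h2 : ∀ a ∈ X, ∀ b ∈ X, a < b → a + 2 ≤ b) :
    X.card * (X.card + 1) ≤ ∑ a ∈ X, a := by
  induction X using Finset.induction_on_max with
  | empty => simp
  | insert M s hM ih =>
    have hni : M ∉ s := fun h => lt_irrefl M (hM M h)
    have ih' := ih (fun a ha => h1 a (Finset.mem_insert_of_mem ha))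
      (fun a ha b hb => h2 a (Finset.mem_insert_of_mem ha) b (Finset.mem_insert_of_mem hb))
    have h3 := sep_max (insert M s) h1 h2 M (by
      intro a ha
      rcases Finset.mem_insert.1 ha with h | h
      · exact h.le
      · exact (hM a h).le)
    rw [Finset.card_insert_of_notMem hni] at h3 ⊢
    rw [Finset.sum_insert hni]
    nlinarith

theorem num_keep {n E N m S : ℝ} (hE : 1 ≤ E) (h1 : 1000 * E ≤ n) (hN0 : 0 ≤ N) (hN : N ≤ 2 * n)
    (hm : N / 2 - 3 * E ≤ m) (hS0 : 0 ≤ S) (hS : m * (m + 1 - 6 * E) / (1.58 * n) ≤ S) :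
    1.58 * n ≤ (2 * n - N - 4 * E) + (N / 2 - 3 * E) + S := by
  have hn : 0 < n := by linarith
  by_cases hc : N / 2 ≤ 9 * E
  · linarith
  · push Not at hc
    have hm6 : 6 * E ≤ m := by linarith
    have h2 : (N / 2 - 3 * E) * (N / 2 - 9 * E) ≤ m * (m + 1 - 6 * E) := by
      nlinarith [mul_nonneg (sub_nonneg.2 hm) (by linarith : (0 : ℝ) ≤ m + (N / 2 - 3 * E) - 6 * E)]
    have h3 : m * (m + 1 - 6 * E) ≤ S * (1.58 * n) := by
      rwa [div_le_iff₀ (by positivity)] at hS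
    have h4 : (N / 2 - 3 * E) * (N / 2 - 9 * E) ≤ S * (1.58 * n) := h2.trans h3
    have h5 : 0 ≤ (N / 2 - 0.79 * n) ^ 2 := sq_nonneg _
    have h6 : E * N ≤ E * (2 * n) := mul_le_mul_of_nonneg_left hN (by linarith)
    have h7 : n * (1000 * E) ≤ n * n := mul_le_mul_of_nonneg_left h1 hn.le
    have h8 : 0 ≤ E ^ 2 := sq_nonneg _
    have h9 : (1.58 * n) * (1.58 * n) ≤ (1.58 * n) * ((2 * n - N - 4 * E) + (N / 2 - 3 * E) + S) := by
      nlinarith
    exact le_of_mul_le_mul_left h9 (by positivity)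

end Pool.Agent.H38H
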