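import Pool.Agent.Lib.H38H.Q.Q1
import Pool.Agent.Lib.H38H.Q.Q8
import Pool.Agent.Lib.H38H.Q.Q10

/-!
Chunk SLQ11 (M). Counting targets on the path.

`l` is the path, a list without repetitions; every `w ∈ l` outside `B` is adjacent in `l` to `flip w` and to its outer partner `oo w ≠ flip w`. `PA` is the set of targets `w` on the path with `flip w` just after `w` (and `oo w`
just before), `PB` the set of those with `flip w` just before `w`.
Proofs. `path_triple`: `ladj_triple`. `card_PA`: let `U` be the set of elements of `l` whose slot is not in `B`, at least `N - 2|B|` elements; `flip` is an involution of `U` (`flip w ∈ l` by `ladj_mem`) which exchanges the elements of the first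
and of the second kind (if `l = P ++ oo w :: w :: flip w :: Q` then for `flip w` the element `w = flip (flip w)` is just before), so there are at least `N/2 - |B|` elements of each kind; an element of `U` which is not in
`gd I B` has its outer partner in `B` (as in `card_gd`), at most `2|B|` elements. `sum_PA`: apply `sep_sum` to the set `X` of the numbers `l.idxOf w + 1`, `w ∈ PA` (`idxOf` is injective on `l`). For `l = P ++ oo w :: w :: flip w :: Q`
the index of `w` is `P.length + 1 ≥ 1` and the next element `flip w` is not in `PA` (no element has `flip` just after it and `flip` is just before `flip w`...), so the indices of two different elements of `PA` differ by at least 2. The same for `PB`.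
-/

set_option autoImplicit false

namespace Pool.Agent.H38H

open Classical

variable {ι : Type} [Fintype ι] {L : ℕ}

/-- hypotheses on the path -/
structure PathOK (I : Inst ι L) (B : Finset ι) (l : List (ι × Bool)) : Prop where
  nodup : l.Nodup
  nb : ∀ w ∈ l, w.1 ∉ B → I.outer w = some (oo I w) ∧ oo I w ≠ flip w ∧ LAdj l w (flip w) ∧ LAdj l w (oo I w)

/-- targets with `flip w` just after them -/
noncomputable def PA (I : Inst ι L) (B : Finset ι) (l : List (ι × Bool)) : Finset (ι × Bool) :=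
  (gd I B).filter (fun w => ∃ P Q : List (ι × Bool), l = P ++ oo I w :: w :: flip w :: Q)

/-- targets with `flip w` just before them -/
noncomputable def PB (I : Inst ι L) (B : Finset ι) (l : List (ι × Bool)) : Finset (ι × Bool) :=
  (gd I B).filter (fun w => ∃ P Q : List (ι × Bool), l = P ++ flip w :: w :: oo I w :: Q)

theorem path_triple {I : Inst ι L} {B : Finset ι} {l : List (ι × Bool)} (H : PathOK I B l) {w : ι × Bool}
    (hw : w ∈ l) (hB : w.1 ∉ B) :
    (∃ P Q : List (ι × Bool), l = P ++ oo I w :: w :: flip w :: Q) ∨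
      ∃ P Q : List (ι × Bool), l = P ++ flip w :: w :: oo I w :: Q := by
  obtain ⟨_, h2, h3, h4⟩ := H.nb w hw hB
  obtain ⟨P, Q, h | h⟩ := ladj_triple H.nodup h4 h3 h2
  · exact Or.inl ⟨P, Q, h⟩
  · exact Or.inr ⟨P, Q, h⟩

theorem slq11_idx {l P Q : List (ι × Bool)} {v : ι × Bool} (hn : l.Nodup) (h : l = P ++ v :: Q) :
    l.idxOf v = P.length := by
  subst h
  have h1 : v ∉ P := by
    intro hh
    exact (List.nodup_append'.1 hn).2.2 hh (by simp)
  rw [List.idxOf_append_of_notMem h1]
  simp

theorem slq11_idxA {I : Inst ι L} {l P Q : List (ι × Bool)} {w : ι × Bool} (hn : l.Nodup)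
    (h : l = P ++ oo I w :: w :: flip w :: Q) : w ∈ l ∧ flip w ∈ l ∧ 1 ≤ l.idxOf w ∧ l.idxOf (flip w) = l.idxOf w + 1 := by
  have h1 : l.idxOf w = (P ++ [oo I w]).length := slq11_idx (Q := flip w :: Q) hn (by rw [h]; simp)
  have h2 : l.idxOf (flip w) = (P ++ [oo I w, w]).length := slq11_idx (Q := Q) hn (by rw [h]; simp)
  refine ⟨by rw [h]; simp, by rw [h]; simp, ?_, ?_⟩
  · rw [h1]
    simp
  · rw [h1, h2]
    simp

theorem slq11_idxB {I : Inst ι L} {l P Q : List (ι × Bool)} {w : ι × Bool} (hn : l.Nodup)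
    (h : l = P ++ flip w :: w :: oo I w :: Q) : w ∈ l ∧ flip w ∈ l ∧ l.idxOf w = l.idxOf (flip w) + 1 := by
  have h1 : l.idxOf w = (P ++ [flip w]).length := slq11_idx (Q := oo I w :: Q) hn (by rw [h]; simp)
  have h2 : l.idxOf (flip w) = P.length := slq11_idx (Q := w :: oo I w :: Q) hn h
  refine ⟨by rw [h]; simp, by rw [h]; simp, ?_⟩
  rw [h1, h2]
  simp

theorem PA_PB_disjoint {I : Inst ι L} {B : Finset ι} {l : List (ι × Bool)} (H : PathOK I B l) :
    Disjoint (PA I B l) (PB I B l) := by
  rw [Finset.disjoint_left]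
  intro w h1 h2
  obtain ⟨_, P, Q, h3⟩ := Finset.mem_filter.1 h1
  obtain ⟨_, P', Q', h4⟩ := Finset.mem_filter.1 h2
  have h5 := (slq11_idxA H.nodup h3).2.2.2
  have h6 := (slq11_idxB H.nodup h4).2.2
  omega

/-- elements of the path outside `B` -/
noncomputable def slq11_U (B : Finset ι) (l : List (ι × Bool)) : Finset (ι × Bool) :=
  l.toFinset.filter (fun w => w.1 ∉ B)

noncomputable def slq11_UA (I : Inst ι L) (B : Finset ι) (l : List (ι × Bool)) : Finset (ι × Bool) :=
  (slq11_U B l).filter (fun w => ∃ P Q : List (ι × Bool), l = P ++ oo I w :: w :: flip w :: Q)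

noncomputable def slq11_UB (I : Inst ι L) (B : Finset ι) (l : List (ι × Bool)) : Finset (ι × Bool) :=
  (slq11_U B l).filter (fun w => ∃ P Q : List (ι × Bool), l = P ++ flip w :: w :: oo I w :: Q)

theorem slq11_card_pos (B : Finset ι) (X : Finset (ι × Bool)) (h : ∀ w ∈ X, w.1 ∈ B) : X.card ≤ 2 * B.card := by
  have h1 : X ⊆ B ×ˢ (Finset.univ : Finset Bool) := by
    intro w hw
    simp [h w hw]
  have h2 := Finset.card_le_card h1
  rw [Finset.card_product] at h2
  simp at h2
  omega

theorem slq11_U_card {B : Finset ι} {l : List (ι × Bool)} (hn : l.Nodup) :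
    l.length ≤ (slq11_U B l).card + 2 * B.card := by
  have h1 := Finset.card_filter_add_card_filter_not (s := l.toFinset) (fun w : ι × Bool => w.1 ∉ B)
  have h2 : l.toFinset.card = l.length := List.toFinset_card_of_nodup hn
  have h3 : (l.toFinset.filter (fun w : ι × Bool => ¬ w.1 ∉ B)).card ≤ 2 * B.card := by
    apply slq11_card_pos
    intro w hw
    simpa using (Finset.mem_filter.1 hw).2
  unfold slq11_U
  omega

theorem slq11_U_union {I : Inst ι L} {B : Finset ι} {l : List (ι × Bool)} (H : PathOK I B l) :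
    (slq11_U B l).card ≤ (slq11_UA I B l).card + (slq11_UB I B l).card := by
  have h1 : slq11_U B l ⊆ slq11_UA I B l ∪ slq11_UB I B l := by
    intro w hw
    obtain ⟨h2, h3⟩ := Finset.mem_filter.1 hw
    rcases path_triple H (List.mem_toFinset.1 h2) h3 with h | h
    · exact Finset.mem_union_left _ (Finset.mem_filter.2 ⟨hw, h⟩)
    · exact Finset.mem_union_right _ (Finset.mem_filter.2 ⟨hw, h⟩)
  exact (Finset.card_le_card h1).trans (Finset.card_union_le _ _)

theorem slq11_flipAB {I : Inst ι L} {B : Finset ι} {l : List (ι × Bool)} (H : PathOK I B l) :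
    (slq11_UA I B l).card ≤ (slq11_UB I B l).card := by
  apply Finset.card_le_card_of_injOn flip
  · intro w hw
    obtain ⟨h1, P, Q, h2⟩ := Finset.mem_filter.1 (Finset.mem_coe.1 hw)
    obtain ⟨h3, h4⟩ := Finset.mem_filter.1 h1
    obtain ⟨h5, h6, h7, h8⟩ := slq11_idxA H.nodup h2
    have h9 : flip w ∈ slq11_U B l := Finset.mem_filter.2 ⟨List.mem_toFinset.2 h6, h4⟩
    refine Finset.mem_coe.2 (Finset.mem_filter.2 ⟨h9, ?_⟩)
    rcases path_triple H h6 h4 with ⟨P', Q', h⟩ | h
    · have h10 := (slq11_idxA H.nodup h).2.2.2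
      rw [flip_flip] at h10
      omega
    · exact h
  · intro a _ b _ hab
    rw [← flip_flip a, ← flip_flip b, hab]

theorem slq11_flipBA {I : Inst ι L} {B : Finset ι} {l : List (ι × Bool)} (H : PathOK I B l) :
    (slq11_UB I B l).card ≤ (slq11_UA I B l).card := by
  apply Finset.card_le_card_of_injOn flip
  · intro w hw
    obtain ⟨h1, P, Q, h2⟩ := Finset.mem_filter.1 (Finset.mem_coe.1 hw)
    obtain ⟨h3, h4⟩ := Finset.mem_filter.1 h1
    obtain ⟨h5, h6, h8⟩ := slq11_idxB H.nodup h2
    have h9 : flip w ∈ slq11_U B l := Finset.mem_filter.2 ⟨List.mem_toFinset.2 h6, h4⟩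
    refine Finset.mem_coe.2 (Finset.mem_filter.2 ⟨h9, ?_⟩)
    rcases path_triple H h6 h4 with h | ⟨P', Q', h⟩
    · exact h
    · have h10 := (slq11_idxB H.nodup h).2.2
      rw [flip_flip] at h10
      omega
  · intro a _ b _ hab
    rw [← flip_flip a, ← flip_flip b, hab]

/-- elements of the path outside `B` and not admissible -/
theorem slq11_bad {I : Inst ι L} {B : Finset ι} {l : List (ι × Bool)} (H : PathOK I B l) (G : Finset (ι × Bool))
    (hG : G ⊆ slq11_U B l) : G.card ≤ (G.filter (fun w => w ∈ gd I B)).card + 2 * B.card := by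
  have h1 := Finset.card_filter_add_card_filter_not (s := G) (fun w : ι × Bool => w ∈ gd I B)
  have hkey : ∀ w ∈ G.filter (fun w : ι × Bool => ¬ w ∈ gd I B), I.outer w = some (oo I w) ∧ (oo I w).1 ∈ B := by
    intro w hw
    obtain ⟨h2, h3⟩ := Finset.mem_filter.1 hw
    obtain ⟨h4, h5⟩ := Finset.mem_filter.1 (hG h2)
    obtain ⟨h6, h7, _, _⟩ := H.nb w (List.mem_toFinset.1 h4) h5
    refine ⟨h6, ?_⟩
    by_contra hcon
    apply h3
    refine Finset.mem_filter.2 ⟨Finset.mem_univ _, h5, oo I w, h6, hcon, ?_⟩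
    intro h8
    rcases eq_or_flip h8 with h9 | h9
    · rw [h9] at h6
      exact I.outer_ne w h6
    · exact h7 h9
  have h2 : (G.filter (fun w : ι × Bool => ¬ w ∈ gd I B)).card ≤
      ((G.filter (fun w : ι × Bool => ¬ w ∈ gd I B)).image (fun w => oo I w)).card := by
    rw [Finset.card_image_of_injOn]
    intro a ha b hb hab
    have h3 := (hkey a (Finset.mem_coe.1 ha)).1
    have h4 := (hkey b (Finset.mem_coe.1 hb)).1
    simp only at hab
    rw [hab] at h3
    have h5 := I.outer_symm _ _ h3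
    have h6 := I.outer_symm _ _ h4
    rw [h5] at h6
    exact Option.some.inj h6
  have h3 : ((G.filter (fun w : ι × Bool => ¬ w ∈ gd I B)).image (fun w => oo I w)).card ≤ 2 * B.card := by
    apply slq11_card_pos
    intro v hv
    obtain ⟨w, hw, rfl⟩ := Finset.mem_image.1 hv
    exact (hkey w hw).2
  omega

theorem card_PA {I : Inst ι L} {B : Finset ι} {l : List (ι × Bool)} (H : PathOK I B l) :
    l.length ≤ 2 * (PA I B l).card + 6 * B.card := by
  have h1 := slq11_U_card (B := B) H.nodup
  have h2 := slq11_U_union H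
  have h3 := slq11_flipBA H
  have h4 := slq11_bad H (slq11_UA I B l) (Finset.filter_subset _ _)
  have h5 : (slq11_UA I B l).filter (fun w => w ∈ gd I B) ⊆ PA I B l := by
    intro w hw
    obtain ⟨h6, h7⟩ := Finset.mem_filter.1 hw
    exact Finset.mem_filter.2 ⟨h7, (Finset.mem_filter.1 h6).2⟩
  have h6 := Finset.card_le_card h5
  omega

theorem card_PB {I : Inst ι L} {B : Finset ι} {l : List (ι × Bool)} (H : PathOK I B l) :
    l.length ≤ 2 * (PB I B l).card + 6 * B.card := by
  have h1 := slq11_U_card (B := B) H.nodup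
  have h2 := slq11_U_union H
  have h3 := slq11_flipAB H
  have h4 := slq11_bad H (slq11_UB I B l) (Finset.filter_subset _ _)
  have h5 : (slq11_UB I B l).filter (fun w => w ∈ gd I B) ⊆ PB I B l := by
    intro w hw
    obtain ⟨h6, h7⟩ := Finset.mem_filter.1 hw
    exact Finset.mem_filter.2 ⟨h7, (Finset.mem_filter.1 h6).2⟩
  have h6 := Finset.card_le_card h5
  omega

theorem slq11_sum {l : List (ι × Bool)} (X : Finset (ι × Bool)) (hX : ∀ w ∈ X, w ∈ l ∧ 1 ≤ l.idxOf w)
    (hsep : ∀ v ∈ X, ∀ w ∈ X, l.idxOf w ≠ l.idxOf v + 1) :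
    X.card * (X.card + 1) ≤ ∑ w ∈ X, (l.idxOf w + 1) := by
  have hinj : Set.InjOn (fun w => l.idxOf w + 1) (X : Set (ι × Bool)) := by
    intro a ha b _ hab
    have h1 := (hX a (Finset.mem_coe.1 ha)).1
    exact (List.idxOf_inj h1).1 (Nat.succ.inj hab)
  have h1 := sep_sum (X.image (fun w => l.idxOf w + 1)) ?_ ?_
  · rw [Finset.card_image_of_injOn hinj, Finset.sum_image hinj] at h1
    exact h1
  · intro a ha
    obtain ⟨w, hw, rfl⟩ := Finset.mem_image.1 ha
    have h2 := (hX w hw).2
    omega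
  · intro a ha b hb hab
    obtain ⟨v, hv, rfl⟩ := Finset.mem_image.1 ha
    obtain ⟨w, hw, rfl⟩ := Finset.mem_image.1 hb
    have h2 := hsep v hv w hw
    omega

theorem sum_PA {I : Inst ι L} {B : Finset ι} {l : List (ι × Bool)} (H : PathOK I B l) :
    (PA I B l).card * ((PA I B l).card + 1) ≤ ∑ w ∈ PA I B l, (l.idxOf w + 1) := by
  apply slq11_sum
  · intro w hw
    obtain ⟨_, P, Q, h⟩ := Finset.mem_filter.1 hw
    obtain ⟨h1, h2, h3, h4⟩ := slq11_idxA H.nodup h
    exact ⟨h1, h3⟩
  · intro v hv w hw hvw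
    obtain ⟨_, P, Q, h⟩ := Finset.mem_filter.1 hv
    obtain ⟨h1, h2, h3, h4⟩ := slq11_idxA H.nodup h
    obtain ⟨_, P', Q', h'⟩ := Finset.mem_filter.1 hw
    obtain ⟨h1', h2', h3', h4'⟩ := slq11_idxA H.nodup h'
    have h5 : w = flip v := (List.idxOf_inj h1').1 (by rw [hvw, h4])
    rw [h5, flip_flip] at h4'
    omega

theorem sum_PB {I : Inst ι L} {B : Finset ι} {l : List (ι × Bool)} (H : PathOK I B l) :
    (PB I B l).card * ((PB I B l).card + 1) ≤ ∑ w ∈ PB I B l, (l.idxOf w + 1) := by
  apply slq11_sum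
  · intro w hw
    obtain ⟨_, P, Q, h⟩ := Finset.mem_filter.1 hw
    obtain ⟨h1, h2, h3⟩ := slq11_idxB H.nodup h
    exact ⟨h1, by omega⟩
  · intro v hv w hw hvw
    obtain ⟨_, P, Q, h⟩ := Finset.mem_filter.1 hv
    obtain ⟨h1, h2, h3⟩ := slq11_idxB H.nodup h
    obtain ⟨_, P', Q', h'⟩ := Finset.mem_filter.1 hw
    obtain ⟨h1', h2', h3'⟩ := slq11_idxB H.nodup h'
    have h5 : v = flip w := (List.idxOf_inj h1).1 (by omega)
    rw [h5, flip_flip] at h3
    omega

end Pool.Agent.H38H
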