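import Pool.Agent.Lib.H38H.Q.Q4

/-!
Chunk SLQ5 (M). The move is unique.

Proof of `qstep_unique`. Where does `w = a.1` lie? By `Nodup` of `s.all` in exactly one of `s.l`, `s.k`, one list of `s.J` (at one index). In the path: in the keep case `a.2` is the last element before `w`, in the split case
the first one after `w`; by `Nodup` only one of the two can happen, and the decomposition is unique (`split_unique`). In `k`: `opn_unique` (length at least 3, as `k` is not empty). In `J`: the decomposition `J = J₁ ++ c :: J₂` with `w ∈ c`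
is unique since `J.flatten` is `Nodup` (compare with `List.append_eq_append_iff`: otherwise `w` would lie in two different entries), then `opn_unique`.
`nxt_eq`: `nxt (some s) a` is `some` of a chosen `s''` with `QStep s a s''`, equal to `s'` by uniqueness. `nxt_some`: unfold.
-/

set_option autoImplicit false

namespace Pool.Agent.H38H

open Classical

variable {α : Type}

theorem slq5_split {w : α} : ∀ (J₁ J₂ J₁' J₂' : List (List α)) (c c' : List α),
    (J₁ ++ c :: J₂).flatten.Nodup → J₁ ++ c :: J₂ = J₁' ++ c' :: J₂' → w ∈ c → w ∈ c' →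
    J₁ = J₁' ∧ c = c' ∧ J₂ = J₂' := by
  intro J₁
  induction J₁ with
  | nil =>
    intro J₂ J₁' J₂' c c' hn he hc hc'
    cases J₁' with
    | nil =>
      simp only [List.nil_append, List.cons.injEq] at he
      exact ⟨rfl, he.1, he.2⟩
    | cons d J =>
      exfalso
      simp only [List.nil_append, List.cons_append, List.cons.injEq] at he
      obtain ⟨h1, h2⟩ := he
      rw [List.nil_append, List.flatten_cons, List.nodup_append] at hn
      refine hn.2.2 w hc w ?_ rfl
      rw [h2]
      simp only [List.flatten_append, List.flatten_cons, List.mem_append]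
      exact Or.inr (Or.inl hc')
  | cons d J ih =>
    intro J₂ J₁' J₂' c c' hn he hc hc'
    cases J₁' with
    | nil =>
      exfalso
      simp only [List.nil_append, List.cons_append, List.cons.injEq] at he
      obtain ⟨h1, h2⟩ := he
      rw [List.cons_append, List.flatten_cons, List.nodup_append] at hn
      refine hn.2.2 w (h1 ▸ hc') w ?_ rfl
      simp only [List.flatten_append, List.flatten_cons, List.mem_append]
      exact Or.inr (Or.inl hc)
    | cons d' J' =>
      simp only [List.cons_append, List.cons.injEq] at he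
      obtain ⟨h1, h2⟩ := he
      rw [List.cons_append, List.flatten_cons, List.nodup_append] at hn
      obtain ⟨h3, h4, h5⟩ := ih J₂ J' J₂' c c' hn.2.1 h2 hc hc'
      exact ⟨by rw [h1, h3], h4, h5⟩

theorem slq5_disj {s : QS α} (hw : s.WF) {w : α} :
    (w ∈ s.l → w ∉ s.k) ∧ (w ∈ s.l → w ∉ s.J.flatten) ∧ (w ∈ s.k → w ∉ s.J.flatten) := by
  have h := hw.nodup
  unfold QS.all at h
  rw [List.nodup_append] at h
  obtain ⟨h1, h2, h3⟩ := h
  rw [List.nodup_append] at h1
  obtain ⟨h4, h5, h6⟩ := h1
  refine ⟨fun a b => h6 w a w b rfl, fun a b => h3 w (List.mem_append_left _ a) w b rfl,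
    fun a b => h3 w (List.mem_append_right _ a) w b rfl⟩

theorem slq5_memJ {J J₁ J₂ : List (List α)} {c : List α} {w : α} (h : J = J₁ ++ c :: J₂) (hw : w ∈ c) :
    w ∈ J.flatten := by
  subst h
  simp only [List.flatten_append, List.flatten_cons, List.mem_append]
  exact Or.inr (Or.inl hw)

theorem slq5_keepsplit {l P Q P' Q' : List α} {u v : α} (hn : l.Nodup) (h : l = P ++ v :: u :: Q)
    (h' : l = P' ++ u :: v :: Q') : False := by
  have h1 : l = (P ++ [v]) ++ u :: Q := by rw [h]; simp
  obtain ⟨h2, h3⟩ := split_unique hn h1 h'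
  rw [h', List.nodup_append] at hn
  refine hn.2.2 v (h2 ▸ by simp) v (by simp) rfl

theorem qstep_unique {s s' s'' : QS α} {a : α × α} (hw : s.WF) (h : QStep s a s') (h' : QStep s a s'') :
    s' = s'' := by
  have hd := @slq5_disj α s hw a.1
  have hnl : s.l.Nodup := by
    have h1 := hw.nodup
    unfold QS.all at h1
    rw [List.append_assoc] at h1
    exact (List.nodup_append.1 h1).1
  have hnk : s.k.Nodup := by
    have h1 := hw.nodup
    unfold QS.all at h1
    exact (List.nodup_append.1 (List.nodup_append.1 h1).1).2.1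
  have hnJ : s.J.flatten.Nodup := by
    have h1 := hw.nodup
    unfold QS.all at h1
    exact (List.nodup_append.1 h1).2.1
  rcases h with ⟨P, Q, hl, rfl⟩ | ⟨P, Q, hl, hk, hP, rfl⟩ | ⟨R, hR, rfl⟩ | ⟨J₁, c, J₂, R, hJ, hR, rfl⟩
  · have hwl : a.1 ∈ s.l := by rw [hl]; simp
    rcases h' with ⟨P', Q', hl', rfl⟩ | ⟨P', Q', hl', hk', hP', rfl⟩ | ⟨R', hR', rfl⟩ |
      ⟨J₁', c', J₂', R', hJ', hR', rfl⟩
    · obtain ⟨h1, h2⟩ := split_unique hnl hl hl'
      rw [List.cons.injEq] at h2
      rw [h1, h2.2]
    · exact (slq5_keepsplit hnl hl hl').elim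
    · exact (hd.1 hwl (opn_mem hR').1).elim
    · exact (hd.2.1 hwl (slq5_memJ hJ' (opn_mem hR').1)).elim
  · have hwl : a.1 ∈ s.l := by rw [hl]; simp
    rcases h' with ⟨P', Q', hl', rfl⟩ | ⟨P', Q', hl', hk', hP', rfl⟩ | ⟨R', hR', rfl⟩ |
      ⟨J₁', c', J₂', R', hJ', hR', rfl⟩
    · exact (slq5_keepsplit hnl hl' hl).elim
    · obtain ⟨h1, h2⟩ := split_unique hnl hl hl'
      rw [List.cons.injEq] at h2
      rw [h1, h2.2]
    · exact (hd.1 hwl (opn_mem hR').1).elim
    · exact (hd.2.1 hwl (slq5_memJ hJ' (opn_mem hR').1)).elim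
  · have hwk : a.1 ∈ s.k := (opn_mem hR).1
    rcases h' with ⟨P', Q', hl', rfl⟩ | ⟨P', Q', hl', hk', hP', rfl⟩ | ⟨R', hR', rfl⟩ |
      ⟨J₁', c', J₂', R', hJ', hR', rfl⟩
    · exact (hd.1 (by rw [hl']; simp) hwk).elim
    · exact (hd.1 (by rw [hl']; simp) hwk).elim
    · have h3 : 3 ≤ s.k.length := by
        rcases hw.k3 with h0 | h0
        · rw [h0] at hwk; simp at hwk
        · exact h0
      rw [opn_unique hnk h3 hR hR']
    · exact (hd.2.2 hwk (slq5_memJ hJ' (opn_mem hR').1)).elim
  · have hwJ : a.1 ∈ s.J.flatten := slq5_memJ hJ (opn_mem hR).1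
    rcases h' with ⟨P', Q', hl', rfl⟩ | ⟨P', Q', hl', hk', hP', rfl⟩ | ⟨R', hR', rfl⟩ |
      ⟨J₁', c', J₂', R', hJ', hR', rfl⟩
    · exact (hd.2.1 (by rw [hl']; simp) hwJ).elim
    · exact (hd.2.1 (by rw [hl']; simp) hwJ).elim
    · exact (hd.2.2 (opn_mem hR').1 hwJ).elim
    · obtain ⟨h1, h2, h3⟩ := slq5_split J₁ J₂ J₁' J₂' c c' (hJ ▸ hnJ) (hJ.symm.trans hJ')
        (opn_mem hR).1 (opn_mem hR').1
      subst h1 h2 h3
      have hcJ : c ∈ s.J := by rw [hJ]; simp
      have hnc : c.Nodup := (List.nodup_flatten.1 hnJ).1 c hcJ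
      rw [opn_unique hnc (hw.J3 c hcJ) hR hR']

theorem nxt_eq {s s' : QS α} {a : α × α} (hw : s.WF) (h : QStep s a s') : nxt (some s) a = some s' := by
  unfold nxt
  have he : ∃ s', QStep s a s' := ⟨s', h⟩
  simp only [Option.bind_some]
  rw [dif_pos he]
  rw [qstep_unique hw he.choose_spec h]

theorem nxt_some {o : Option (QS α)} {a : α × α} {s' : QS α} (h : nxt o a = some s') :
    ∃ s, o = some s ∧ QStep s a s' := by
  cases o with
  | none => simp [nxt] at h
  | some s =>
    refine ⟨s, rfl, ?_⟩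
    unfold nxt at h
    simp only [Option.bind_some] at h
    by_cases he : ∃ s', QStep s a s'
    · rw [dif_pos he] at h
      rw [← Option.some.inj h]
      exact he.choose_spec
    · rw [dif_neg he] at h
      exact absurd h (by simp)

end Pool.Agent.H38H
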