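import Pool.Agent.Lib.H38H.Q.D
import Pool.Agent.Lib.H38H.Q.Q5

/-!
Chunk SLQ6 (S/M). The invariant `QInv` under moves, reversal and enlargement of the touched set.

Proofs. `QInv.rev`: `rev_wf`, `rev_mem`, `ends_reverse`, `rev_adj`. `QInv.mono`: clear. `QInv.step`: `qstep_wf`, `qstep_perm`, `qstep_ends`, `qstep_small`; for `nb` let `v.1` be outside the new set, so `v ≠ w`, `v ≠ x'` and
`v ≠ x`; by `qstep_adj` the adjacencies of `v` do not change. `run_inv`: let `T` contain `K` and all slots. First for `my = []` by induction on `mx` (the induction hypothesis is used with the same `T`, by `QInv.mono` for the start;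
`slotsOf m ⊆ slotsOf (a :: m)`: `mem_slotsOf_tail`, `a.1.1 ∈ slotsOf (a :: m)`: `target_mem_slotsOf`, `a.2.1 ∈ slotsOf (a :: m)`: `end_mem_slotsOf`; then `insert a.1.1 (insert a.2.1 T) = T`), using `nxt_some`; then by induction on `my` with
`QInv.rev` before and after the move. `run_more`: the same inductions with `qstep_more` (reversal does not change `J`, `mg` and the lengths).
-/

set_option autoImplicit false

namespace Pool.Agent.H38H

open Classical

variable {ι : Type} [Fintype ι] {L : ℕ}

theorem QInv.rev {I : Inst ι L} {T : Finset ι} {x y : ι × Bool} {s : QS (ι × Bool)} (H : QInv I T x y s) :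
    QInv I T y x s.rev where
  wf := rev_wf H.wf
  full := fun v => rev_mem.2 (H.full v)
  ends := ends_reverse.2 H.ends
  hx := H.hy
  hy := H.hx
  nb := fun v hv => by
    obtain ⟨o, h1, h2, h3, h4⟩ := H.nb v hv
    exact ⟨o, h1, h2, rev_adj.2 h3, rev_adj.2 h4⟩
  small := fun hm => by
    have h1 := H.small hm
    show s.l.reverse.length + s.k.length ≤ Fintype.card ι
    rw [List.length_reverse]
    exact h1

theorem QInv.mono {I : Inst ι L} {T T' : Finset ι} {x y : ι × Bool} {s : QS (ι × Bool)} (H : QInv I T x y s)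
    (hT : T ⊆ T') : QInv I T' x y s where
  wf := H.wf
  full := H.full
  ends := H.ends
  hx := hT H.hx
  hy := hT H.hy
  nb := fun v hv => H.nb v (fun h => hv (hT h))
  small := H.small

theorem QInv.step {I : Inst ι L} {T : Finset ι} {x y w x' : ι × Bool} {s s' : QS (ι × Bool)}
    (H : QInv I T x y s) (h : QStep s (w, x') s') : QInv I (insert w.1 (insert x'.1 T)) x' y s' where
  wf := qstep_wf H.wf h
  full := fun v => (qstep_perm h).mem_iff.2 (H.full v)
  ends := qstep_ends H.ends h
  hx := Finset.mem_insert_of_mem (Finset.mem_insert_self _ _)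
  hy := Finset.mem_insert_of_mem (Finset.mem_insert_of_mem H.hy)
  nb := fun v hv => by
    rw [Finset.mem_insert, Finset.mem_insert, not_or, not_or] at hv
    obtain ⟨h1, h2, h3⟩ := hv
    obtain ⟨o, h4, h5, h6, h7⟩ := H.nb v h3
    have hadj := qstep_adj H.wf H.ends h
    have hvw : v ≠ w := fun e => h1 (by rw [e])
    have hvx : v ≠ x' := fun e => h2 (by rw [e])
    refine ⟨o, h4, h5, (hadj _ _).2 (Or.inl ⟨h6, fun e => hvw e.1, fun e => hvx e.1⟩),
      (hadj _ _).2 (Or.inl ⟨h7, fun e => hvw e.1, fun e => hvx e.1⟩)⟩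
  small := fun hm => by
    obtain ⟨h1, h2⟩ := qstep_small h hm
    rw [h2]
    exact H.small h1

theorem slq6_runX {I : Inst ι L} {K T : Finset ι} {x0 y0 : ι × Bool} {s0 : QS (ι × Bool)}
    (H0 : QInv I (insert x0.1 (insert y0.1 K)) x0 y0 s0) (hK : K ⊆ T) (hx : x0.1 ∈ T) (hy : y0.1 ∈ T) :
    ∀ (mx : List (Mv ι)) (s : QS (ι × Bool)), runX s0 mx = some s → (∀ p ∈ slotsOf mx, p ∈ T) →
      QInv I T (endOf x0 mx) y0 s := by
  intro mx
  induction mx with
  | nil =>
    intro s hs hT
    have h1 : s0 = s := Option.some.inj hs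
    subst h1
    refine H0.mono ?_
    intro p hp
    rw [Finset.mem_insert, Finset.mem_insert] at hp
    rcases hp with rfl | rfl | hp
    · exact hx
    · exact hy
    · exact hK hp
  | cons a m ih =>
    intro s hs hT
    obtain ⟨s1, h1, h2⟩ := nxt_some (show nxt (runX s0 m) a = some s from hs)
    have h3 := ih s1 h1 (fun p hp => hT p (mem_slotsOf_tail hp))
    obtain ⟨w, x'⟩ := a
    have h4 := h3.step h2
    refine h4.mono ?_
    intro p hp
    rw [Finset.mem_insert, Finset.mem_insert] at hp
    rcases hp with rfl | rfl | hp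
    · exact hT _ (target_mem_slotsOf (w, x') m)
    · exact hT _ (end_mem_slotsOf (x0 := x0) (m := (w, x') :: m) (by simp))
    · exact hp

theorem slq6_runY {I : Inst ι L} {T : Finset ι} {x y0 : ι × Bool} {o : Option (QS (ι × Bool))}
    (H0 : ∀ s, o = some s → QInv I T x y0 s) :
    ∀ (my : List (Mv ι)) (s : QS (ι × Bool)), runY o my = some s → (∀ p ∈ slotsOf my, p ∈ T) →
      QInv I T x (endOf y0 my) s := by
  intro my
  induction my with
  | nil =>
    intro s hs hT
    exact H0 s hs
  | cons a m ih =>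
    intro s hs hT
    have hs' : (nxt ((runY o m).map QS.rev) a).map QS.rev = some s := hs
    rw [Option.map_eq_some_iff] at hs'
    obtain ⟨s2, h1, h2⟩ := hs'
    obtain ⟨s1, h3, h4⟩ := nxt_some h1
    rw [Option.map_eq_some_iff] at h3
    obtain ⟨s3, h5, h6⟩ := h3
    have h7 := ih s3 h5 (fun p hp => hT p (mem_slotsOf_tail hp))
    have h8 := h7.rev
    rw [h6] at h8
    obtain ⟨w, x'⟩ := a
    have h9 := (h8.step h4).rev
    rw [h2] at h9
    refine h9.mono ?_
    intro p hp
    rw [Finset.mem_insert, Finset.mem_insert] at hp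
    rcases hp with rfl | rfl | hp
    · exact hT _ (target_mem_slotsOf (w, x') m)
    · exact hT _ (end_mem_slotsOf (x0 := y0) (m := (w, x') :: m) (by simp))
    · exact hp

/-- the invariant along runs -/
theorem run_inv {I : Inst ι L} {K T : Finset ι} {x0 y0 : ι × Bool} {s0 s : QS (ι × Bool)}
    (H0 : QInv I (insert x0.1 (insert y0.1 K)) x0 y0 s0) {mx my : List (Mv ι)}
    (hs : runY (runX s0 mx) my = some s) (hK : K ⊆ T)
    (hT : ∀ p ∈ (x0.1 :: slotsOf mx) ++ (y0.1 :: slotsOf my), p ∈ T) :
    QInv I T (endOf x0 mx) (endOf y0 my) s := by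
  have hx : x0.1 ∈ T := hT _ (by simp)
  have hy : y0.1 ∈ T := hT _ (by simp)
  refine slq6_runY (o := runX s0 mx) (fun s1 h1 => ?_) my s hs (fun p hp => hT p ?_)
  · refine slq6_runX H0 hK hx hy mx s1 h1 (fun p hp => hT p ?_)
    simp [hp]
  · simp [hp]

theorem slq6_moreX {s0 : QS (ι × Bool)} : ∀ (mx : List (Mv ι)) (s : QS (ι × Bool)), runX s0 mx = some s →
    (∀ c ∈ s.J, c ∈ s0.J) ∧
      s.J.length + (if s.mg = true then 1 else 0) ≤ s0.J.length + (if s0.mg = true then 1 else 0) ∧
      s0.l.length + s0.k.length ≤ s.l.length + s.k.length := by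
  intro mx
  induction mx with
  | nil =>
    intro s hs
    have h1 : s0 = s := Option.some.inj hs
    subst h1
    exact ⟨fun c hc => hc, le_rfl, le_rfl⟩
  | cons a m ih =>
    intro s hs
    obtain ⟨s1, h1, h2⟩ := nxt_some (show nxt (runX s0 m) a = some s from hs)
    obtain ⟨h3, h4, h5⟩ := ih s1 h1
    obtain ⟨h6, h7, h8⟩ := qstep_more h2
    exact ⟨fun c hc => h3 c (h6 c hc), h7.trans h4, h5.trans h8⟩

theorem run_more {s0 s : QS (ι × Bool)} {mx my : List (Mv ι)} (hs : runY (runX s0 mx) my = some s) :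
    (∀ c ∈ s.J, c ∈ s0.J) ∧
      s.J.length + (if s.mg = true then 1 else 0) ≤ s0.J.length + (if s0.mg = true then 1 else 0) ∧
      s0.l.length + s0.k.length ≤ s.l.length + s.k.length := by
  induction my generalizing s with
  | nil => exact slq6_moreX mx s hs
  | cons a m ih =>
    have hs' : (nxt ((runY (runX s0 mx) m).map QS.rev) a).map QS.rev = some s := hs
    rw [Option.map_eq_some_iff] at hs'
    obtain ⟨s2, h1, h2⟩ := hs'
    obtain ⟨s1, h3, h4⟩ := nxt_some h1
    rw [Option.map_eq_some_iff] at h3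
    obtain ⟨s3, h5, h6⟩ := h3
    obtain ⟨h7, h8, h9⟩ := ih h5
    obtain ⟨ha, hb, hc⟩ := qstep_more h4
    subst h2 h6
    have e1 : s3.rev.l.length = s3.l.length := List.length_reverse
    have e2 : s2.rev.l.length = s2.l.length := List.length_reverse
    rw [e1] at hc
    rw [e2]
    exact ⟨fun c hcc => h7 c (ha c hcc), hb.trans h8, h9.trans hc⟩

end Pool.Agent.H38H
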