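import Pool.Agent.Lib.H38H.Q.Q5
import Pool.Agent.Lib.H38H.Q.Q6
import Pool.Agent.Lib.H38H.Q.Q11

/-!
Chunk SLQ12 (M). Values of the next states.

Let `H : QInv I T x y s`, `T ⊆ B`. Proofs. `qinv_nb`: the partner in `H.nb` is `oo I w`. `qinv_path`: for `w ∈ s.l` outside `B`: `s.Adj w (flip w)` must come from `s.l` since `w` is in no other list (`Nodup`, `cadj_mem`), the same
for `oo I w`. Moves: in each case give the next state explicitly, prove `QStep` and use `nxt_eq`.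
`val_PA_out`: `l = P ++ oo w :: w :: flip w :: Q`, move `(w, oo w)`: keep. `val_PA_mid`: move `(w, flip w)`: `l = (P ++ [oo w]) ++ w :: flip w :: Q`: split, if `2 ≤ P.length + 1`, the new `k` has length `P.length + 2 = idxOf w + 1`;
if `P = []` the claimed lower bound is `(2 - 6E)/.. < 0` and the value is nonnegative anyway (`nxt` may be `none`). `val_PB_out`: `l = P ++ flip w :: w :: oo w :: Q`, move `(w, oo w)`: `l = (P ++ [flip w]) ++ w :: oo w :: Q`: split, `k` of length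
`P.length + 2 = idxOf w + 1`. `val_PB_mid`: move `(w, flip w)`: keep. `val_off`: `w` outside `s.l`, so `w ∈ s.k` or `w` in a cycle `c` of `s.J`; `opn_exists` (`CAdj k w x'`, resp. `CAdj c w x'`, by `H.nb` and `Nodup`).
For the last two: if `w ∈ s.k` the new state has `k = []` and the same `mg`; if `w` is in a cycle of `J` it has the same `k` and `mg = true`.
-/

set_option autoImplicit false

namespace Pool.Agent.H38H

open Classical

variable {ι : Type} [Fintype ι] {L : ℕ}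

theorem qinv_nb {I : Inst ι L} {T B : Finset ι} {x y : ι × Bool} {s : QS (ι × Bool)} (H : QInv I T x y s)
    (hTB : T ⊆ B) {w : ι × Bool} (hw : w.1 ∉ B) :
    I.outer w = some (oo I w) ∧ oo I w ≠ flip w ∧ s.Adj w (flip w) ∧ s.Adj w (oo I w) := by
  obtain ⟨o, h1, h2, h3, h4⟩ := H.nb w (fun h => hw (hTB h))
  have h5 : oo I w = o := by
    unfold oo
    rw [h1]
    rfl
  rw [h5]
  exact ⟨h1, h2, h3, h4⟩

theorem slq12_nodup {s : QS (ι × Bool)} (h : s.WF) : s.l.Nodup ∧ s.k.Nodup ∧ s.J.flatten.Nodup ∧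
    (∀ a ∈ s.l, a ∉ s.k) ∧ (∀ a ∈ s.l, a ∉ s.J.flatten) ∧ (∀ a ∈ s.k, a ∉ s.J.flatten) := by
  have h1 := h.nodup
  unfold QS.all at h1
  rw [List.nodup_append] at h1
  obtain ⟨h2, h3, h4⟩ := h1
  rw [List.nodup_append] at h2
  obtain ⟨h5, h6, h7⟩ := h2
  refine ⟨h5, h6, h3, ?_, ?_, ?_⟩
  · intro a ha hb
    exact h7 a ha a hb rfl
  · intro a ha hb
    exact h4 a (List.mem_append_left _ ha) a hb rfl
  · intro a ha hb
    exact h4 a (List.mem_append_right _ ha) a hb rfl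

theorem slq12_memJ {s : QS (ι × Bool)} {c : List (ι × Bool)} (hc : c ∈ s.J) {a : ι × Bool} (ha : a ∈ c) :
    a ∈ s.J.flatten := List.mem_flatten.2 ⟨c, hc, ha⟩

theorem slq12_adj_l {s : QS (ι × Bool)} (h : s.WF) {a b : ι × Bool} (ha : a ∈ s.l) (hab : s.Adj a b) :
    LAdj s.l a b := by
  obtain ⟨h1, h2, h3, h4, h5, h6⟩ := slq12_nodup h
  rcases hab with hab | hab | ⟨c, hc, hab⟩
  · exact hab
  · exact absurd (cadj_mem hab).1 (h4 a ha)
  · exact absurd (slq12_memJ hc (cadj_mem hab).1) (h5 a ha)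

theorem slq12_adj_k {s : QS (ι × Bool)} (h : s.WF) {a b : ι × Bool} (ha : a ∈ s.k) (hab : s.Adj a b) :
    CAdj s.k a b := by
  obtain ⟨h1, h2, h3, h4, h5, h6⟩ := slq12_nodup h
  rcases hab with hab | hab | ⟨c, hc, hab⟩
  · exact absurd ha (h4 a (ladj_mem hab).1)
  · exact hab
  · exact absurd (slq12_memJ hc (cadj_mem hab).1) (h6 a ha)

theorem qinv_path {I : Inst ι L} {T B : Finset ι} {x y : ι × Bool} {s : QS (ι × Bool)} (H : QInv I T x y s)
    (hTB : T ⊆ B) : PathOK I B s.l := by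
  refine ⟨(slq12_nodup H.wf).1, fun w hw hB => ?_⟩
  obtain ⟨h1, h2, h3, h4⟩ := qinv_nb H hTB hB
  exact ⟨h1, h2, slq12_adj_l H.wf hw h3, slq12_adj_l H.wf hw h4⟩

/-- value of the next state -/
noncomputable def nv (f : QS (ι × Bool) → ℝ) (s : QS (ι × Bool)) (a : Mv ι) : ℝ := (nxt (some s) a).elim 0 f

theorem nv_nonneg {f : QS (ι × Bool) → ℝ} (hf : ∀ s, 0 ≤ f s) (s : QS (ι × Bool)) (a : Mv ι) : 0 ≤ nv f s a := by
  unfold nv
  cases nxt (some s) a with
  | none => simp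
  | some t => simpa using hf t

theorem slq12_nv {f : QS (ι × Bool) → ℝ} {s s' : QS (ι × Bool)} {a : Mv ι} (hw : s.WF) (h : QStep s a s') :
    nv f s a = f s' := by
  unfold nv
  rw [nxt_eq hw h]
  rfl

theorem qval_nonneg (n E : ℕ) (s : QS (ι × Bool)) : 0 ≤ qval n E s := by
  unfold qval
  split_ifs
  · norm_num
  · norm_num
  · exact le_max_left _ _
  · exact le_refl _

theorem qvalf_nonneg (s : QS (ι × Bool)) : 0 ≤ qvalf s := by
  unfold qvalf
  split_ifs
  · norm_num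
  · exact le_refl _

theorem slq12_val1 (n E : ℕ) {s : QS (ι × Bool)} (hk : s.k = []) (hm : s.mg = true) :
    qval n E s = 1 ∧ qvalf s = 1 := by
  unfold qval qvalf
  rw [if_pos hk, if_pos hm, if_pos ⟨hk, hm⟩]
  exact ⟨rfl, rfl⟩

theorem val_PA_out {I : Inst ι L} {T B : Finset ι} {x y : ι × Bool} {s : QS (ι × Bool)} (H : QInv I T x y s)
    (hTB : T ⊆ B) (hk : s.k = []) (hm : s.mg = true) (n E : ℕ) {w : ι × Bool} (hw : w ∈ PA I B s.l) :
    nv (qval n E) s (w, oo I w) = 1 ∧ nv qvalf s (w, oo I w) = 1 := by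
  unfold PA at hw
  rw [Finset.mem_filter] at hw
  obtain ⟨-, P, Q, hl⟩ := hw
  have hst : QStep s (w, oo I w) ⟨(P ++ [oo I w]).reverse ++ w :: (flip w :: Q), s.k, s.J, s.mg⟩ :=
    Or.inl ⟨P, flip w :: Q, hl, rfl⟩
  rw [slq12_nv H.wf hst, slq12_nv H.wf hst]
  exact slq12_val1 n E hk hm

theorem val_PB_mid {I : Inst ι L} {T B : Finset ι} {x y : ι × Bool} {s : QS (ι × Bool)} (H : QInv I T x y s)
    (hTB : T ⊆ B) (hk : s.k = []) (hm : s.mg = true) (n E : ℕ) {w : ι × Bool} (hw : w ∈ PB I B s.l) :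
    nv (qval n E) s (w, flip w) = 1 := by
  unfold PB at hw
  rw [Finset.mem_filter] at hw
  obtain ⟨-, P, Q, hl⟩ := hw
  have hst : QStep s (w, flip w) ⟨(P ++ [flip w]).reverse ++ w :: (oo I w :: Q), s.k, s.J, s.mg⟩ :=
    Or.inl ⟨P, oo I w :: Q, hl, rfl⟩
  rw [slq12_nv H.wf hst]
  exact (slq12_val1 n E hk hm).1

/-- common part of the two splitting moves -/
theorem slq12_split {s : QS (ι × Bool)} (hwf : s.WF) (hk : s.k = []) (hm : s.mg = true) {n E : ℕ}
    (hE : 1 ≤ E) {w x' v : ι × Bool} {P Q : List (ι × Bool)} (hl : s.l = P ++ v :: w :: x' :: Q) :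
    (((s.l.idxOf w + 1 : ℕ) : ℝ) - 6 * E) / (1.58 * n) ≤ nv (qval n E) s (w, x') := by
  have hnd := (slq12_nodup hwf).1
  have hidx : s.l.idxOf w = P.length + 1 := by
    rw [hl] at hnd ⊢
    rw [List.nodup_append] at hnd
    obtain ⟨h1, h2, h3⟩ := hnd
    have h4 : w ∉ P := fun h => h3 w h w (by simp) rfl
    have h5 : v ≠ w := by
      rintro rfl
      rw [List.nodup_cons] at h2
      exact h2.1 (by simp)
    rw [List.idxOf_append_of_notMem h4, List.idxOf_cons_ne _ h5, List.idxOf_cons_self]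
  rw [hidx]
  have hEr : (1 : ℝ) ≤ E := by exact_mod_cast hE
  by_cases hP : 2 ≤ (P ++ [v]).length
  · have hl2 : s.l = (P ++ [v]) ++ w :: x' :: Q := by rw [hl]; simp
    have hst : QStep s (w, x') ⟨x' :: Q, (P ++ [v]) ++ [w], s.J, s.mg⟩ :=
      Or.inr (Or.inl ⟨P ++ [v], Q, hl2, hk, hP, rfl⟩)
    rw [slq12_nv hwf hst]
    unfold qval
    rw [if_neg (by simp), if_pos hm]
    refine le_trans ?_ (le_max_right _ _)
    apply le_of_eq
    congr 2
    simp
    ring
  · have hP0 : P.length = 0 := by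
      rw [List.length_append, List.length_singleton] at hP
      omega
    refine le_trans ?_ (nv_nonneg (qval_nonneg n E) s _)
    rw [hP0]
    apply div_nonpos_of_nonpos_of_nonneg
    · push_cast
      linarith
    · positivity

theorem val_PB_out {I : Inst ι L} {T B : Finset ι} {x y : ι × Bool} {s : QS (ι × Bool)} (H : QInv I T x y s)
    (hTB : T ⊆ B) (hk : s.k = []) (hm : s.mg = true) {n E : ℕ} (hE : 1 ≤ E) {w : ι × Bool} (hw : w ∈ PB I B s.l) :
    (((s.l.idxOf w + 1 : ℕ) : ℝ) - 6 * E) / (1.58 * n) ≤ nv (qval n E) s (w, oo I w) := by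
  unfold PB at hw
  rw [Finset.mem_filter] at hw
  obtain ⟨-, P, Q, hl⟩ := hw
  exact slq12_split H.wf hk hm hE hl

theorem val_PA_mid {I : Inst ι L} {T B : Finset ι} {x y : ι × Bool} {s : QS (ι × Bool)} (H : QInv I T x y s)
    (hTB : T ⊆ B) (hk : s.k = []) (hm : s.mg = true) {n E : ℕ} (hE : 1 ≤ E) {w : ι × Bool} (hw : w ∈ PA I B s.l) :
    (((s.l.idxOf w + 1 : ℕ) : ℝ) - 6 * E) / (1.58 * n) ≤ nv (qval n E) s (w, flip w) := by
  unfold PA at hw
  rw [Finset.mem_filter] at hw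
  obtain ⟨-, P, Q, hl⟩ := hw
  exact slq12_split H.wf hk hm hE hl

/-- target on the split-off cycle -/
theorem val_k {I : Inst ι L} {T B : Finset ι} {x y : ι × Bool} {s : QS (ι × Bool)} (H : QInv I T x y s)
    (hTB : T ⊆ B) (hm : s.mg = true) (n E : ℕ) {w x' : ι × Bool} (hw : w ∈ s.k) (hB : w.1 ∉ B)
    (hx' : x' = flip w ∨ x' = oo I w) :
    nv (qval n E) s (w, x') = 1 ∧ nv qvalf s (w, x') = 1 := by
  obtain ⟨h1, h2, h3, h4⟩ := qinv_nb H hTB hB
  have hadj : s.Adj w x' := by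
    rcases hx' with rfl | rfl
    · exact h3
    · exact h4
  have hc := slq12_adj_k H.wf hw hadj
  have hk3 : 3 ≤ s.k.length := by
    rcases H.wf.k3 with h | h
    · rw [h] at hw
      simp at hw
    · exact h
  obtain ⟨R, hR⟩ := opn_exists (slq12_nodup H.wf).2.1 hk3 hc
  have hst : QStep s (w, x') ⟨R ++ s.l, [], s.J, s.mg⟩ := Or.inr (Or.inr (Or.inl ⟨R, hR, rfl⟩))
  rw [slq12_nv H.wf hst, slq12_nv H.wf hst]
  exact slq12_val1 n E rfl hm

/-- target on a cycle of `J`, nothing split off -/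
theorem val_J {I : Inst ι L} {T B : Finset ι} {x y : ι × Bool} {s : QS (ι × Bool)} (H : QInv I T x y s)
    (hTB : T ⊆ B) (hk : s.k = []) (n E : ℕ) {w x' : ι × Bool} (hw : w ∉ s.l) (hB : w.1 ∉ B)
    (hx' : x' = flip w ∨ x' = oo I w) :
    nv (qval n E) s (w, x') = 1 ∧ nv qvalf s (w, x') = 1 := by
  obtain ⟨h1, h2, h3, h4⟩ := qinv_nb H hTB hB
  have hadj : s.Adj w x' := by
    rcases hx' with rfl | rfl
    · exact h3
    · exact h4
  obtain ⟨c, hc, hcw⟩ : ∃ c ∈ s.J, CAdj c w x' := by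
    rcases hadj with h | h | h
    · exact absurd (ladj_mem h).1 hw
    · rw [hk] at h
      exact absurd h cadj_nil
    · exact h
  obtain ⟨J₁, J₂, hJ⟩ := List.append_of_mem hc
  obtain ⟨R, hR⟩ := opn_exists ((List.nodup_flatten.1 (slq12_nodup H.wf).2.2.1).1 c hc) (H.wf.J3 c hc) hcw
  have hst : QStep s (w, x') ⟨R ++ s.l, s.k, J₁ ++ J₂, true⟩ :=
    Or.inr (Or.inr (Or.inr ⟨J₁, c, J₂, R, hJ, hR, rfl⟩))
  rw [slq12_nv H.wf hst, slq12_nv H.wf hst]
  exact slq12_val1 n E hk rfl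

end Pool.Agent.H38H
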