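import Pool.Agent.Lib.H38H.Q.Q12

/-!
Chunk SLQ13 (M). The step inequality of Phase 2.

Proof. Put `n = card ι`, `b = B.card ≤ E`, `N = s.l.length`. Three cases (in all other cases `qval n E s = 0` and the sums are nonnegative).
(1) `s.k = []`, `s.mg = true`: `qval = 1`. Positions outside `s.l`: `2n - N` (`H.full`, `Nodup`), at least `2n - N - 4E` of them are in `gd I B` (`card_gd`, hypothesis by `qinv_nb`), each contributes 1 (`val_J`). Out type: `PA` contributes 1 each
(`val_PA_out`), at least `N/2 - 3E` (`card_PA`), `PB` contributes `S ≥ 0`, and `S ≥ m (m + 1 - 6E)/(1.58 n)` for `m = |PB| ≥ N/2 - 3E` (`val_PB_out`, `sum_PB`). The three sets are disjoint subsets of `gd I B`; use `outSum_ge`. By `num_keep` the sum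
is at least `1.58 n = 0.79 * 1 * (2n)`. Mid type: exchange `PA` and `PB`. Final: `(2n - N - 4E) + (N/2 - 3E) ≥ n - 7E ≥ 0.8 n` as `N ≤ 2n`.
(2) `s.k ≠ []`, `s.mg = true`: positions of `s.k` in `gd I B`: at least `|k| - 4E`, each contributes 1 (`val_k`). `0.79 * max(0, (|k| - 6E)/(1.58 n)) * 2n = max(0, |k| - 6E)` (note `|k| - 4E ≥ |k| - 6E` and the sum is nonnegative). Final: `0.4 <= 0.79`.
(3) `s.k = []`, `s.mg = false`: `N ≤ n` (`H.small`), so at least `n - 4E` positions outside `s.l` in `gd I B`, each contributes 1; `0.79 * 0.6 * 2n = 0.948 n ≤ n - 4E`; final: `0.4 * 0.6 * 2n ≤ n - 4E`.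
-/

set_option autoImplicit false

namespace Pool.Agent.H38H

open Classical

variable {ι : Type} [Fintype ι] {L : ℕ}

theorem slq13_hnb {I : Inst ι L} {T B : Finset ι} {x y : ι × Bool} {s : QS (ι × Bool)} (H : QInv I T x y s)
    (hTB : T ⊆ B) : ∀ w : ι × Bool, w.1 ∉ B → ∃ o, I.outer w = some o ∧ o ≠ flip w := by
  intro w hw
  obtain ⟨h1, h2, -⟩ := qinv_nb H hTB hw
  exact ⟨_, h1, h2⟩

theorem slq13_lnd {I : Inst ι L} {T : Finset ι} {x y : ι × Bool} {s : QS (ι × Bool)} (H : QInv I T x y s) :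
    s.l.Nodup ∧ s.k.Nodup := by
  have h := H.wf.nodup
  unfold QS.all at h
  rw [List.nodup_append, List.nodup_append] at h
  exact ⟨h.1.1, h.1.2.1⟩

theorem slq13_univ : (Finset.univ : Finset (ι × Bool)).card = 2 * Fintype.card ι := by
  rw [Finset.card_univ, Fintype.card_prod, Fintype.card_bool, mul_comm]

theorem slq13_len {I : Inst ι L} {T : Finset ι} {x y : ι × Bool} {s : QS (ι × Bool)} (H : QInv I T x y s) :
    s.l.length ≤ 2 * Fintype.card ι := by
  rw [← List.toFinset_card_of_nodup (slq13_lnd H).1, ← slq13_univ]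
  exact Finset.card_le_card (Finset.subset_univ _)

theorem slq13_off {I : Inst ι L} {T B : Finset ι} {x y : ι × Bool} {s : QS (ι × Bool)} (H : QInv I T x y s)
    (hTB : T ⊆ B) {E : ℕ} (hB : B.card ≤ E) :
    2 * Fintype.card ι ≤ ((gd I B).filter (fun w => w ∉ s.l)).card + s.l.length + 4 * E := by
  have h1 := card_gd (slq13_hnb H hTB) (Finset.univ.filter (fun w => w ∉ s.l))
  have h2 : (Finset.univ.filter (fun w => w ∉ s.l)) ∩ gd I B = (gd I B).filter (fun w => w ∉ s.l) := by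
    ext w
    simp only [Finset.mem_inter, Finset.mem_filter, Finset.mem_univ, true_and]
    tauto
  rw [h2] at h1
  have h3 : (Finset.univ.filter (fun w => w ∈ s.l)).card = s.l.length := by
    rw [← List.toFinset_card_of_nodup (slq13_lnd H).1]
    congr 1
    ext w
    simp
  have h4 := Finset.card_filter_add_card_filter_not (s := (Finset.univ : Finset (ι × Bool))) (fun w => w ∈ s.l)
  rw [h3, slq13_univ] at h4
  omega

theorem slq13_k {I : Inst ι L} {T B : Finset ι} {x y : ι × Bool} {s : QS (ι × Bool)} (H : QInv I T x y s)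
    (hTB : T ⊆ B) {E : ℕ} (hB : B.card ≤ E) :
    s.k.length ≤ ((gd I B).filter (fun w => w ∈ s.k)).card + 4 * E := by
  have h1 := card_gd (slq13_hnb H hTB) s.k.toFinset
  have h2 : s.k.toFinset ∩ gd I B = (gd I B).filter (fun w => w ∈ s.k) := by
    ext w
    simp only [Finset.mem_inter, Finset.mem_filter, List.mem_toFinset]
    tauto
  rw [h2, List.toFinset_card_of_nodup (slq13_lnd H).2] at h1
  omega

theorem slq13_gdB {I : Inst ι L} {B : Finset ι} {w : ι × Bool} (hw : w ∈ gd I B) : w.1 ∉ B := by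
  unfold gd at hw
  exact (Finset.mem_filter.1 hw).2.1

theorem slq13_PAl {I : Inst ι L} {B : Finset ι} {l : List (ι × Bool)} {w : ι × Bool} (hw : w ∈ PA I B l) :
    w ∈ gd I B ∧ w ∈ l := by
  unfold PA at hw
  obtain ⟨h1, P, Q, h2⟩ := Finset.mem_filter.1 hw
  refine ⟨h1, ?_⟩
  rw [h2]
  simp

theorem slq13_PBl {I : Inst ι L} {B : Finset ι} {l : List (ι × Bool)} {w : ι × Bool} (hw : w ∈ PB I B l) :
    w ∈ gd I B ∧ w ∈ l := by
  unfold PB at hw
  obtain ⟨h1, P, Q, h2⟩ := Finset.mem_filter.1 hw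
  refine ⟨h1, ?_⟩
  rw [h2]
  simp

/-- three disjoint parts of `gd` -/
theorem slq13_three {I : Inst ι L} {B : Finset ι} {l : List (ι × Bool)} (H : PathOK I B l) {g : ι × Bool → ℝ}
    (hg : ∀ w, 0 ≤ g w) :
    ∑ w ∈ (gd I B).filter (fun w => w ∉ l), g w + (∑ w ∈ PA I B l, g w + ∑ w ∈ PB I B l, g w) ≤
      ∑ w ∈ gd I B, g w := by
  rw [← Finset.sum_filter_add_sum_filter_not (gd I B) (fun w => w ∉ l) g]
  refine add_le_add le_rfl ?_
  rw [← Finset.sum_union (PA_PB_disjoint H)]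
  refine Finset.sum_le_sum_of_subset_of_nonneg ?_ (fun w _ _ => hg w)
  intro w hw
  rcases Finset.mem_union.1 hw with h | h
  · obtain ⟨h1, h2⟩ := slq13_PAl h
    exact Finset.mem_filter.2 ⟨h1, fun h3 => h3 h2⟩
  · obtain ⟨h1, h2⟩ := slq13_PBl h
    exact Finset.mem_filter.2 ⟨h1, fun h3 => h3 h2⟩

/-- the numerical conclusion in the main case; `X` is the keep set, `Y` the split set -/
theorem slq13_main {N O X E n : ℕ} {Y : Finset (ι × Bool)} {c : ι × Bool → ℕ} {g : ι × Bool → ℝ}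
    (hE : 1 ≤ E) (hn : 1000 * E ≤ n) (hN : N ≤ 2 * n) (hO : 2 * n ≤ O + N + 4 * E) (hX : N ≤ 2 * X + 6 * E)
    (hY : N ≤ 2 * Y.card + 6 * E) (hs : Y.card * (Y.card + 1) ≤ ∑ w ∈ Y, c w) (hg : ∀ w, 0 ≤ g w)
    (hc : ∀ w ∈ Y, (((c w : ℕ) : ℝ) - 6 * E) / (1.58 * n) ≤ g w) :
    0.79 * 1 * (2 * (n : ℝ)) ≤ O + (X + ∑ w ∈ Y, g w) := by
  have hEr : (1 : ℝ) ≤ E := by exact_mod_cast hE
  have hnr : 1000 * (E : ℝ) ≤ n := by exact_mod_cast hn
  have hNr : (N : ℝ) ≤ 2 * n := by exact_mod_cast hN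
  have hOr : 2 * (n : ℝ) ≤ O + N + 4 * E := by exact_mod_cast hO
  have hXr : (N : ℝ) ≤ 2 * X + 6 * E := by exact_mod_cast hX
  have hYr : (N : ℝ) ≤ 2 * Y.card + 6 * E := by exact_mod_cast hY
  have hsr : (Y.card : ℝ) * (Y.card + 1) ≤ ∑ w ∈ Y, (c w : ℝ) := by exact_mod_cast hs
  have hnp : (0 : ℝ) < 1.58 * n := by nlinarith
  have h1 : (Y.card : ℝ) * (Y.card + 1 - 6 * E) / (1.58 * n) ≤ ∑ w ∈ Y, g w := by
    refine le_trans ?_ (Finset.sum_le_sum hc)
    rw [← Finset.sum_div]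
    refine div_le_div_of_nonneg_right ?_ hnp.le
    rw [Finset.sum_sub_distrib, Finset.sum_const, nsmul_eq_mul]
    nlinarith
  have h2 := num_keep (n := n) (E := E) (N := N) (m := Y.card) (S := ∑ w ∈ Y, g w) hEr hnr (Nat.cast_nonneg N)
    hNr (by linarith) (Finset.sum_nonneg fun w _ => hg w) h1
  nlinarith

theorem slq13_sum_one {S : Finset (ι × Bool)} {g : ι × Bool → ℝ} (hg : ∀ w ∈ S, g w = 1) :
    ∑ w ∈ S, g w = (S.card : ℝ) := by
  rw [Finset.sum_congr rfl hg, Finset.sum_const, nsmul_eq_mul, mul_one]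

/-- the sum over `gd` is at least the number of elements where `g = 1` -/
theorem slq13_sub {G S : Finset (ι × Bool)} {g : ι × Bool → ℝ} (hS : S ⊆ G) (hg : ∀ w, 0 ≤ g w)
    (h1 : ∀ w ∈ S, g w = 1) : (S.card : ℝ) ≤ ∑ w ∈ G, g w := by
  rw [← slq13_sum_one h1]
  exact Finset.sum_le_sum_of_subset_of_nonneg hS (fun w _ _ => hg w)

/-- the two cases where counting targets with value 1 is enough -/
theorem slq13_rest {I : Inst ι L} {T B : Finset ι} {x y : ι × Bool} {s : QS (ι × Bool)} (H : QInv I T x y s)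
    (hTB : T ⊆ B) {E : ℕ} (hB : B.card ≤ E) (hE : 1 ≤ E) (hn : 1000 * E ≤ Fintype.card ι)
    (hc : ¬ (s.k = [] ∧ s.mg = true)) {g : ι × Bool → ℝ} (hg : ∀ w, 0 ≤ g w)
    (hk : s.mg = true → ∀ w ∈ s.k, w.1 ∉ B → g w = 1)
    (hJ : s.k = [] → ∀ w, w ∉ s.l → w.1 ∉ B → g w = 1) {lam : ℝ} (h0 : 0 ≤ lam) (h1 : lam ≤ 0.79) :
    lam * qval (Fintype.card ι) E s * (2 * (Fintype.card ι : ℝ)) ≤ ∑ w ∈ gd I B, g w := by
  have hEr : (1 : ℝ) ≤ E := by exact_mod_cast hE
  have hnr : 1000 * (E : ℝ) ≤ Fintype.card ι := by exact_mod_cast hn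
  have hnp : (0 : ℝ) < 1.58 * (Fintype.card ι : ℝ) := by nlinarith
  have hS0 : 0 ≤ ∑ w ∈ gd I B, g w := Finset.sum_nonneg fun w _ => hg w
  unfold qval
  by_cases hk0 : s.k = []
  · have hm : s.mg = false := by
      cases hmg : s.mg with
      | true => exact absurd ⟨hk0, hmg⟩ hc
      | false => rfl
    rw [if_pos hk0, hm, if_neg (by simp)]
    have h2 := slq13_off H hTB hB
    have h3 := H.small hm
    rw [hk0, List.length_nil, add_zero] at h3
    have h4 : ((((gd I B).filter (fun w => w ∉ s.l)).card : ℕ) : ℝ) ≤ ∑ w ∈ gd I B, g w :=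
      slq13_sub (Finset.filter_subset _ _) hg fun w hw =>
        hJ hk0 w (Finset.mem_filter.1 hw).2 (slq13_gdB (Finset.mem_filter.1 hw).1)
    have h2r : 2 * (Fintype.card ι : ℝ) ≤
        ((((gd I B).filter (fun w => w ∉ s.l)).card : ℕ) : ℝ) + s.l.length + 4 * E := by exact_mod_cast h2
    have h3r : (s.l.length : ℝ) ≤ Fintype.card ι := by exact_mod_cast h3
    nlinarith
  · rw [if_neg hk0]
    by_cases hm : s.mg = true
    · rw [if_pos hm]
      rcases le_total (((s.k.length : ℝ) - 6 * E) / (1.58 * (Fintype.card ι : ℝ))) 0 with h5 | h5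
      · rw [max_eq_left h5]
        simpa using hS0
      · rw [max_eq_right h5]
        have h6 : lam * (((s.k.length : ℝ) - 6 * E) / (1.58 * (Fintype.card ι : ℝ))) * (2 * (Fintype.card ι : ℝ)) ≤
            0.79 * (((s.k.length : ℝ) - 6 * E) / (1.58 * (Fintype.card ι : ℝ))) * (2 * (Fintype.card ι : ℝ)) := by
          have : (0 : ℝ) ≤ 2 * (Fintype.card ι : ℝ) := by positivity
          exact mul_le_mul_of_nonneg_right (mul_le_mul_of_nonneg_right h1 h5) this
        have h7 : 0.79 * (((s.k.length : ℝ) - 6 * E) / (1.58 * (Fintype.card ι : ℝ))) * (2 * (Fintype.card ι : ℝ)) =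
            (s.k.length : ℝ) - 6 * E := by
          have : (Fintype.card ι : ℝ) ≠ 0 := by
            intro h8
            rw [h8] at hnr
            linarith
          field_simp
          ring
        have h8 := slq13_k H hTB hB
        have h9 : ((((gd I B).filter (fun w => w ∈ s.k)).card : ℕ) : ℝ) ≤ ∑ w ∈ gd I B, g w :=
          slq13_sub (Finset.filter_subset _ _) hg fun w hw =>
            hk hm w (Finset.mem_filter.1 hw).2 (slq13_gdB (Finset.mem_filter.1 hw).1)
        have h8r : (s.k.length : ℝ) ≤ ((((gd I B).filter (fun w => w ∈ s.k)).card : ℕ) : ℝ) + 4 * E := by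
          exact_mod_cast h8
        linarith
    · rw [if_neg hm]
      simpa using hS0

theorem pot_out {I : Inst ι L} {T B : Finset ι} {x y : ι × Bool} {s : QS (ι × Bool)} (H : QInv I T x y s)
    (hTB : T ⊆ B) {E : ℕ} (hB : B.card ≤ E) (hE : 1 ≤ E) (hn : 1000 * E ≤ Fintype.card ι) :
    0.79 * qval (Fintype.card ι) E s * (2 * (Fintype.card ι : ℝ)) ≤
      outSum I B (nv (qval (Fintype.card ι) E) s) := by
  have hg : ∀ w : ι × Bool, 0 ≤ nv (qval (Fintype.card ι) E) s (w, oo I w) := fun w =>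
    nv_nonneg (qval_nonneg _ _) s _
  refine le_trans ?_ (outSum_ge I B (F := nv (qval (Fintype.card ι) E) s) (nv_nonneg (qval_nonneg _ _) s))
  by_cases hc : s.k = [] ∧ s.mg = true
  · obtain ⟨hk, hm⟩ := hc
    have hP := qinv_path H hTB
    have h1 : qval (Fintype.card ι) E s = 1 := by
      unfold qval
      rw [if_pos hk, if_pos hm]
    rw [h1]
    refine le_trans ?_ (slq13_three hP hg)
    rw [slq13_sum_one (S := (gd I B).filter (fun w => w ∉ s.l)) (fun w hw =>
        (val_J H hTB hk _ _ (Finset.mem_filter.1 hw).2 (slq13_gdB (Finset.mem_filter.1 hw).1) (Or.inr rfl)).1),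
      slq13_sum_one (S := PA I B s.l) (fun w hw => (val_PA_out H hTB hk hm _ _ hw).1)]
    exact slq13_main (c := fun w => s.l.idxOf w + 1) hE hn (slq13_len H) (slq13_off H hTB hB)
      ((card_PA hP).trans (by omega)) ((card_PB hP).trans (by omega)) (sum_PB hP) hg
      (fun w hw => val_PB_out H hTB hk hm hE hw)
  · exact slq13_rest H hTB hB hE hn hc hg
      (fun hm w hw hwB => (val_k H hTB hm _ _ hw hwB (Or.inr rfl)).1)
      (fun hk w hw hwB => (val_J H hTB hk _ _ hw hwB (Or.inr rfl)).1) (by norm_num) le_rfl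

theorem pot_mid {I : Inst ι L} {T B : Finset ι} {x y : ι × Bool} {s : QS (ι × Bool)} (H : QInv I T x y s)
    (hTB : T ⊆ B) {E : ℕ} (hB : B.card ≤ E) (hE : 1 ≤ E) (hn : 1000 * E ≤ Fintype.card ι) :
    0.79 * qval (Fintype.card ι) E s * (2 * (Fintype.card ι : ℝ)) ≤
      midSum B (nv (qval (Fintype.card ι) E) s) := by
  have hg : ∀ w : ι × Bool, 0 ≤ nv (qval (Fintype.card ι) E) s (w, flip w) := fun w =>
    nv_nonneg (qval_nonneg _ _) s _
  refine le_trans ?_ (midSum_ge I B (F := nv (qval (Fintype.card ι) E) s) (nv_nonneg (qval_nonneg _ _) s))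
  by_cases hc : s.k = [] ∧ s.mg = true
  · obtain ⟨hk, hm⟩ := hc
    have hP := qinv_path H hTB
    have h1 : qval (Fintype.card ι) E s = 1 := by
      unfold qval
      rw [if_pos hk, if_pos hm]
    rw [h1]
    refine le_trans ?_ (slq13_three hP hg)
    rw [slq13_sum_one (S := (gd I B).filter (fun w => w ∉ s.l)) (fun w hw =>
        (val_J H hTB hk _ _ (Finset.mem_filter.1 hw).2 (slq13_gdB (Finset.mem_filter.1 hw).1) (Or.inl rfl)).1),
      slq13_sum_one (S := PB I B s.l) (fun w hw => val_PB_mid H hTB hk hm _ _ hw), add_comm (∑ w ∈ PA I B s.l, _)]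
    exact slq13_main (c := fun w => s.l.idxOf w + 1) hE hn (slq13_len H) (slq13_off H hTB hB)
      ((card_PB hP).trans (by omega)) ((card_PA hP).trans (by omega)) (sum_PA hP) hg
      (fun w hw => val_PA_mid H hTB hk hm hE hw)
  · exact slq13_rest H hTB hB hE hn hc hg
      (fun hm w hw hwB => (val_k H hTB hm _ _ hw hwB (Or.inl rfl)).1)
      (fun hk w hw hwB => (val_J H hTB hk _ _ hw hwB (Or.inl rfl)).1) (by norm_num) le_rfl

theorem pot_fin {I : Inst ι L} {T B : Finset ι} {x y : ι × Bool} {s : QS (ι × Bool)} (H : QInv I T x y s)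
    (hTB : T ⊆ B) {E : ℕ} (hB : B.card ≤ E) (hE : 1 ≤ E) (hn : 1000 * E ≤ Fintype.card ι) :
    0.4 * qval (Fintype.card ι) E s * (2 * (Fintype.card ι : ℝ)) ≤ outSum I B (nv qvalf s) := by
  have hg : ∀ w : ι × Bool, 0 ≤ nv qvalf s (w, oo I w) := fun w => nv_nonneg qvalf_nonneg s _
  refine le_trans ?_ (outSum_ge I B (F := nv qvalf s) (nv_nonneg qvalf_nonneg s))
  by_cases hc : s.k = [] ∧ s.mg = true
  · obtain ⟨hk, hm⟩ := hc
    have hP := qinv_path H hTB
    have h1 : qval (Fintype.card ι) E s = 1 := by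
      unfold qval
      rw [if_pos hk, if_pos hm]
    rw [h1]
    refine le_trans ?_ (slq13_three hP hg)
    rw [slq13_sum_one (S := (gd I B).filter (fun w => w ∉ s.l)) (fun w hw =>
        (val_J H hTB hk 0 0 (Finset.mem_filter.1 hw).2 (slq13_gdB (Finset.mem_filter.1 hw).1) (Or.inr rfl)).2),
      slq13_sum_one (S := PA I B s.l) (fun w hw => (val_PA_out H hTB hk hm 0 0 hw).2)]
    have h2 := slq13_off H hTB hB
    have h3 : s.l.length ≤ 2 * (PA I B s.l).card + 6 * E := (card_PA hP).trans (by omega)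
    have h4 := slq13_len H
    have h5 : 0 ≤ ∑ w ∈ PB I B s.l, nv qvalf s (w, oo I w) := Finset.sum_nonneg fun w _ => hg w
    have h2r : 2 * (Fintype.card ι : ℝ) ≤
        ((((gd I B).filter (fun w => w ∉ s.l)).card : ℕ) : ℝ) + s.l.length + 4 * E := by exact_mod_cast h2
    have h3r : (s.l.length : ℝ) ≤ 2 * (PA I B s.l).card + 6 * E := by exact_mod_cast h3
    have h4r : (s.l.length : ℝ) ≤ 2 * Fintype.card ι := by exact_mod_cast h4
    have hEr : (1 : ℝ) ≤ E := by exact_mod_cast hE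
    have hnr : 1000 * (E : ℝ) ≤ Fintype.card ι := by exact_mod_cast hn
    linarith
  · exact slq13_rest H hTB hB hE hn hc hg
      (fun hm w hw hwB => (val_k H hTB hm 0 0 hw hwB (Or.inr rfl)).2)
      (fun hk w hw hwB => (val_J H hTB hk 0 0 hw hwB (Or.inr rfl)).2) (by norm_num) (by norm_num)

end Pool.Agent.H38H
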