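import Pool.Agent.Lib.H38H.Q.Q13

/-!
Chunk SLQ14 (M). The two-sided potential.

Proof. `qV` and `qVf` are nonnegative, `qVf ≤ 1`. `xout`, `xmid`: if `runX s0 mx = none` then `qV = 0` and the sum is nonnegative (`outSum_nonneg`, `midSum_nonneg`). Otherwise `runX s0 mx = some s`, `QInv I B (endOf x0 mx) y0 s` by `run_inv`
with `my = []`, `T = B`, and `qV (a :: mx) [] = nv (qval ..) s a` by unfolding `runX`, `runY`; use `pot_out`, `pot_mid` with `T = B`. `yout`, `ymid`, `youtf`: `runY (runX s0 mx) my = some s`: `qV mx (a :: my) = ((nxt (some s.rev) a).map QS.rev).elim 0 qval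
= nv (qval ..) s.rev a` because `qval s.rev = qval s` (`rev` changes only `l`); `QInv.rev` and `pot_out`, `pot_mid`, `pot_fin` for `s.rev`.
-/

set_option autoImplicit false

namespace Pool.Agent.H38H

open Classical

variable {ι : Type} [Fintype ι] {L : ℕ}

theorem slq14_rev (n E : ℕ) (o : Option (QS (ι × Bool))) :
    (o.map QS.rev).elim 0 (qval n E) = o.elim 0 (qval n E) := by
  cases o with
  | none => rfl
  | some s => rfl

theorem slq14_revf (o : Option (QS (ι × Bool))) :
    (o.map QS.rev).elim 0 qvalf = o.elim 0 qvalf := by
  cases o with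
  | none => rfl
  | some s => rfl

theorem slq14_nn (E : ℕ) (s0 : QS (ι × Bool)) (mx my : List (Mv ι)) : 0 ≤ qV E s0 mx my := by
  unfold qV
  cases runY (runX s0 mx) my with
  | none => exact le_refl _
  | some s => exact qval_nonneg _ _ s

theorem slq14_nnf (s0 : QS (ι × Bool)) (mx my : List (Mv ι)) : 0 ≤ qVf s0 mx my := by
  unfold qVf
  cases runY (runX s0 mx) my with
  | none => exact le_refl _
  | some s => exact qvalf_nonneg s

theorem slq14_x {E : ℕ} {s0 s : QS (ι × Bool)} {mx : List (Mv ι)} (h : runX s0 mx = some s) :
    (fun a => qV E s0 (a :: mx) []) = nv (qval (Fintype.card ι) E) s := by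
  funext a
  unfold qV nv
  simp only [runX, runY, h]

theorem slq14_y {E : ℕ} {s0 s : QS (ι × Bool)} {mx my : List (Mv ι)}
    (h : runY (runX s0 mx) my = some s) :
    (fun a => qV E s0 mx (a :: my)) = nv (qval (Fintype.card ι) E) s.rev := by
  funext a
  unfold qV nv
  simp only [runY, h, Option.map_some]
  exact slq14_rev _ _ _

theorem slq14_yf {s0 s : QS (ι × Bool)} {mx my : List (Mv ι)}
    (h : runY (runX s0 mx) my = some s) :
    (fun a => qVf s0 mx (a :: my)) = nv qvalf s.rev := by
  funext a
  unfold qVf nv
  simp only [runY, h, Option.map_some]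
  exact slq14_revf _

theorem pot2 {I : Inst ι L} {K : Finset ι} {x0 y0 : ι × Bool} {s0 : QS (ι × Bool)}
    (H0 : QInv I (insert x0.1 (insert y0.1 K)) x0 y0 s0) {E : ℕ} (hE : 1 ≤ E)
    (hn : 1000 * E ≤ Fintype.card ι) : Pot2 I K x0 y0 E 0.79 0.4 (qV E s0) (qVf s0) := by
  refine ⟨slq14_nn E s0, slq14_nnf s0, ?_, ?_, ?_, ?_, ?_, ?_⟩
  · intro mx my
    unfold qVf
    cases runY (runX s0 mx) my with
    | none => exact zero_le_one
    | some s =>
      simp only [Option.elim_some]
      unfold qvalf
      split_ifs
      · exact le_refl _
      · exact zero_le_one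
  · intro mx hc hy B hK hm hyB hB
    cases hr : runX s0 mx with
    | none =>
      have e : qV E s0 mx [] = 0 := by
        unfold qV
        simp only [runY, hr, Option.elim_none]
      rw [e, mul_zero, zero_mul]
      exact outSum_nonneg I B fun a => slq14_nn E s0 _ _
    | some s =>
      have e : qV E s0 mx [] = qval (Fintype.card ι) E s := by
        unfold qV
        simp only [runY, hr, Option.elim_some]
      have H := run_inv H0 (mx := mx) (my := []) (T := B) (s := s) (by simp only [runY, hr]) hK (by
        intro p hp
        rcases List.mem_append.1 hp with h1 | h1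
        · exact hm p h1
        · rcases List.mem_cons.1 h1 with h2 | h2
          · rw [h2]
            exact hyB
          · cases h2)
      rw [e, slq14_x hr]
      exact pot_out H (Finset.Subset.refl B) hB hE hn
  · intro mx hc hy B hK hm hyB hB
    cases hr : runX s0 mx with
    | none =>
      have e : qV E s0 mx [] = 0 := by
        unfold qV
        simp only [runY, hr, Option.elim_none]
      rw [e, mul_zero, zero_mul]
      exact midSum_nonneg B fun a => slq14_nn E s0 _ _
    | some s =>
      have e : qV E s0 mx [] = qval (Fintype.card ι) E s := by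
        unfold qV
        simp only [runY, hr, Option.elim_some]
      have H := run_inv H0 (mx := mx) (my := []) (T := B) (s := s) (by simp only [runY, hr]) hK (by
        intro p hp
        rcases List.mem_append.1 hp with h1 | h1
        · exact hm p h1
        · rcases List.mem_cons.1 h1 with h2 | h2
          · rw [h2]
            exact hyB
          · cases h2)
      rw [e, slq14_x hr]
      exact pot_mid H (Finset.Subset.refl B) hB hE hn
  · intro mx my hc hc' hnd B hK hm hB
    cases hr : runY (runX s0 mx) my with
    | none =>
      have e : qV E s0 mx my = 0 := by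
        unfold qV
        simp only [hr, Option.elim_none]
      rw [e, mul_zero, zero_mul]
      exact outSum_nonneg I B fun a => slq14_nn E s0 _ _
    | some s =>
      have e : qV E s0 mx my = qval (Fintype.card ι) E s.rev := by
        unfold qV
        simp only [hr, Option.elim_some]
        rfl
      have H := run_inv H0 hr hK hm
      rw [e, slq14_y hr]
      exact pot_out H.rev (Finset.Subset.refl B) hB hE hn
  · intro mx my hc hc' hnd B hK hm hB
    cases hr : runY (runX s0 mx) my with
    | none =>
      have e : qV E s0 mx my = 0 := by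
        unfold qV
        simp only [hr, Option.elim_none]
      rw [e, mul_zero, zero_mul]
      exact midSum_nonneg B fun a => slq14_nn E s0 _ _
    | some s =>
      have e : qV E s0 mx my = qval (Fintype.card ι) E s.rev := by
        unfold qV
        simp only [hr, Option.elim_some]
        rfl
      have H := run_inv H0 hr hK hm
      rw [e, slq14_y hr]
      exact pot_mid H.rev (Finset.Subset.refl B) hB hE hn
  · intro mx my hc hc' hnd B hK hm hB
    cases hr : runY (runX s0 mx) my with
    | none =>
      have e : qV E s0 mx my = 0 := by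
        unfold qV
        simp only [hr, Option.elim_none]
      rw [e, mul_zero, zero_mul]
      exact outSum_nonneg I B fun a => slq14_nnf s0 _ _
    | some s =>
      have e : qV E s0 mx my = qval (Fintype.card ι) E s.rev := by
        unfold qV
        simp only [hr, Option.elim_some]
        rfl
      have H := run_inv H0 hr hK hm
      rw [e, slq14_yf hr]
      exact pot_fin H.rev (Finset.Subset.refl B) hB hE hn

theorem qV_init {E : ℕ} {s0 : QS (ι × Bool)} (hk : s0.k = []) (hm : s0.mg = false) : qV E s0 [] [] = 0.6 := by
  unfold qV
  simp only [runX, runY, Option.elim_some]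
  unfold qval
  rw [if_pos hk, if_neg (by rw [hm]; exact Bool.false_ne_true)]

theorem qVf_pos {s0 : QS (ι × Bool)} {mx my : List (Mv ι)} (h : 0 < qVf s0 mx my) :
    ∃ s, runY (runX s0 mx) my = some s ∧ s.k = [] ∧ s.mg = true := by
  unfold qVf at h
  cases hr : runY (runX s0 mx) my with
  | none =>
    rw [hr] at h
    exact absurd h (lt_irrefl _)
  | some s =>
    rw [hr] at h
    simp only [Option.elim_some] at h
    unfold qvalf at h
    split_ifs at h with h1
    · exact ⟨s, rfl, h1.1, h1.2⟩
    · exact absurd h (lt_irrefl _)

end Pool.Agent.H38H
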