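import Pool.Agent.Lib.H38H.Q.Q2

/-!
Chunk SLQ3 (M). Opening a cyclic list.

Proofs. With the notation of `Opn`: `R` is `Q ++ P ++ [w]` or `(Q ++ P).reverse ++ [w]`. `opn_perm`, `opn_ends`, `opn_mem` by inspection (`opn_mem`: in the first case `x'` is the head of `Q`, or `Q = []` and `x'` is
the head of `c`, whose last element is `w`; similarly in the second case). `opn_adj`: `CAdj c` is `CAdj (Q ++ P ++ [w])` by `cadj_rotate` (move `P ++ [w]` to the end), in the second case also `cadj_reverse` and `cadj_rotate`, so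
`CAdj c a b ↔ CAdj R a b ↔ LAdj R a b ∨ {a,b} = {x', w}` as `Ends R x' w`; and `LAdj R x' w` is impossible: `R.Nodup` has at least 3 elements, `x'` is its head and `w` its last
element. `opn_exists`: `c = P ++ w :: Q`; by `cadj_rotate` `CAdj ((Q ++ P) ++ [w]) w x'`, so `x'` is the last or the first element of `Q ++ P`. `opn_unique`: `split_unique`, and `Q ++ P = x' :: U = U' ++ [x']` is
impossible since `Q ++ P` has at least two elements and is `Nodup`.
-/

set_option autoImplicit false

namespace Pool.Agent.H38H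

open Classical

variable {α : Type}

/-- the two forms of the opened list -/
theorem slq3_form {c R : List α} {w x' : α} (h : Opn c w x' R) : ∃ P Q : List α, c = P ++ w :: Q ∧
    (((Q ++ P).head? = some x' ∧ R = (Q ++ P) ++ [w]) ∨
      ((Q ++ P).getLast? = some x' ∧ R = (Q ++ P).reverse ++ [w])) := by
  obtain ⟨P, Q, U, hc, h1 | h1⟩ := h
  · exact ⟨P, Q, hc, Or.inl ⟨by rw [h1.1]; rfl, by rw [h1.1]; exact h1.2⟩⟩
  · refine ⟨P, Q, hc, Or.inr ⟨?_, by rw [h1.1]; exact h1.2⟩⟩
    rw [h1.1, List.getLast?_append_of_ne_nil _ (by simp)]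
    rfl

theorem slq3_perm0 (P Q : List α) (w : α) : ((Q ++ P) ++ [w]).Perm (P ++ w :: Q) := by
  have h1 : (P ++ w :: Q).Perm ((w :: Q) ++ P) := List.perm_append_comm
  have h2 : ((Q ++ P) ++ [w]).Perm ([w] ++ (Q ++ P)) := List.perm_append_comm
  exact h2.trans h1.symm

theorem opn_perm {c R : List α} {w x' : α} (h : Opn c w x' R) : R.Perm c := by
  obtain ⟨P, Q, rfl, ⟨-, rfl⟩ | ⟨-, rfl⟩⟩ := slq3_form h
  · exact slq3_perm0 P Q w
  · exact ((List.reverse_perm (Q ++ P)).append_right [w]).trans (slq3_perm0 P Q w)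

theorem slq3_ne {l : List α} {x : α} (h : l.head? = some x) : l ≠ [] := by
  rintro rfl
  simp at h

theorem opn_ends {c R : List α} {w x' : α} (h : Opn c w x' R) : Ends R x' w := by
  obtain ⟨P, Q, rfl, ⟨h1, rfl⟩ | ⟨h1, rfl⟩⟩ := slq3_form h
  · refine ⟨?_, ?_⟩
    · rw [slq2_head _ _ (slq3_ne h1)]
      exact h1
    · rw [List.getLast?_append_of_ne_nil _ (by simp)]
      rfl
  · have h2 : (Q ++ P).reverse.head? = some x' := by rw [List.head?_reverse]; exact h1
    refine ⟨?_, ?_⟩
    · rw [slq2_head _ _ (slq3_ne h2)]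
      exact h2
    · rw [List.getLast?_append_of_ne_nil _ (by simp)]
      rfl

/-- cyclic adjacency in c is the one in R -/
theorem slq3_cadj {c R : List α} {w x' : α} (h : Opn c w x' R) (a b : α) : CAdj c a b ↔ CAdj R a b := by
  obtain ⟨P, Q, rfl, h1⟩ := slq3_form h
  have e1 : CAdj (P ++ w :: Q) a b ↔ CAdj ((Q ++ P) ++ [w]) a b := by
    have h2 : P ++ w :: Q = (P ++ [w]) ++ Q := by simp
    have h3 : (Q ++ P) ++ [w] = Q ++ (P ++ [w]) := by simp
    rw [h2, h3]
    exact cadj_rotate
  rw [e1]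
  rcases h1 with ⟨-, rfl⟩ | ⟨-, rfl⟩
  · exact Iff.rfl
  · have h4 : ((Q ++ P).reverse ++ [w]).reverse = [w] ++ (Q ++ P) := by simp
    rw [← cadj_reverse (c := (Q ++ P).reverse ++ [w]), h4]
    exact cadj_rotate

theorem opn_mem {c R : List α} {w x' : α} (h : Opn c w x' R) : w ∈ c ∧ x' ∈ c ∧ CAdj c w x' := by
  have h1 := opn_ends h
  have h2 := ends_mem h1
  have h3 := opn_perm h
  exact ⟨h3.mem_iff.1 h2.2, h3.mem_iff.1 h2.1, (slq3_cadj h w x').2 (Or.inr (Or.inr h1))⟩

/-- the first and the last element of a list with at least three elements are not adjacent -/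
theorem slq3_not {R : List α} {x w : α} (hn : R.Nodup) (h3 : 3 ≤ R.length) (h : Ends R x w) :
    ¬ LAdj R x w := by
  intro hl
  obtain ⟨h1, h2⟩ := h
  cases R with
  | nil => simp at h3
  | cons y R' =>
    rw [List.head?_cons, Option.some.injEq] at h1
    subst h1
    have h5 := (ladj_at (P := []) (Q := R') (v := y) (a := w) hn).1 hl
    rw [List.getLast?_nil] at h5
    have h6 : R'.head? = some w := h5.resolve_right (by simp)
    cases R' with
    | nil => simp at h6
    | cons z R'' =>
      rw [List.head?_cons, Option.some.injEq] at h6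
      subst h6
      cases R'' with
      | nil => simp at h3
      | cons u R3 =>
        have h7 : (y :: z :: u :: R3).getLast? = (u :: R3).getLast? := by
          have e : y :: z :: u :: R3 = [y, z] ++ (u :: R3) := rfl
          rw [e, List.getLast?_append_of_ne_nil _ (by simp)]
        rw [h7] at h2
        have h8 : z ∈ u :: R3 := List.mem_of_getLast? h2
        rw [List.nodup_cons, List.nodup_cons] at hn
        exact hn.2.1 h8

theorem opn_adj {c R : List α} {w x' : α} (hn : c.Nodup) (h3 : 3 ≤ c.length) (h : Opn c w x' R) :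
    ∀ a b, LAdj R a b ↔ CAdj c a b ∧ ¬ (a = w ∧ b = x') ∧ ¬ (a = x' ∧ b = w) := by
  intro a b
  have hp := opn_perm h
  have he := opn_ends h
  have hnR : R.Nodup := hp.nodup_iff.2 hn
  have h3R : 3 ≤ R.length := by rw [hp.length_eq]; exact h3
  have h4 := slq3_not hnR h3R he
  rw [slq3_cadj h a b]
  have h5 : ∀ a b, Ends R a b ↔ x' = a ∧ w = b := by
    intro a b
    unfold Ends
    rw [he.1, he.2, Option.some.injEq, Option.some.injEq]
  unfold CAdj
  rw [h5, h5]
  constructor
  · intro hl
    refine ⟨Or.inl hl, ?_, ?_⟩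
    · rintro ⟨rfl, rfl⟩
      exact h4 (ladj_symm hl)
    · rintro ⟨rfl, rfl⟩
      exact h4 hl
  · rintro ⟨hl | hl | hl, h6, h7⟩
    · exact hl
    · exact absurd ⟨hl.1.symm, hl.2.symm⟩ h7
    · exact absurd ⟨hl.2.symm, hl.1.symm⟩ h6

theorem opn_exists {c : List α} {w x' : α} (hn : c.Nodup) (h3 : 3 ≤ c.length) (h : CAdj c w x') :
    ∃ R, Opn c w x' R := by
  obtain ⟨P, Q, rfl⟩ := List.append_of_mem (cadj_mem h).1
  have hn' : (w :: (Q ++ P)).Nodup := by
    have h1 : (P ++ w :: Q).Perm ((w :: Q) ++ P) := List.perm_append_comm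
    exact h1.nodup_iff.1 hn
  have hrot : CAdj (w :: (Q ++ P)) w x' := (cadj_rotate (P := P) (Q := w :: Q)).1 h
  have hlen : 2 ≤ (Q ++ P).length := by
    have h1 : (P ++ w :: Q).length = (Q ++ P).length + 1 := by
      simp only [List.length_append, List.length_cons]
      omega
    omega
  have hne : Q ++ P ≠ [] := by
    intro h0
    rw [h0] at hlen
    simp at hlen
  have hw : w ∉ Q ++ P := (List.nodup_cons.1 hn').1
  have key : (Q ++ P).head? = some x' ∨ (Q ++ P).getLast? = some x' := by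
    have hlast : ∀ z, (w :: (Q ++ P)).getLast? = some z ↔ (Q ++ P).getLast? = some z := by
      intro z
      have e : w :: (Q ++ P) = [w] ++ (Q ++ P) := rfl
      rw [e, List.getLast?_append_of_ne_nil _ hne]
    rcases hrot with h1 | h1 | h1
    · have h5 := (ladj_at (P := []) (Q := Q ++ P) (v := w) (a := x') hn').1 h1
      rw [List.getLast?_nil] at h5
      exact Or.inl (h5.resolve_right (by simp))
    · exact Or.inr ((hlast x').1 h1.2)
    · exact absurd (List.mem_of_getLast? ((hlast w).1 h1.2)) hw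
  rcases key with h1 | h1
  · obtain ⟨U, hU⟩ : ∃ U, Q ++ P = x' :: U := by
      cases hQP : Q ++ P with
      | nil => exact absurd hQP hne
      | cons y U =>
        rw [hQP, List.head?_cons, Option.some.injEq] at h1
        exact ⟨U, by rw [h1]⟩
    exact ⟨_, P, Q, U, rfl, Or.inl ⟨hU, rfl⟩⟩
  · obtain ⟨U, hU⟩ : ∃ U, Q ++ P = U ++ [x'] := by
      rcases List.eq_nil_or_concat (Q ++ P) with h0 | ⟨U, y, h0⟩
      · exact absurd h0 hne
      · rw [List.concat_eq_append] at h0
        rw [h0, List.getLast?_append_of_ne_nil _ (by simp)] at h1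
        have h2 : y = x' := by simpa using h1
        exact ⟨U, by rw [h0, h2]⟩
    exact ⟨_, P, Q, U, rfl, Or.inr ⟨hU, rfl⟩⟩

theorem opn_unique {c R R' : List α} {w x' : α} (hn : c.Nodup) (h3 : 3 ≤ c.length) (h : Opn c w x' R)
    (h' : Opn c w x' R') : R = R' := by
  obtain ⟨P, Q, hc, h1⟩ := slq3_form h
  obtain ⟨P', Q', hc', h2⟩ := slq3_form h'
  obtain ⟨rfl, rfl⟩ := split_unique hn hc hc'
  have hlen : 2 ≤ (Q ++ P).length := by
    have h4 : c.length = (Q ++ P).length + 1 := by
      rw [hc]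
      simp only [List.length_append, List.length_cons]
      omega
    omega
  have hnQ : (Q ++ P).Nodup := by
    have h4 : (P ++ w :: Q).Perm ((w :: Q) ++ P) := List.perm_append_comm
    rw [hc] at hn
    exact (List.nodup_cons.1 (h4.nodup_iff.1 hn)).2
  have hmix : ¬ ((Q ++ P).head? = some x' ∧ (Q ++ P).getLast? = some x') := by
    rintro ⟨h5, h6⟩
    cases hQP : Q ++ P with
    | nil =>
      rw [hQP] at hlen
      simp at hlen
    | cons y U =>
      rw [hQP] at h5 h6 hlen hnQ
      rw [List.head?_cons, Option.some.injEq] at h5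
      subst h5
      have hU : U ≠ [] := by
        rintro rfl
        simp at hlen
      have e : y :: U = [y] ++ U := rfl
      rw [e, List.getLast?_append_of_ne_nil _ hU] at h6
      exact (List.nodup_cons.1 hnQ).1 (List.mem_of_getLast? h6)
  rcases h1 with ⟨h5, rfl⟩ | ⟨h5, rfl⟩ <;> rcases h2 with ⟨h6, rfl⟩ | ⟨h6, rfl⟩
  · rfl
  · exact absurd ⟨h5, h6⟩ hmix
  · exact absurd ⟨h6, h5⟩ hmix
  · rfl

end Pool.Agent.H38H
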