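import Pool.Agent.Lib.H38H.Q.D
import Pool.Agent.Lib.H38H.Q.Q3

/-!
Chunk SLQ15 (M). The state at the beginning of an attempt.

Proof. All lists of `cs` are nonempty and pairwise disjoint, the total length is `2n`, `n = card ι` (`H.full`, `H.nodup`). Let `c` be a list of `cs` of minimal length, `cs = J₁ ++ c :: J₂`. Since `cs` has at least two lists, `2 |c| ≤ 2n`, `|c| ≤ n`. A fresh edge: among the
`|c| ≥ l0 > 4 |K|` elements `x` of `c` at most `2|K|` have `x.1 ∈ K`, and at most `2|K|` have `x.1 ∉ K` and outer partner in `K` (`outer` is injective by `outer_symm`). Take `x0 ∈ c` of neither kind; by `H.nb` `I.outer x0 = some y0`, `y0 ≠ flip x0`, `CAdj c' x0 y0` for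
a list `c'` of `cs`, which is `c` as `x0 ∈ c'` (`cadj_mem`, `Nodup`); `y0.1 ∉ K`; `y0 ≠ x0` (`outer_ne`), so `y0.1 ≠ x0.1`. Open `c`: `Opn c y0 x0 R` by `opn_exists` (a list from `x0` to `y0`). `s0 = ⟨R, [], J₁ ++ J₂, false⟩`.
Adjacency: `opn_adj` for `c`, the other lists do not contain `x0`. `WF`: `opn_perm`. `nb`: for `v.1` outside the set, `v ≠ x0, y0`, the adjacencies of `v` do not change. `small`: `|R| = |c| ≤ n`.
-/

set_option autoImplicit false

namespace Pool.Agent.H38H

open Classical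

variable {ι : Type} [Fintype ι] {L : ℕ}

theorem slq15_nodup {cs : List (List (ι × Bool))} (h : cs.flatten.Nodup) {c : List (ι × Bool)}
    (hc : c ∈ cs) : c.Nodup := (List.nodup_flatten.1 h).1 c hc

theorem slq15_eq {cs : List (List (ι × Bool))} (h : cs.flatten.Nodup) {c c' : List (ι × Bool)}
    (hc : c ∈ cs) (hc' : c' ∈ cs) {x : ι × Bool} (hx : x ∈ c) (hx' : x ∈ c') : c' = c := by
  by_contra hne
  have h1 := (List.nodup_flatten.1 h).2
  have hsym : Std.Symm (List.Disjoint (α := ι × Bool)) := ⟨fun _ _ h x hx hx' => h hx' hx⟩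
  have h2 : List.Disjoint c' c := h1.forall hc' hc hne
  exact h2 hx' hx

theorem slq15_card (K : Finset ι) :
    (Finset.univ.filter (fun x : ι × Bool => x.1 ∈ K)).card ≤ 2 * K.card := by
  have e : Finset.univ.filter (fun x : ι × Bool => x.1 ∈ K) = K ×ˢ Finset.univ := by
    ext x
    simp
  rw [e, Finset.card_product, Finset.card_univ, Fintype.card_bool, mul_comm]

theorem slq15_card2 (I : Inst ι L) (K : Finset ι) :
    (Finset.univ.filter (fun x : ι × Bool => ∃ y, I.outer x = some y ∧ y.1 ∈ K)).card ≤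
      2 * K.card := by
  refine le_trans (Finset.card_le_card_of_injOn (fun x => (I.outer x).getD x) ?_ ?_) (slq15_card K)
  · intro x hx
    obtain ⟨y, hy, hyK⟩ := (Finset.mem_filter.1 hx).2
    simp only [hy, Option.getD_some]
    exact Finset.mem_coe.2 (Finset.mem_filter.2 ⟨Finset.mem_univ _, hyK⟩)
  · intro x hx x' hx' he
    obtain ⟨y, hy, -⟩ := (Finset.mem_filter.1 (Finset.mem_coe.1 hx)).2
    obtain ⟨y', hy', -⟩ := (Finset.mem_filter.1 (Finset.mem_coe.1 hx')).2
    simp only [hy, hy', Option.getD_some] at he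
    have h1 := I.outer_symm x y hy
    have h2 := I.outer_symm x' y' hy'
    rw [he, h2] at h1
    exact (Option.some.inj h1).symm

/-- a list with few elements in `K` contains a fresh outer edge -/
theorem fresh_edge {I : Inst ι L} {h : SB ι} {K : Finset ι} {l0 : ℕ} {cs : List (List (ι × Bool))}
    (H : CSt I h K l0 cs) {c : List (ι × Bool)} (hc : c ∈ cs) (hl : 4 * K.card < c.length) :
    ∃ x0 y0 : ι × Bool, x0 ∈ c ∧ I.outer x0 = some y0 ∧ x0.1 ∉ K ∧ y0.1 ∉ K ∧ x0.1 ≠ y0.1 ∧ CAdj c x0 y0 := by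
  have h1 : ∃ x ∈ c.toFinset, x ∉ Finset.univ.filter (fun x : ι × Bool => x.1 ∈ K) ∪
      Finset.univ.filter (fun x : ι × Bool => ∃ y, I.outer x = some y ∧ y.1 ∈ K) := by
    by_contra hcon
    push Not at hcon
    have h2 := Finset.card_le_card (s := c.toFinset) hcon
    have h3 := Finset.card_union_le (Finset.univ.filter (fun x : ι × Bool => x.1 ∈ K))
      (Finset.univ.filter (fun x : ι × Bool => ∃ y, I.outer x = some y ∧ y.1 ∈ K))
    have h4 := slq15_card K
    have h5 := slq15_card2 I K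
    rw [List.toFinset_card_of_nodup (slq15_nodup H.nodup hc)] at h2
    omega
  obtain ⟨x0, hx0, hx1⟩ := h1
  rw [List.mem_toFinset] at hx0
  rw [Finset.mem_union, not_or] at hx1
  have hxK : x0.1 ∉ K := fun h => hx1.1 (Finset.mem_filter.2 ⟨Finset.mem_univ _, h⟩)
  obtain ⟨o, ho, hof, -, c', hc', hadj⟩ := H.nb x0 hxK
  have hoK : o.1 ∉ K := fun h => hx1.2 (Finset.mem_filter.2 ⟨Finset.mem_univ _, o, ho, h⟩)
  refine ⟨x0, o, hx0, ho, hxK, hoK, ?_, ?_⟩
  · intro he
    rcases eq_or_flip he.symm with h2 | h2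
    · rw [h2] at ho
      exact I.outer_ne x0 ho
    · exact hof h2
  · have e := slq15_eq H.nodup hc hc' hx0 (cadj_mem hadj).1
    rw [← e]
    exact hadj

theorem init_exists {I : Inst ι L} {h : SB ι} {K : Finset ι} {l0 : ℕ} {cs : List (List (ι × Bool))}
    (H : CSt I h K l0 cs) (h2 : 2 ≤ cs.length) (h3 : 3 ≤ l0) (hl : 4 * K.card < l0) :
    ∃ (x0 y0 : ι × Bool) (s0 : QS (ι × Bool)), x0.1 ∉ K ∧ y0.1 ∉ K ∧ x0.1 ≠ y0.1 ∧ s0.k = [] ∧ s0.mg = false ∧
      QInv I (insert x0.1 (insert y0.1 K)) x0 y0 s0 ∧ s0.J.length + 1 = cs.length ∧ (∀ c ∈ s0.J, c ∈ cs) ∧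
      l0 ≤ s0.l.length ∧
      ∀ a b, s0.Adj a b ↔ (∃ c ∈ cs, CAdj c a b) ∧ ¬ (a = x0 ∧ b = y0) ∧ ¬ (a = y0 ∧ b = x0) := by
  obtain ⟨c, hc, hmin⟩ : ∃ c ∈ cs, ∀ c' ∈ cs, c.length ≤ c'.length := by
    have hne : cs.toFinset.Nonempty := by
      cases cs with
      | nil => simp at h2
      | cons a l => exact ⟨a, by simp⟩
    obtain ⟨c, hc, hmin⟩ := Finset.exists_min_image cs.toFinset List.length hne
    exact ⟨c, List.mem_toFinset.1 hc, fun c' hc' => hmin c' (List.mem_toFinset.2 hc')⟩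
  obtain ⟨J₁, J₂, hcs⟩ := List.append_of_mem hc
  have hperm : cs.flatten.Perm (c ++ (J₁ ++ J₂).flatten) := by
    rw [hcs, List.flatten_append, List.flatten_cons, List.flatten_append]
    exact List.perm_append_comm_assoc _ _ _
  have hlen : cs.flatten.length = 2 * Fintype.card ι := by
    rw [← List.toFinset_card_of_nodup H.nodup]
    have e : cs.flatten.toFinset = Finset.univ := by
      ext v
      simp only [List.mem_toFinset, Finset.mem_univ, iff_true]
      exact H.full v
    rw [e, Finset.card_univ, Fintype.card_prod, Fintype.card_bool, mul_comm]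
  have hJmem : ∀ c' ∈ J₁ ++ J₂, c' ∈ cs := by
    intro c' hc'
    rw [hcs]
    rcases List.mem_append.1 hc' with h | h
    · exact List.mem_append.2 (Or.inl h)
    · exact List.mem_append.2 (Or.inr (List.mem_cons_of_mem _ h))
  have hJlen : (J₁ ++ J₂).length + 1 = cs.length := by
    rw [hcs]
    simp only [List.length_append, List.length_cons]
    omega
  have hcn : c.length ≤ Fintype.card ι := by
    obtain ⟨c', hc'⟩ : ∃ c', c' ∈ J₁ ++ J₂ := by
      apply List.exists_mem_of_length_pos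
      omega
    have e1 := hmin c' (hJmem c' hc')
    have e2 : c'.length ≤ (J₁ ++ J₂).flatten.length := by
      obtain ⟨P, Q, e3⟩ := List.append_of_mem hc'
      rw [e3, List.flatten_append, List.flatten_cons]
      simp only [List.length_append]
      omega
    have e4 := hperm.length_eq
    rw [List.length_append] at e4
    omega
  have hl0 := H.big c hc
  obtain ⟨x0, y0, hx0, ho, hxK, hyK, hxy, hadj⟩ := fresh_edge H hc (by omega)
  have hcnd := slq15_nodup H.nodup hc
  obtain ⟨R, hR⟩ := opn_exists hcnd (by omega) (cadj_symm hadj)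
  have hRc := opn_perm hR
  have hall : (R ++ [] ++ (J₁ ++ J₂).flatten).Perm cs.flatten := by
    rw [List.append_nil]
    exact (hRc.append_right _).trans hperm.symm
  have hdisj : ∀ c' ∈ J₁ ++ J₂, ∀ a ∈ c', a ∉ c := by
    intro c' hc' a ha hac
    have e1 : (c ++ (J₁ ++ J₂).flatten).Nodup := hperm.nodup_iff.1 H.nodup
    exact (List.disjoint_of_nodup_append e1) hac (List.mem_flatten.2 ⟨c', hc', ha⟩)
  have hAdj : ∀ a b, (⟨R, [], J₁ ++ J₂, false⟩ : QS (ι × Bool)).Adj a b ↔
      (∃ c ∈ cs, CAdj c a b) ∧ ¬ (a = x0 ∧ b = y0) ∧ ¬ (a = y0 ∧ b = x0) := by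
    intro a b
    unfold QS.Adj
    simp only
    rw [opn_adj hcnd (by omega) hR a b]
    constructor
    · rintro (⟨e1, e2, e3⟩ | e1 | ⟨c', hc', e1⟩)
      · exact ⟨⟨c, hc, e1⟩, e3, e2⟩
      · exact absurd e1 cadj_nil
      · have e2 := hdisj c' hc' a (cadj_mem e1).1
        refine ⟨⟨c', hJmem c' hc', e1⟩, ?_, ?_⟩
        · rintro ⟨e3, -⟩
          rw [e3] at e2
          exact e2 hx0
        · rintro ⟨e3, -⟩
          rw [e3] at e2
          exact e2 (cadj_mem hadj).2
    · rintro ⟨⟨c', hc', e1⟩, e2, e3⟩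
      rw [hcs] at hc'
      rcases List.mem_append.1 hc' with h | h
      · exact Or.inr (Or.inr ⟨c', List.mem_append.2 (Or.inl h), e1⟩)
      · rcases List.mem_cons.1 h with h | h
        · rw [h] at e1
          exact Or.inl ⟨e1, e3, e2⟩
        · exact Or.inr (Or.inr ⟨c', List.mem_append.2 (Or.inr h), e1⟩)
  refine ⟨x0, y0, ⟨R, [], J₁ ++ J₂, false⟩, hxK, hyK, hxy, rfl, rfl, ?_, hJlen, hJmem, ?_, hAdj⟩
  · refine ⟨⟨?_, Or.inl rfl, ?_⟩, ?_, opn_ends hR, ?_, ?_, ?_, ?_⟩
    · unfold QS.all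
      exact hall.nodup_iff.2 H.nodup
    · intro c' hc'
      have := H.big c' (hJmem c' hc')
      omega
    · intro v
      unfold QS.all
      exact hall.mem_iff.2 (H.full v)
    · exact Finset.mem_insert_self _ _
    · exact Finset.mem_insert_of_mem (Finset.mem_insert_self _ _)
    · intro v hv
      rw [Finset.mem_insert, Finset.mem_insert, not_or, not_or] at hv
      obtain ⟨o, ho, hof, ha1, ha2⟩ := H.nb v hv.2.2
      have hvx : v ≠ x0 := fun h => hv.1 (by rw [h])
      have hvy : v ≠ y0 := fun h => hv.2.1 (by rw [h])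
      refine ⟨o, ho, hof, (hAdj _ _).2 ⟨ha1, ?_, ?_⟩, (hAdj _ _).2 ⟨ha2, ?_, ?_⟩⟩
      · exact fun h => hvx h.1
      · exact fun h => hvy h.1
      · exact fun h => hvx h.1
      · exact fun h => hvy h.1
    · intro _
      simp only [List.length_nil, add_zero]
      rw [hRc.length_eq]
      exact hcn
  · simp only
    rw [hRc.length_eq]
    exact hl0

end Pool.Agent.H38H
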