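import Pool.Agent.Lib.H38H.Q.Q5
import Pool.Agent.Lib.H38H.Q.Q6

/-!
Chunk SLQ16 (M). The edges of the state are edges of the instance.

Proofs. `padj_symm`: `flip (flip x) = x`, `outer_symm`, `Mc_symm`, `Md_symm`. `good_step`: let `s` be the state before the move `(w, x')`, `I.step h x b = some (w, x')`, `x` the head of the path. By `step_adj` (P1) `x` and `w` are joined by an
`M`-edge, so the new edge is in `PAdj`; together with `qstep_adj` this gives `adj`. `mid`: let `kind (ap h a).1 ≠ c`. `s.Adj a (flip a)` remains unless `{a, flip a} = {w, x'}`, i.e. `x' = flip w`. By `step_adj` either `kind (ap h w).1 = c`, and then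
`(ap h (flip w)).1 = (ap h w).1` contradicts the choice of `a`, or `I.outer w = some x' = some (flip w)`, which contradicts `H.nb w` (`w.1 ∉ T`). `run_good`: induction on `mx` (with `my = []`), then on `my`, using `run_inv` for the states with
`T = K ∪ slots`, `Cons.tail`, `nxt_some`; the slot of the target is not in `T`: by `Nodup` it is not a slot of the earlier moves and by `Cons.fresh` not in `K`. For the y-moves use `QInv.rev` and `QGood.rev` (`rev_adj`).
-/

set_option autoImplicit false

namespace Pool.Agent.H38H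

open Classical

variable {ι : Type} [Fintype ι] {L : ℕ}

theorem padj_symm {I : Inst ι L} {h : SB ι} {a b : ι × Bool} (hab : I.PAdj h a b) : I.PAdj h b a := by
  rcases hab with hab | hab | hab | hab
  · left
    rw [hab, flip_flip]
  · right; left
    exact I.outer_symm _ _ hab
  · right; right; left
    exact I.Mc_symm _ _ hab
  · right; right; right
    exact I.Md_symm _ _ hab

theorem QGood.rev {I : Inst ι L} {h : SB ι} {s : QS (ι × Bool)} (G : QGood I h s) : QGood I h s.rev := by
  refine ⟨fun a b hab => G.adj a b (rev_adj.1 hab), fun a ha => rev_adj.2 (G.mid a ha)⟩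

theorem good_step {I : Inst ι L} {h : SB ι} {T : Finset ι} {x y w x' : ι × Bool} {s s' : QS (ι × Bool)}
    (H : QInv I T x y s) (G : QGood I h s) (hw : w.1 ∉ T) {b : Bool} (hb : I.step h x b = some (w, x'))
    (hs : QStep s (w, x') s') : QGood I h s' := by
  obtain ⟨h1, h2⟩ := step_adj I h hb
  have hadj := qstep_adj H.wf H.ends hs
  have hxw : I.PAdj h x w := by
    rcases h1 with h1 | h1
    · exact Or.inr (Or.inr (Or.inl h1))
    · exact Or.inr (Or.inr (Or.inr h1))
  have hno : ∀ a : ι × Bool, a.1 = w.1 → I.kind (ap h a).1 ≠ Kind.c → x' ≠ flip w := by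
    intro a haw hka hx'
    rcases h2 with ⟨-, h2⟩ | h2
    · apply hka
      rw [ap_fst, haw]
      exact h2
    · obtain ⟨o, ho, hof, -, -⟩ := H.nb w hw
      change I.outer w = some x' at h2
      rw [h2] at ho
      apply hof
      rw [← Option.some.inj ho, hx']
  constructor
  · intro a c hac
    rcases (hadj a c).1 hac with ⟨h3, -, -⟩ | ⟨rfl, rfl⟩ | ⟨rfl, rfl⟩
    · exact G.adj a c h3
    · exact hxw
    · exact padj_symm hxw
  · intro a ha
    apply (hadj a (flip a)).2
    left
    refine ⟨G.mid a ha, ?_, ?_⟩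
    · rintro ⟨h3, h4⟩
      apply hno a (by rw [h3]) ha
      rw [← h3, h4]
    · rintro ⟨h3, h4⟩
      apply hno a (by rw [← h4]; rfl) ha
      rw [← h3, ← h4, flip_flip]

theorem slq16_x {I : Inst ι L} {h : SB ι} {K : Finset ι} {x0 y0 : ι × Bool} {s0 : QS (ι × Bool)}
    (H0 : QInv I (insert x0.1 (insert y0.1 K)) x0 y0 s0) (G0 : QGood I h s0) (mx : List (Mv ι)) :
    ∀ s : QS (ι × Bool), Tr I h x0 mx → Cons I K x0 mx → y0.1 ∉ slotsOf mx → y0.1 ∉ K →
      runX s0 mx = some s → QGood I h s := by
  induction mx with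
  | nil =>
    intro s _ _ _ _ hs
    have h1 : s0 = s := Option.some.inj hs
    rw [← h1]
    exact G0
  | cons a m ih =>
    intro s tx cx hy hyK hs
    obtain ⟨s1, hs1, hq⟩ := nxt_some (o := runX s0 m) (a := a) (s' := s) hs
    have hsub : ∀ p ∈ slotsOf m, p ∈ slotsOf (a :: m) := fun p hp => mem_slotsOf_tail hp
    have G1 := ih s1 tx.1 cx.tail (fun hp => hy (hsub _ hp)) hyK hs1
    obtain ⟨b, hb⟩ := tx.2
    have H1 := run_inv (T := K ∪ ((x0.1 :: slotsOf m) ++ [y0.1]).toFinset) (my := []) H0
      (show runY (runX s0 m) [] = some s1 from hs1) Finset.subset_union_left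
      (fun p hp => Finset.mem_union_right _ (List.mem_toFinset.2 hp))
    refine good_step (w := a.1) (x' := a.2) H1 G1 ?_ hb hq
    intro hmem
    have hta := target_mem_slotsOf a m
    rcases Finset.mem_union.1 hmem with h1 | h1
    · exact cx.fresh _ (List.mem_cons_of_mem _ hta) h1
    · rw [List.mem_toFinset] at h1
      rcases List.mem_append.1 h1 with h1 | h1
      · have hn := cx.nodup
        rw [List.nodup_cons] at hn
        rcases List.mem_cons.1 h1 with h1 | h1
        · exact hn.1 (h1 ▸ hta)
        · by_cases e : a.2.1 = a.1.1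
          · rw [slotsOf_mid e, List.nodup_cons] at hn
            exact hn.2.1 h1
          · rw [slotsOf_out e, List.nodup_cons, List.nodup_cons] at hn
            exact hn.2.2.1 h1
      · rw [List.mem_singleton] at h1
        exact hy (h1 ▸ hta)

theorem run_good {I : Inst ι L} {h : SB ι} {K : Finset ι} {x0 y0 : ι × Bool} {s0 s : QS (ι × Bool)}
    (H0 : QInv I (insert x0.1 (insert y0.1 K)) x0 y0 s0) (G0 : QGood I h s0) {mx my : List (Mv ι)}
    (tx : Tr I h x0 mx) (ty : Tr I h y0 my) (cx : Cons I K x0 mx) (cy : Cons I K y0 my)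
    (hnd : ((x0.1 :: slotsOf mx) ++ (y0.1 :: slotsOf my)).Nodup)
    (hs : runY (runX s0 mx) my = some s) : QGood I h s := by
  induction my generalizing s with
  | nil =>
    refine slq16_x H0 G0 mx s tx cx ?_ (cy.fresh _ List.mem_cons_self) hs
    intro hp
    rw [List.nodup_append] at hnd
    exact hnd.2.2 _ (List.mem_cons_of_mem _ hp) _ List.mem_cons_self rfl
  | cons a m ih =>
    have hsub : ∀ p ∈ slotsOf m, p ∈ slotsOf (a :: m) := fun p hp => mem_slotsOf_tail hp
    have hnd' : ((x0.1 :: slotsOf mx) ++ (y0.1 :: slotsOf m)).Nodup :=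
      hnd.sublist ((List.Sublist.refl _).append ((slp1_sub a m).cons_cons y0.1))
    change (nxt ((runY (runX s0 mx) m).map QS.rev) a).map QS.rev = some s at hs
    rw [Option.map_eq_some_iff] at hs
    obtain ⟨s2, hs2, hrev⟩ := hs
    obtain ⟨s1', hs1', hq⟩ := nxt_some hs2
    rw [Option.map_eq_some_iff] at hs1'
    obtain ⟨s1, hs1, hr1⟩ := hs1'
    have G1 := ih ty.1 cy.tail hnd' hs1
    obtain ⟨b, hb⟩ := ty.2
    have H1 := run_inv (T := K ∪ ((x0.1 :: slotsOf mx) ++ (y0.1 :: slotsOf m)).toFinset) H0
      hs1 Finset.subset_union_left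
      (fun p hp => Finset.mem_union_right _ (List.mem_toFinset.2 hp))
    rw [← hrev]
    apply QGood.rev
    rw [← hr1] at hq
    refine good_step (w := a.1) (x' := a.2) H1.rev G1.rev ?_ hb hq
    intro hmem
    have hta := target_mem_slotsOf a m
    rcases Finset.mem_union.1 hmem with h1 | h1
    · exact cy.fresh _ (List.mem_cons_of_mem _ hta) h1
    · rw [List.mem_toFinset] at h1
      rcases List.mem_append.1 h1 with h1 | h1
      · rw [List.nodup_append] at hnd
        exact hnd.2.2 _ h1 _ (List.mem_cons_of_mem _ hta) rfl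
      · have hn := cy.nodup
        rw [List.nodup_cons] at hn
        rcases List.mem_cons.1 h1 with h1 | h1
        · exact hn.1 (h1 ▸ hta)
        · by_cases e : a.2.1 = a.1.1
          · rw [slotsOf_mid e, List.nodup_cons] at hn
            exact hn.2.1 h1
          · rw [slotsOf_out e, List.nodup_cons, List.nodup_cons] at hn
            exact hn.2.2.1 h1

end Pool.Agent.H38H
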