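import Pool.Agent.Lib.H38H.Q.Q16

/-!
Chunk SLQ17 (S/M). Closing the path.

Proof of `close_cst`. The lists are `s.l :: s.J`. `nodup`, `full`: `s.k = []` in `s.all`. `adj`: for `c = s.l`: `CAdj s.l a b` is `LAdj s.l a b` (so `s.Adj a b`) or `{a,b} = {x,y}` (`Ends s.l a b` and `H.ends` give `a = x`, `b = y`): `hc`, `padj_symm`. For `c ∈ s.J` it is
`s.Adj`. `mid`, `nb`: `s.Adj a b` is `LAdj s.l a b` (hence `CAdj s.l a b`), `CAdj [] a b` (impossible, `cadj_nil`) or `CAdj c a b` with `c ∈ s.J`.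
-/

set_option autoImplicit false

namespace Pool.Agent.H38H

open Classical

variable {ι : Type} [Fintype ι] {L : ℕ}

theorem close_cst {I : Inst ι L} {h : SB ι} {K : Finset ι} {x y : ι × Bool} {s : QS (ι × Bool)} {l0 : ℕ}
    (H : QInv I K x y s) (G : QGood I h s) (hk : s.k = []) (hc : I.PAdj h x y) (hb : l0 ≤ s.l.length)
    (hJ : ∀ c ∈ s.J, l0 ≤ c.length) : CSt I h K l0 (s.l :: s.J) := by
  have hall : (s.l :: s.J).flatten = s.all := by
    rw [List.flatten_cons, QS.all, hk, List.append_nil]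
  have hex : ∀ a b, s.Adj a b → ∃ c ∈ s.l :: s.J, CAdj c a b := by
    intro a b hab
    rcases hab with hab | hab | ⟨c, hc, hab⟩
    · exact ⟨s.l, List.mem_cons_self, Or.inl hab⟩
    · rw [hk] at hab
      exact absurd hab cadj_nil
    · exact ⟨c, List.mem_cons_of_mem _ hc, hab⟩
  have hen : ∀ a b, Ends s.l a b → a = x ∧ b = y := by
    intro a b hab
    have h1 := H.ends.1
    have h2 := H.ends.2
    rw [hab.1] at h1
    rw [hab.2] at h2
    exact ⟨Option.some.inj h1, Option.some.inj h2⟩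
  constructor
  · rw [hall]
    exact H.wf.nodup
  · rw [hall]
    exact H.full
  · intro c hcm
    rcases List.mem_cons.1 hcm with hcm | hcm
    · rw [hcm]
      exact hb
    · exact hJ c hcm
  · intro c hcm a b hab
    rcases List.mem_cons.1 hcm with hcm | hcm
    · rw [hcm] at hab
      rcases hab with hab | hab | hab
      · exact G.adj a b (Or.inl hab)
      · obtain ⟨h1, h2⟩ := hen a b hab
        rw [h1, h2]
        exact hc
      · obtain ⟨h1, h2⟩ := hen b a hab
        rw [h1, h2]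
        exact padj_symm hc
    · exact G.adj a b (Or.inr (Or.inr ⟨c, hcm, hab⟩))
  · intro a ha
    exact hex _ _ (G.mid a ha)
  · intro v hv
    obtain ⟨o, ho, hof, h1, h2⟩ := H.nb v hv
    exact ⟨o, ho, hof, hex _ _ h1, hex _ _ h2⟩

/-- partners are adjacent positions -/
theorem padj_of_clo {I : Inst ι L} {h : SB ι} {a b : ι × Bool} (hc : Clo I (ap h a) (ap h b)) : I.PAdj h a b := by
  rcases hc with hc | hc
  · exact Or.inr (Or.inr (Or.inl hc))
  · exact Or.inr (Or.inr (Or.inr hc))

end Pool.Agent.H38H
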