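import Pool.Agent.Lib.H38H.Q.Q2
import Pool.Agent.Lib.H38H.Q.Q16

/-!
Chunk SLQ18 (S/M). The state only depends on the known part.

Proofs. `CSt.mono`: only `nb` mentions `K`. `CSt.congr`: let `h' ∈ cyl K h`. `adj`: let `CAdj c a b`. If `a.1 ∉ K`: by `H.nb a` there are `c', c''` in `cs` with `CAdj c' a (flip a)`, `CAdj c'' a o`, `o = outer a ≠ flip a`; `c' = c'' = c` since all contain `a` (`cadj_mem`, `H.nodup`); by
`cadj_third` (`c.Nodup`, length at least 3) `b = flip a` or `b = o`, so `PAdj h' a b` by its first two alternatives. If `b.1 ∉ K`: `cadj_symm`, `padj_symm`. Otherwise `ap h' a = ap h a`, `ap h' b = ap h b` (`ap_congr`), and `PAdj` only involves these.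
`mid`: for `a.1 ∈ K` by `ap_congr`; for `a.1 ∉ K` by `H.nb`.
-/

set_option autoImplicit false

namespace Pool.Agent.H38H

open Classical

variable {ι : Type} [Fintype ι] {L : ℕ}

theorem CSt.mono {I : Inst ι L} {h : SB ι} {K K' : Finset ι} {l0 : ℕ} {cs : List (List (ι × Bool))}
    (H : CSt I h K l0 cs) (hK : K ⊆ K') : CSt I h K' l0 cs :=
  ⟨H.nodup, H.full, H.big, H.adj, H.mid, fun v hv => H.nb v (fun h' => hv (hK h'))⟩

theorem slq18_same {α : Type} {cs : List (List α)} (hn : cs.flatten.Nodup) {c d : List α} (hc : c ∈ cs)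
    (hd : d ∈ cs) {a : α} (hac : a ∈ c) (had : a ∈ d) : c = d := by
  by_contra hne
  have h2 := (List.nodup_flatten.1 hn).2
  obtain ⟨i, hi, rfl⟩ := List.getElem_of_mem hc
  obtain ⟨j, hj, rfl⟩ := List.getElem_of_mem hd
  rcases lt_trichotomy i j with hij | hij | hij
  · exact (List.pairwise_iff_getElem.1 h2 i j hi hj hij) hac had
  · subst hij; exact hne rfl
  · exact (List.pairwise_iff_getElem.1 h2 j i hj hi hij) had hac

theorem slq18_out {I : Inst ι L} {h : SB ι} {K : Finset ι} {l0 : ℕ} {cs : List (List (ι × Bool))}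
    (H : CSt I h K l0 cs) (h3 : 3 ≤ l0) {c : List (ι × Bool)} (hc : c ∈ cs) {a b : ι × Bool}
    (hab : CAdj c a b) (ha : a.1 ∉ K) : b = flip a ∨ I.outer a = some b := by
  obtain ⟨o, ho, hne, ⟨c', hc', hc1⟩, c'', hc'', hc2⟩ := H.nb a ha
  have e1 : c' = c := slq18_same H.nodup hc' hc (cadj_mem hc1).1 (cadj_mem hab).1
  have e2 : c'' = c := slq18_same H.nodup hc'' hc (cadj_mem hc2).1 (cadj_mem hab).1
  subst e1
  subst e2
  have hn : c''.Nodup := (List.nodup_flatten.1 H.nodup).1 _ hc
  rcases cadj_third hn (h3.trans (H.big _ hc)) hc1 hc2 hne.symm hab with h1 | h1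
  · exact Or.inl h1
  · exact Or.inr (by rw [h1]; exact ho)

theorem CSt.congr {I : Inst ι L} {h h' : SB ι} {K : Finset ι} {l0 : ℕ} {cs : List (List (ι × Bool))}
    (H : CSt I h K l0 cs) (h3 : 3 ≤ l0) (hh : h' ∈ cyl K h) : CSt I h' K l0 cs := by
  refine ⟨H.nodup, H.full, H.big, ?_, ?_, H.nb⟩
  · intro c hc a b hab
    by_cases ha : a.1 ∈ K
    · by_cases hb : b.1 ∈ K
      · have := H.adj c hc a b hab
        unfold Inst.PAdj at this ⊢
        rw [ap_congr hh ha, ap_congr hh hb]
        exact this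
      · refine padj_symm ?_
        rcases slq18_out H h3 hc (cadj_symm hab) hb with h1 | h1
        · exact Or.inl h1
        · exact Or.inr (Or.inl h1)
    · rcases slq18_out H h3 hc hab ha with h1 | h1
      · exact Or.inl h1
      · exact Or.inr (Or.inl h1)
  · intro a hk
    by_cases ha : a.1 ∈ K
    · rw [ap_congr hh ha] at hk
      exact H.mid a hk
    · obtain ⟨o, ho, hne, h1, h2⟩ := H.nb a ha
      exact h1

end Pool.Agent.H38H
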