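import Pool.Agent.Lib.H38H.Q.Q2

/-!
Chunk SLQ19 (M). Cycles of a 2-regular graph as lists (pure graph theory).

Proof. Among all lists `c` with `c.head? = some v`, `c.Nodup` and consecutive elements `S`-adjacent (`List.IsChain S.Adj c`, or `List.Chain'`) take one of maximal length (lengths are at most `card V`). Let `u` be its last element. `c = [v]` is impossible: `v` has
a neighbour `b ≠ v`, and `[v, b]` is longer. So `u` has a predecessor `u⁻` in `c` and, by degree 2, another neighbour `u'`; `u' ∈ c` by maximality (otherwise append it). If `u' ≠ v` then `u'` is not the head, and not `u`, so it has a predecessor and a successor in `c`, both `S`-neighbours of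
`u'` and different; `u` is a third neighbour of `u'` (`u` is the last element, so it is the successor of `u'` only if `u' = u⁻`), contradiction to degree 2. So `u' = v`, `S.Adj u v`, and `|c| ≥ 3` (for `|c| = 2` we would have `u⁻ = v = u'`). Hence every pair of
cyclic neighbours in `c` is `S`-adjacent, each `a ∈ c` has exactly two cyclic neighbours (`cadj_two`), so these are all `S`-neighbours of `a` (degree 2). The elements of `c` are closed under adjacency and reachable from `v`.
(Alternatively use `SimpleGraph.IsCycles.exists_cycle_toSubgraph_verts_eq_connectedComponentSupp`.)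
-/

set_option autoImplicit false

namespace Pool.Agent.H38H

open Classical

theorem slq19_chain {V : Type} {S : SimpleGraph V} {c : List V} (h : List.IsChain S.Adj c) {a b : V}
    (hab : LAdj c a b) : S.Adj a b := by
  obtain ⟨P, Q, h1 | h1⟩ := hab
  · rw [h1, List.isChain_append] at h
    exact (List.isChain_cons_cons.1 h.2.1).1
  · rw [h1, List.isChain_append] at h
    exact (List.isChain_cons_cons.1 h.2.1).1.symm

theorem cyc_list {V : Type} [Fintype V] {S : SimpleGraph V} (hd : ∀ x, (S.neighborSet x).ncard = 2) (v : V) :
    ∃ c : List V, c.Nodup ∧ 3 ≤ c.length ∧ (∀ a, a ∈ c ↔ S.Reachable v a) ∧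
      ∀ a ∈ c, ∀ b, CAdj c a b ↔ S.Adj a b := by
  have hc : S.IsCycles := fun x _ => hd x
  have hne : (S.neighborSet v).Nonempty := by
    rw [Set.nonempty_iff_ne_empty]
    intro h
    have := hd v
    rw [h, Set.ncard_empty] at this
    omega
  obtain ⟨p, hp, hpv⟩ := hc.exists_cycle_toSubgraph_verts_eq_connectedComponentSupp
    (c := S.connectedComponentMk v) rfl hne
  have hmem : ∀ a, a ∈ p.support ↔ S.Reachable v a := by
    intro a
    rw [← SimpleGraph.Walk.mem_verts_toSubgraph, hpv, SimpleGraph.ConnectedComponent.mem_supp_iff,
      SimpleGraph.ConnectedComponent.eq]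
    exact ⟨fun h => h.symm, fun h => h.symm⟩
  have h3 := hp.three_le_length
  cases p with
  | nil => simp at h3
  | cons hadj q =>
    rename_i u
    rw [SimpleGraph.Walk.cons_isCycle_iff] at hp
    have hn : q.support.Nodup := hp.1.support_nodup
    have hlen : 3 ≤ q.support.length := by
      rw [SimpleGraph.Walk.length_support]
      rw [SimpleGraph.Walk.length_cons] at h3
      omega
    have hadjc : ∀ a b, CAdj q.support a b → S.Adj a b := by
      have hh : q.support.head? = some u := by
        rw [List.head?_eq_some_head q.support_ne_nil]
        simp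
      have hl : q.support.getLast? = some v := by
        rw [List.getLast?_eq_some_getLast q.support_ne_nil]
        simp
      rintro a b (h | ⟨h1, h2⟩ | ⟨h1, h2⟩)
      · exact slq19_chain q.isChain_adj_support h
      · rw [hh] at h1
        rw [hl] at h2
        rw [← Option.some.inj h1, ← Option.some.inj h2]
        exact hadj.symm
      · rw [hh] at h1
        rw [hl] at h2
        rw [← Option.some.inj h1, ← Option.some.inj h2]
        exact hadj
    refine ⟨q.support, hn, hlen, ?_, ?_⟩
    · intro a
      rw [← hmem, SimpleGraph.Walk.support_cons, List.mem_cons]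
      constructor
      · exact fun h => Or.inr h
      · rintro (rfl | h)
        · exact q.end_mem_support
        · exact h
    · intro a ha b
      refine ⟨hadjc a b, fun hab => ?_⟩
      obtain ⟨x, y, hxy, -, -, hall⟩ := cadj_two hn hlen ha
      have h1 : ({x, y} : Set V) ⊆ S.neighborSet a := by
        rintro z (rfl | rfl)
        · exact hadjc a _ ((hall _).2 (Or.inl rfl))
        · exact hadjc a _ ((hall _).2 (Or.inr rfl))
      have h2 : ({x, y} : Set V) = S.neighborSet a := by
        apply Set.eq_of_subset_of_ncard_le h1
        rw [hd a, Set.ncard_pair hxy]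
      have h4 : b ∈ ({x, y} : Set V) := by
        rw [h2]
        exact hab
      exact (hall b).2 (by simpa using h4)

end Pool.Agent.H38H
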