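import Pool.Agent.Lib.H38H.Q.Q1

/-!
Chunk SLQ2 (M). Cyclic adjacency in a list.

Proofs. `cadj_rotate`: by `ladj_append` both sides say: `LAdj P a b`, or `LAdj Q a b`, or (last of P, head of Q) is the pair, or (last of Q, head of P) is the pair
(when `P` or `Q` is empty both sides are equal literally). `cadj_reverse`: `ladj_reverse`, `ends_reverse`. `cadj_two`: write `c = P ++ v :: Q`; by `cadj_rotate` replace `c` by `v :: U`, `U = Q ++ P`, which has at
least two elements and no repetition; the neighbours of `v` are the head `p` of `U` (`ladj_at` with `P = []`) and, through `Ends`, the last element `q` of `U`; `p ≠ q` since `U` has at least two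
elements and is `Nodup`.
-/

set_option autoImplicit false

namespace Pool.Agent.H38H

open Classical

variable {α : Type}

theorem cadj_symm {c : List α} {a b : α} (h : CAdj c a b) : CAdj c b a := by
  rcases h with h | h | h
  · exact Or.inl (ladj_symm h)
  · exact Or.inr (Or.inr h)
  · exact Or.inr (Or.inl h)

theorem cadj_mem {c : List α} {a b : α} (h : CAdj c a b) : a ∈ c ∧ b ∈ c := by
  rcases h with h | h | h
  · exact ladj_mem h
  · exact ends_mem h
  · exact (ends_mem h).symm

theorem cadj_nil {a b : α} : ¬ CAdj ([] : List α) a b := by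
  intro h
  exact List.not_mem_nil (cadj_mem h).1

theorem slq2_last (P Q : List α) (hQ : Q ≠ []) : (P ++ Q).getLast? = Q.getLast? :=
  List.getLast?_append_of_ne_nil P hQ

theorem slq2_head (P Q : List α) (hP : P ≠ []) : (P ++ Q).head? = P.head? := by
  cases P with
  | nil => exact absurd rfl hP
  | cons x P => rfl

theorem cadj_rotate {P Q : List α} {a b : α} : CAdj (P ++ Q) a b ↔ CAdj (Q ++ P) a b := by
  by_cases hP : P = []
  · rw [hP, List.nil_append, List.append_nil]
  by_cases hQ : Q = []
  · rw [hQ, List.nil_append, List.append_nil]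
  unfold CAdj Ends
  rw [ladj_append, ladj_append, slq2_last P Q hQ, slq2_last Q P hP, slq2_head P Q hP,
    slq2_head Q P hQ]
  tauto

theorem cadj_reverse {c : List α} {a b : α} : CAdj c.reverse a b ↔ CAdj c a b := by
  unfold CAdj
  rw [ladj_reverse, ends_reverse, ends_reverse]
  tauto

/-- exactly two cyclic neighbours -/
theorem cadj_two {c : List α} (hn : c.Nodup) (h3 : 3 ≤ c.length) {v : α} (hv : v ∈ c) :
    ∃ p q : α, p ≠ q ∧ p ≠ v ∧ q ≠ v ∧ ∀ b, CAdj c v b ↔ b = p ∨ b = q := by
  obtain ⟨P, Q, rfl⟩ := List.append_of_mem hv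
  have hperm : (P ++ v :: Q).Perm (v :: (Q ++ P)) := by
    have h1 : (P ++ v :: Q).Perm ((v :: Q) ++ P) := List.perm_append_comm
    exact h1
  have hn' : (v :: (Q ++ P)).Nodup := hperm.nodup_iff.1 hn
  have hlen : 3 ≤ (v :: (Q ++ P)).length := by rw [← hperm.length_eq]; exact h3
  have hrot : ∀ b, CAdj (P ++ v :: Q) v b ↔ CAdj (v :: (Q ++ P)) v b := fun b =>
    cadj_rotate (P := P) (Q := v :: Q)
  obtain ⟨U, hU⟩ : ∃ U : List α, U = Q ++ P := ⟨_, rfl⟩
  rw [← hU] at hn' hlen hrot
  cases U with
  | nil => simp at hlen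
  | cons p U' =>
    have hU' : U' ≠ [] := by
      rintro rfl
      simp at hlen
    obtain ⟨W, q, hW⟩ : ∃ W q, U' = W ++ [q] := by
      rcases List.eq_nil_or_concat U' with h | ⟨W, q, h⟩
      · exact absurd h hU'
      · exact ⟨W, q, by rw [h, List.concat_eq_append]⟩
    have hq : q ∈ U' := by rw [hW]; simp
    rw [List.nodup_cons, List.nodup_cons] at hn'
    obtain ⟨hv1, hp1, -⟩ := hn'
    have hvp : v ≠ p := fun h => hv1 (by rw [h]; exact List.mem_cons_self)
    have hvq : v ≠ q := fun h => hv1 (by rw [h]; exact List.mem_cons_of_mem _ hq)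
    refine ⟨p, q, fun h => hp1 (by rw [h]; exact hq), hvp.symm, hvq.symm, fun b => ?_⟩
    rw [hrot b]
    have hlast : (v :: p :: U').getLast? = some q := by
      rw [hW]
      have e : v :: p :: (W ++ [q]) = (v :: p :: W) ++ [q] := rfl
      rw [e, List.getLast?_append_of_ne_nil _ (by simp)]
      rfl
    have hnod : (v :: p :: U').Nodup := by
      rw [List.nodup_cons, List.nodup_cons]
      have hh : (v :: p :: U').Nodup := by
        have := hperm.nodup_iff.1 hn
        rw [← hU] at this
        exact this
      exact ⟨hv1, hp1, (List.nodup_cons.1 (List.nodup_cons.1 hh).2).2⟩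
    unfold CAdj Ends
    rw [hlast]
    have h4 : LAdj (v :: p :: U') v b ↔ b = p := by
      have h5 := ladj_at (P := []) (Q := p :: U') (v := v) (a := b) hnod
      rw [List.nil_append] at h5
      rw [h5]
      simp only [List.head?_cons, List.getLast?_nil, Option.some.injEq, reduceCtorEq, or_false]
      exact eq_comm
    rw [h4]
    simp only [List.head?_cons, Option.some.injEq, true_and]
    constructor
    · rintro (h | h | h)
      · exact Or.inl h
      · exact Or.inr h.symm
      · exact absurd h.2.symm hvq
    · rintro (h | h)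
      · exact Or.inl h
      · exact Or.inr (Or.inl h.symm)

/-- a third cyclic neighbour coincides with one of two given ones -/
theorem cadj_third {c : List α} (hn : c.Nodup) (h3 : 3 ≤ c.length) {v a b d : α} (ha : CAdj c v a)
    (hb : CAdj c v b) (hab : a ≠ b) (hd : CAdj c v d) : d = a ∨ d = b := by
  obtain ⟨p, q, -, -, -, h⟩ := cadj_two hn h3 (cadj_mem ha).1
  rw [h] at ha hb hd
  rcases ha with rfl | rfl <;> rcases hb with rfl | rfl
  · exact absurd rfl hab
  · exact hd
  · exact hd.symm
  · exact absurd rfl hab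

end Pool.Agent.H38H
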