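import Pool.Agent.Lib.H38H.Q.D
import Pool.Agent.Lib.H38H.Q.Q19

/-!
Chunk SLQ20 (M). From the graph `S` of `P2State` to a list of cyclic lists.

Proof. For each `x` let `cyc_list` give the list of its component. Choose a set of representatives: the connected components of `S` are the classes of `S.Reachable`; for each component choose an element of `T` in it (`hT`); let `R ⊆ T` be the finset of chosen elements (`Finset.image` of the choice over
`Finset.univ : Finset S.ConnectedComponent`), one for each component, so `R.card ≤ T.card`; `cs = R.toList.map (list of the component)`. Different elements of `R` are in different components, so the lists are pairwise disjoint and `cs.flatten` is `Nodup` (`List.nodup_flatten`); every `v` is in the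
list of its component. `big`: the elements of `c` are exactly the `y` reachable from `x`, `c.Nodup`, so `c.length = Nat.card {y // S.Reachable x y} ≥ l0`. `adj`, `mid`: `H.adj`, `H.mid` with the last property of `cyc_list`. `nb`: let `v.1 ∉ K`. By `H.unk` the `S`-neighbours of `v` are
`flip v` and the outer partner; there are exactly two of them (`H.deg`), so `I.outer v = some o` with `o ≠ flip v`; both are cyclic neighbours of `v` in its list.
-/

set_option autoImplicit false

namespace Pool.Agent.H38H

open Classical

variable {ι : Type} [Fintype ι] {L : ℕ}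

theorem cst_of_p2 {I : Inst ι L} {h : SB ι} {K : Finset ι} {l0 : ℕ} {S : SimpleGraph (ι × Bool)}
    (H : P2State I h K l0 S) {T : Finset (ι × Bool)} (hT : ∀ x, ∃ t ∈ T, S.Reachable t x) :
    ∃ cs : List (List (ι × Bool)), CSt I h K l0 cs ∧ cs.length ≤ T.card := by
  choose Lf hLnd hL3 hLm hLa using fun v => cyc_list H.deg v
  have hrep : ∀ C : S.ConnectedComponent, ∃ t ∈ T, S.connectedComponentMk t = C := by
    intro C
    induction C using SimpleGraph.ConnectedComponent.ind with
    | h v =>
      obtain ⟨t, ht, hr⟩ := hT v
      exact ⟨t, ht, SimpleGraph.ConnectedComponent.eq.2 hr⟩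
  choose rep hrT hrC using hrep
  have hinj : Function.Injective rep := by
    intro C C' hCC
    rw [← hrC C, ← hrC C', hCC]
  have hmem : ∀ C v, v ∈ Lf (rep C) ↔ S.connectedComponentMk v = C := by
    intro C v
    rw [hLm, ← SimpleGraph.ConnectedComponent.eq, hrC]
    exact eq_comm
  have hcs : ∀ C, Lf (rep C) ∈
      (Finset.univ : Finset S.ConnectedComponent).toList.map (fun C => Lf (rep C)) := by
    intro C
    exact List.mem_map.2 ⟨C, Finset.mem_toList.2 (Finset.mem_univ _), rfl⟩
  have hadj : ∀ a b, S.Adj a b → ∃ c ∈
      (Finset.univ : Finset S.ConnectedComponent).toList.map (fun C => Lf (rep C)),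
      CAdj c a b := by
    intro a b hab
    refine ⟨_, hcs (S.connectedComponentMk a), ?_⟩
    exact (hLa _ a ((hmem _ _).2 rfl) b).2 hab
  refine ⟨(Finset.univ : Finset S.ConnectedComponent).toList.map (fun C => Lf (rep C)),
    ⟨?_, ?_, ?_, ?_, ?_, ?_⟩, ?_⟩
  · rw [List.nodup_flatten]
    refine ⟨?_, ?_⟩
    · intro l hl
      obtain ⟨C, -, rfl⟩ := List.mem_map.1 hl
      exact hLnd _
    · rw [List.pairwise_map]
      refine List.Pairwise.imp ?_ (Finset.nodup_toList (Finset.univ : Finset S.ConnectedComponent))
      intro C C' hne v hv hv'
      exact hne (((hmem _ _).1 hv).symm.trans ((hmem _ _).1 hv'))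
  · intro v
    rw [List.mem_flatten]
    exact ⟨_, hcs (S.connectedComponentMk v), (hmem _ _).2 rfl⟩
  · intro c hc
    obtain ⟨C, -, rfl⟩ := List.mem_map.1 hc
    refine (H.big (rep C)).trans (le_of_eq ?_)
    rw [Nat.card_eq_fintype_card, Fintype.card_subtype, ← List.toFinset_card_of_nodup (hLnd _)]
    congr 1
    ext y
    rw [Finset.mem_filter, List.mem_toFinset, hLm]
    simp
  · intro c hc a b hab
    obtain ⟨C, -, rfl⟩ := List.mem_map.1 hc
    exact H.adj a b ((hLa _ a (cadj_mem hab).1 b).1 hab)
  · intro a ha
    exact hadj a _ (H.mid a ha)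
  · intro v hv
    have h2 := H.deg v
    have h3 : S.neighborSet v = {y | y = flip v ∨ I.outer v = some y} := by
      ext y
      exact H.unk v y hv
    rw [h3] at h2
    cases ho : I.outer v with
    | none =>
      exfalso
      rw [ho] at h2
      have h4 : {y | y = flip v ∨ (none : Option (ι × Bool)) = some y} = {flip v} := by
        ext y
        simp
      rw [h4, Set.ncard_singleton] at h2
      omega
    | some o =>
      refine ⟨o, rfl, ?_, hadj _ _ ((H.unk v _ hv).2 (Or.inl rfl)),
        hadj _ _ ((H.unk v _ hv).2 (Or.inr ho))⟩
      intro h5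
      rw [ho, h5] at h2
      have h4 : {y | y = flip v ∨ some (flip v) = some y} = {flip v} := by
        ext y
        simp only [Set.mem_setOf_eq, Option.some.injEq, Set.mem_singleton_iff]
        constructor
        · rintro (h6 | h6)
          · exact h6
          · exact h6.symm
        · exact Or.inl
      rw [h4, Set.ncard_singleton] at h2
      omega
  · rw [List.length_map, Finset.length_toList]
    exact Finset.card_le_card_of_injOn rep (fun C _ => hrT C) hinj.injOn

end Pool.Agent.H38H
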