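import Pool.Agent.Lib.H38H.Q.D
import Pool.Agent.Lib.H38H.Q.Q2
import Pool.Agent.Lib.H38H.Q.Q16

/-!
Chunk SLQ21 (M). One cyclic list is a Hamilton cycle.

Proof. `cs` is not empty (`H.full` and `Nonempty ι`), so `cs = [c]`, `c.Nodup`, `c` contains all positions, `c.length ≥ 3`. Let `S.Adj a b ↔ CAdj c a b` (symmetric by `cadj_symm`, irreflexive by `cadj_two`). `neighborSet x = {p, q}` by `cadj_two`, so `ncard = 2`. Connected: all elements of a list are connected to its head by
induction along the list (`LAdj`). `adj`: `H.adj`, `mid`: `H.mid`.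
-/

set_option autoImplicit false

namespace Pool.Agent.H38H

open Classical

variable {ι : Type} [Fintype ι] {L : ℕ}

theorem slq21_reach {α : Type} (S : SimpleGraph α) : ∀ (l : List α),
    (∀ a b, LAdj l a b → S.Adj a b) → ∀ x, l.head? = some x → ∀ a ∈ l, S.Reachable x a
  | [], _, x, hx, a, ha => by simp at ha
  | y :: l, hl, x, hx, a, ha => by
    have hxy : y = x := by simpa using hx
    subst hxy
    rcases List.mem_cons.1 ha with rfl | ha
    · exact SimpleGraph.Reachable.refl _
    · cases l with
      | nil => simp at ha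
      | cons z l =>
        have h1 : S.Adj y z := hl y z ⟨[], l, Or.inl rfl⟩
        exact h1.reachable.trans (slq21_reach S (z :: l)
          (fun a b h => hl a b (ladj_cons.2 (Or.inl h))) z rfl a ha)

theorem ham_of_one [Nonempty ι] {I : Inst ι L} {h : SB ι} {K : Finset ι} {l0 : ℕ} {cs : List (List (ι × Bool))}
    (H : CSt I h K l0 cs) (h3 : 3 ≤ l0) (h1 : cs.length ≤ 1) : I.HAM h := by
  obtain ⟨i0⟩ := (inferInstance : Nonempty ι)
  obtain ⟨c, rfl⟩ : ∃ c, cs = [c] := by
    match cs, h1, H with
    | [], _, H => exact absurd (H.full (i0, true)) (by simp)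
    | [c], _, _ => exact ⟨c, rfl⟩
    | _ :: _ :: _, h1, _ => simp at h1
  have hnd : c.Nodup := by
    have := H.nodup
    rwa [List.flatten_cons, List.flatten_nil, List.append_nil] at this
  have hfull : ∀ v, v ∈ c := by
    intro v
    have := H.full v
    rwa [List.flatten_cons, List.flatten_nil, List.append_nil] at this
  have hlen : 3 ≤ c.length := h3.trans (H.big c (List.mem_singleton.2 rfl))
  let S : SimpleGraph (ι × Bool) :=
    { Adj := fun a b => CAdj c a b
      symm := ⟨fun a b hab => cadj_symm hab⟩
      loopless := ⟨fun a ha => by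
        obtain ⟨p, q, hpq, hpa, hqa, hb⟩ := cadj_two hnd hlen (hfull a)
        rcases (hb a).1 ha with h2 | h2
        · exact hpa h2.symm
        · exact hqa h2.symm⟩ }
  refine ⟨S, fun x => ?_, ?_, fun x y hxy => H.adj c (List.mem_singleton.2 rfl) x y hxy,
    fun x hx => ?_⟩
  · obtain ⟨p, q, hpq, hpa, hqa, hb⟩ := cadj_two hnd hlen (hfull x)
    have h2 : S.neighborSet x = {p, q} := by
      ext b
      exact hb b
    rw [h2]
    exact Set.ncard_pair hpq
  · obtain ⟨z, hz⟩ : ∃ z, c.head? = some z := by
      cases c with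
      | nil => simp at hlen
      | cons z c => exact ⟨z, rfl⟩
    have hr : ∀ a, S.Reachable z a := fun a =>
      slq21_reach S c (fun a b hab => Or.inl hab) z hz a (hfull a)
    haveI : Nonempty (ι × Bool) := ⟨(i0, true)⟩
    exact SimpleGraph.Connected.mk fun a b => (hr a).symm.trans (hr b)
  · obtain ⟨c', hc', h2⟩ := H.mid x hx
    rw [List.mem_singleton] at hc'
    rw [hc'] at h2
    exact h2

end Pool.Agent.H38H
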