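import Pool.Agent.Lib.H38H.Q.Q14
import Pool.Agent.Lib.H38H.Q.Q15
import Pool.Agent.Lib.H38H.Q.Q17
import Pool.Agent.Lib.H38H.Q.Q18

/-!
Chunk SLQ22 (M). One attempt.

Proof. `init_exists` gives `x0, y0, s0`; `V = qV E s0`, `Vf = qVf s0`; `Pot2` by `pot2`, `V [] [] = 0.6` by `qV_init`. Success at `h' ∈ cyl K h`: `att_facts` gives `mx, my`. `qVf_pos` gives `s` with `runY (runX s0 mx) my = some s`, `s.k = []`, `s.mg = true`. `QGood I h' s0`: `s0.Adj a b → PAdj h' a b` by `CSt.congr` for `h'`;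
`mid`: for `kind ≠ c` some list `c` has `CAdj c a (flip a)`, and `{a, flip a} ≠ {x0, y0}` as `x0.1 ≠ y0.1`. `run_inv` with `T = attR ..` (`K ⊆ attR`: `att_stop`), `run_good`, `padj_of_clo` and `close_cst` (with `l0 ≤ s0.l.length ≤ s.l.length + s.k.length = s.l.length` and `s.J ⊆ s0.J ⊆ cs` by `run_more`) give
`CSt I h' (attR ..) l0 (s.l :: s.J)`; the number of lists is `s.J.length + 1 ≤ s0.J.length = cs.length - 1` (`run_more`: `s.J.length + 1 ≤ s0.J.length + 0`).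
-/

set_option autoImplicit false

namespace Pool.Agent.H38H

open Classical

variable {ι : Type} [Fintype ι] {L : ℕ}

/-- size conditions of Phase 2 which hold as long as `K` is small -/
structure SizeOK (ι : Type) [Fintype ι] (L D E l0 κ : ℕ) (eps : ℝ) : Prop where
  l3 : 3 ≤ l0
  hl : 4 * κ < l0
  E1 : 1 ≤ E
  hEn : 1000 * E ≤ Fintype.card ι
  hE : κ + 12 * 2 ^ D + 2 * L + 3 ≤ E
  hn : 10 * (κ + 12 * 2 ^ D + L + 10) ≤ Fintype.card ι
  e0 : 0 ≤ eps
  e1 : eps ≤ 1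
  heps : 8 * ((D : ℝ) + 2) * (κ + 12 * 2 ^ D + L + 1) ≤ eps * Fintype.card ι
  hD : 4 ^ D ≤ Fintype.card ι

theorem attempt {I : Inst ι L} {h : SB ι} {K : Finset ι} {D E l0 κ : ℕ} {eps : ℝ}
    (ok : SizeOK ι L D E l0 κ eps) {cs : List (List (ι × Bool))} (H : CSt I h K l0 cs) (h2 : 2 ≤ cs.length)
    (hK : K.card ≤ κ) :
    ∃ (x0 y0 : ι × Bool) (V Vf : List (Mv ι) → List (Mv ι) → ℝ), AttOK I ∅ K x0 y0 D E eps ∧
      Pot2 I K x0 y0 E 0.79 0.4 V Vf ∧ V [] [] = 0.6 ∧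
      ∀ h' ∈ cyl K h, Succ I ∅ K x0 y0 D Vf h' →
        ∃ cs' : List (List (ι × Bool)), cs'.length + 1 ≤ cs.length ∧
          CSt I h' (attR I ∅ K x0 y0 D h') l0 cs' := by
  have hl : 4 * K.card < l0 := lt_of_le_of_lt (Nat.mul_le_mul_left 4 hK) ok.hl
  obtain ⟨x0, y0, s0, hx, hy, hxy, hk, hm, H0, hJ1, hJ2, hl0, hAdj⟩ := init_exists H h2 ok.l3 hl
  have aok : AttOK I ∅ K x0 y0 D E eps := by
    refine ⟨hx, hy, hxy, ?_, ?_, ok.e0, ok.e1, ?_⟩
    · have := ok.hE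
      rw [Finset.card_empty]
      omega
    · have := ok.hn
      omega
    · refine le_trans ?_ ok.heps
      have h1 : (K.card : ℝ) ≤ κ := by exact_mod_cast hK
      have h3 : (0 : ℝ) ≤ 8 * ((D : ℝ) + 2) := by positivity
      refine mul_le_mul_of_nonneg_left ?_ h3
      linarith
  refine ⟨x0, y0, qV E s0, qVf s0, aok, pot2 H0 ok.E1 ok.hEn, qV_init hk hm, ?_⟩
  intro h' hh' hs
  obtain ⟨mx, my, tx, ty, cx, cy, -, -, hnd, hT, -, -, hpos, hclo⟩ := att_facts aok hs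
  obtain ⟨s, hrun, hsk, hsm⟩ := qVf_pos hpos
  have H' := H.congr ok.l3 hh'
  have G0 : QGood I h' s0 := by
    refine ⟨?_, ?_⟩
    · intro a b hab
      obtain ⟨⟨c, hc, hcab⟩, -, -⟩ := (hAdj a b).1 hab
      exact H'.adj c hc a b hcab
    · intro a ha
      refine (hAdj a (flip a)).2 ⟨H'.mid a ha, ?_, ?_⟩
      · rintro ⟨h5, h6⟩
        apply hxy
        rw [← h5, ← h6]
        rfl
      · rintro ⟨h5, h6⟩
        apply hxy
        rw [← h5, ← h6]
        rfl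
  have hKR : K ⊆ attR I ∅ K x0 y0 D h' := (att_stop aok h').1 h' (self_mem_cyl _ _)
  have HI := run_inv H0 hrun hKR hT
  have HG := run_good H0 G0 tx ty cx cy hnd hrun
  obtain ⟨m1, m2, m3⟩ := run_more hrun
  have hlen : l0 ≤ s.l.length := by
    rw [hsk, List.length_nil] at m3
    omega
  refine ⟨s.l :: s.J, ?_, close_cst HI HG hsk (padj_of_clo hclo) hlen ?_⟩
  · rw [hsm, hm] at m2
    simp only [if_true, Bool.false_eq_true, if_false] at m2
    rw [List.length_cons]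
    omega
  · intro c hc
    exact H.big c (hJ2 c (m1 c hc))

end Pool.Agent.H38H
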