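import Pool.Agent.Lib.H38H.Q.Q21
import Pool.Agent.Lib.H38H.Q.Q22

/-!
Chunk SLQ23 (M). Induction over attempts and merges.

`pS` is the lower bound of the success probability of one attempt. `one_attempt`: `attempt`, `two_sided` (with `lam = 0.79`, `lamf = 0.4`, `V [] [] = 0.6`) and `att_prob1`.
`merge_ind`: induction on `m`, inside it induction on `a`, for all `K, h, cs`. Write `f h' = if I.HAM h' then 0 else 1`. If `cs.length ≤ 1` then `f h' = 0` for all `h' ∈ cyl K h` (`CSt.congr`, `ham_of_one`), so the average is 0. Let `cs.length ≥ 2`. If `a = 0`: the average is at most 1.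
`a + 1`: take `one_attempt`, `R = attR ..`. By `avg_tower` (`att_stop`) `avg K h f = avg K h (fun h' => avg (R h') h' f)`. Let `h' ∈ cyl K h`. `|R h'| ≤ |K| + 10 * 2^D` (`att_card`). If `Succ h'` then there is `cs'` with at most `m + 1` lists for `(h', R h')`: if `m = 0` then
`avg (R h') h' f = 0` (as above with `cs'.length ≤ 1`); if `m = m' + 1` the induction hypothesis for `m'` with `a := M` gives `avg (R h') h' f ≤ (1-p)^M + m' (1-p)^M = m (1-p)^M` (the budget is fine: `|R h'| + (M + m' M) * 10 * 2^D ≤ |K| + (1 + m M) * 10 * 2^D`). If not `Succ h'`: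
`CSt I h' (R h') l0 cs` (`CSt.congr`, `CSt.mono`, `K ⊆ R h'`), and the induction hypothesis for `a` gives `≤ (1-p)^a + m (1-p)^M`. So `avg K h f ≤ m (1-p)^M + (1-p)^a * avg (indicator of not Succ) ≤ m (1-p)^M + (1-p)^a (1-p)`
(`avg (indicator of not Succ) = 1 - avg (indicator of Succ) ≤ 1 - p`; here `0 ≤ 1 - p`).
-/

set_option autoImplicit false

namespace Pool.Agent.H38H

open Classical

variable {ι : Type} [Fintype ι] {L : ℕ}

/-- lower bound of the success probability -/
noncomputable def pS (n D : ℕ) (eps : ℝ) : ℝ :=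
  ((1 - 4 / (n : ℝ)) ^ (4 * 2 ^ D) * (1 - eps) * (2 * 0.79 * (1 - eps)) ^ D) ^ 2 * (0.79 * 0.4) * 0.6 / (8 * n)

theorem one_attempt {I : Inst ι L} {h : SB ι} {K : Finset ι} {D E l0 κ : ℕ} {eps : ℝ}
    (ok : SizeOK ι L D E l0 κ eps) {cs : List (List (ι × Bool))} (H : CSt I h K l0 cs) (h2 : 2 ≤ cs.length)
    (hK : K.card ≤ κ) :
    ∃ (x0 y0 : ι × Bool) (Vf : List (Mv ι) → List (Mv ι) → ℝ), AttOK I ∅ K x0 y0 D E eps ∧
      pS (Fintype.card ι) D eps ≤ avg K h (fun h' => if Succ I ∅ K x0 y0 D Vf h' then 1 else 0) ∧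
      ∀ h' ∈ cyl K h, Succ I ∅ K x0 y0 D Vf h' →
        ∃ cs' : List (List (ι × Bool)), cs'.length + 1 ≤ cs.length ∧
          CSt I h' (attR I ∅ K x0 y0 D h') l0 cs' := by
  obtain ⟨x0, y0, V, Vf, aok, pot, hV, hs⟩ := attempt ok H h2 hK
  refine ⟨x0, y0, Vf, aok, ?_, hs⟩
  have h3 := two_sided aok h (by norm_num : (0 : ℝ) ≤ 0.79) (by norm_num : (0 : ℝ) ≤ 0.4) pot
  have h4 := att_prob1 aok h (by have := ok.hn; omega) pot.nnf pot.lef ok.hD
  rw [hV] at h3
  refine le_trans ?_ h4
  unfold pS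
  exact div_le_div_of_nonneg_right h3 (by positivity)

theorem slq23_one {I : Inst ι L} {D E l0 κ : ℕ} {eps : ℝ} (ok : SizeOK ι L D E l0 κ eps)
    {h : SB ι} {K : Finset ι} {cs : List (List (ι × Bool))} (H : CSt I h K l0 cs) (h1 : cs.length ≤ 1) :
    avg K h (fun h' => if I.HAM h' then (0 : ℝ) else 1) = 0 := by
  have hne : Nonempty ι := by
    apply Fintype.card_pos_iff.1
    have := ok.hEn
    have := ok.E1
    omega
  have h2 : avg K h (fun h' => if I.HAM h' then (0 : ℝ) else 1) = avg K h (fun _ => (0 : ℝ)) := by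
    refine avg_congr fun h' hh' => ?_
    rw [if_pos (ham_of_one (H.congr ok.l3 hh') ok.l3 h1)]
  rw [h2, avg_const]

theorem slq23_step {I : Inst ι L} {D E l0 κ M : ℕ} {eps p : ℝ} (ok : SizeOK ι L D E l0 κ eps)
    (hp : p ≤ pS (Fintype.card ι) D eps) (hp1 : p ≤ 1) (m : ℕ)
    (hm : ∀ (h : SB ι) (K : Finset ι) (cs : List (List (ι × Bool))), CSt I h K l0 cs → cs.length ≤ m + 1 →
      K.card + (m * M) * (10 * 2 ^ D) ≤ κ →
      avg K h (fun h' => if I.HAM h' then 0 else 1) ≤ m * (1 - p) ^ M) : ∀ (a : ℕ) (h : SB ι) (K : Finset ι)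
    (cs : List (List (ι × Bool))), CSt I h K l0 cs → cs.length ≤ m + 2 →
    K.card + (a + m * M) * (10 * 2 ^ D) ≤ κ →
    avg K h (fun h' => if I.HAM h' then 0 else 1) ≤ (1 - p) ^ a + m * (1 - p) ^ M := by
  have hq : 0 ≤ 1 - p := by linarith
  intro a
  induction a with
  | zero =>
    intro h K cs H hcs hb
    have h1 : avg K h (fun h' => if I.HAM h' then (0 : ℝ) else 1) ≤ avg K h (fun _ => (1 : ℝ)) := by
      refine avg_mono fun h' _ => ?_
      split_ifs
      · exact zero_le_one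
      · exact le_refl _
    rw [avg_const] at h1
    have h2 : 0 ≤ (m : ℝ) * (1 - p) ^ M := by positivity
    rw [pow_zero]
    linarith
  | succ a ih =>
    intro h K cs H hcs hb
    by_cases h1 : cs.length ≤ 1
    · rw [slq23_one ok H h1]
      positivity
    · have hBpos : K.card ≤ κ := le_trans (Nat.le_add_right _ _) hb
      obtain ⟨x0, y0, Vf, aok, hpr, hs⟩ := one_attempt ok H (by omega) hBpos
      rw [avg_tower (att_stop aok h)]
      have key : ∀ h' ∈ cyl K h, avg (attR I ∅ K x0 y0 D h') h' (fun h' => if I.HAM h' then (0 : ℝ) else 1) ≤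
          (m * (1 - p) ^ M + (1 - p) ^ a) + (-(1 - p) ^ a) * (if Succ I ∅ K x0 y0 D Vf h' then 1 else 0) := by
        intro h' hh'
        have hc := att_card aok h'
        by_cases hS : Succ I ∅ K x0 y0 D Vf h'
        · obtain ⟨cs', hl, H'⟩ := hs h' hh' hS
          rw [if_pos hS]
          have h3 := hm h' (attR I ∅ K x0 y0 D h') cs' H' (by omega) (by
            have e : (a + 1 + m * M) * (10 * 2 ^ D) = a * (10 * 2 ^ D) + 10 * 2 ^ D + (m * M) * (10 * 2 ^ D) := by
              ring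
            rw [e] at hb
            have : 0 ≤ a * (10 * 2 ^ D) := Nat.zero_le _
            omega)
          linarith
        · rw [if_neg hS]
          have h3 := ih h' (attR I ∅ K x0 y0 D h') cs
            ((H.congr ok.l3 hh').mono ((att_stop aok h).1 h' hh')) hcs (by
            have e : (a + 1 + m * M) * (10 * 2 ^ D) = 10 * 2 ^ D + (a + m * M) * (10 * 2 ^ D) := by
              ring
            rw [e] at hb
            omega)
          linarith
      have h4 := avg_mono key
      have h5 : avg K h (fun h' => (m * (1 - p) ^ M + (1 - p) ^ a) + (-(1 - p) ^ a) * (if Succ I ∅ K x0 y0 D Vf h' then 1 else 0)) =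
          (m * (1 - p) ^ M + (1 - p) ^ a) + (-(1 - p) ^ a) * avg K h (fun h' => if Succ I ∅ K x0 y0 D Vf h' then 1 else 0) := by
        rw [avg_add, avg_const, avg_smul]
      rw [h5] at h4
      have h6 : p ≤ avg K h (fun h' => if Succ I ∅ K x0 y0 D Vf h' then 1 else 0) := hp.trans hpr
      have h7 : 0 ≤ (1 - p) ^ a := by positivity
      have h8 := mul_le_mul_of_nonneg_left h6 h7
      have h9 : (1 - p) ^ (a + 1) = (1 - p) ^ a - (1 - p) ^ a * p := by ring
      rw [h9]
      linarith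

theorem merge_ind {I : Inst ι L} {D E l0 κ M : ℕ} {eps p : ℝ} (ok : SizeOK ι L D E l0 κ eps)
    (hp : p ≤ pS (Fintype.card ι) D eps) (hp1 : p ≤ 1) (m : ℕ) : ∀ (a : ℕ) (h : SB ι) (K : Finset ι)
    (cs : List (List (ι × Bool))), CSt I h K l0 cs → cs.length ≤ m + 2 →
    K.card + (a + m * M) * (10 * 2 ^ D) ≤ κ →
    avg K h (fun h' => if I.HAM h' then 0 else 1) ≤ (1 - p) ^ a + m * (1 - p) ^ M := by
  induction m with
  | zero =>
    refine slq23_step ok hp hp1 0 ?_
    intro h K cs H hcs _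
    rw [slq23_one ok H (by omega)]
    simp
  | succ m ih =>
    refine slq23_step ok hp hp1 (m + 1) ?_
    intro h K cs H hcs hb
    have h1 := ih M h K cs H (by omega) (by
      have e : (m + 1) * M * (10 * 2 ^ D) = (M + m * M) * (10 * 2 ^ D) := by ring
      rw [e] at hb
      exact hb)
    have e : ((m + 1 : ℕ) : ℝ) * (1 - p) ^ M = (1 - p) ^ M + m * (1 - p) ^ M := by
      push_cast
      ring
    rw [e]
    exact h1

end Pool.Agent.H38H
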