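import Pool.Agent.Lib.H38H.Q.Q23

/-!
Chunk SLQ24 (M/L). The numbers of Phase 2. `g = gg n`, `D = Nat.log 2 (g^300)`, `E = g^940`, `l0 = g^950`, `κ = g^930`, `eps = 1/g`, `M = g^614`.

Facts: `2^D ≤ g^300 < 2^(D+1)` (`Nat.pow_log_le_self`, `Nat.lt_pow_succ_log_self`), `g^1000 ≤ n ≤ 2 g^1000` (`gg_le`, `n_le`), `g` is as large as we like (`gg_tendsto`), `L ≤ (log n)^3 ≤ g` (`log_le_gg` with `C = 1`, `k = 3`),
`D ≤ 2 * 300 * log g ≤ g / 100` for large `g` (or `D ≤ log_2 (g^300)`, `D^2 ≤ g` etc. by `log_le_gg`, as `2^D ≤ g^300 ≤ n` gives `D ≤ 2 log n`).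
`size_ok`: every condition compares a power of `g` with exponent at most 931 (times a constant) with `g^940`, `g^950`, `g^999`, `n ≥ g^1000`. For `heps`: `8 (D+2)(κ + 12*2^D + L + 1) ≤ g * g * 4 g^930 ≤ g^999 ≤ eps * n`. `hD`: `4^D = (2^D)^2 ≤ g^600`.
`pS_ge`: Bernoulli: `(1 - 4/n)^(4*2^D) ≥ 1 - 16 * 2^D / n ≥ 1/2`, `(1 - eps)^(D+1) ≥ 1 - (D+1)/g ≥ 1/2`, so `pS ≥ (1/4)^2 * (1.58^D)^2 * 0.316 * 0.6 / (8 n) ≥ (1/1000) * (2.4964)^D / n`. `2.4964^10 ≥ 2^13` (numbers: `2.4964^10 > 9400 > 8192`), so `2.4964^D ≥ 2^(1.3 D)`: in integers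
`(2.4964^D)^10 ≥ (2^D)^13 ≥ (g^300/2)^13`, i.e. `2.4964^D ≥ g^390 / 2^1.3 ≥ g^390/3`. So `pS ≥ g^390/(3000 * 2 * g^1000) ≥ g^(-611)` for `g ≥ 6000`. `merge_bound`: `(1-p)^M ≤ exp(-p M) ≤ exp(-g)` for `p = 1/g^612`, `M = g^614`, `p M = g^2 ≥ g`. `budget`: `g^900 + (M + g * M) * 10 * 2^D ≤ g^900 + 20 g^615 g^300 ≤ g^930`.
-/

set_option autoImplicit false

namespace Pool.Agent.H38H

open Classical

/-- all facts about the size of `g` used below -/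
theorem slq24_facts : ∃ n₀ : ℕ, ∀ n : ℕ, n₀ ≤ n → 2000 ≤ gg n ∧ gg n ^ 1000 ≤ n ∧ n ≤ 2 * gg n ^ 1000 ∧
    2 ^ Nat.log 2 (gg n ^ 300) ≤ gg n ^ 300 ∧ gg n ^ 300 < 2 * 2 ^ Nat.log 2 (gg n ^ 300) ∧
    2 * (Nat.log 2 (gg n ^ 300) + 2) ≤ gg n ∧ (Real.log n) ^ 3 ≤ gg n := by
  obtain ⟨n1, h1⟩ := gg_tendsto 2000
  obtain ⟨n2, h2⟩ := n_le
  obtain ⟨n3, h3⟩ := log_le_gg 1 3
  obtain ⟨n4, h4⟩ := log_le_gg 20 1
  refine ⟨max (max n1 n2) (max n3 (max n4 3)), fun n hn => ?_⟩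
  have hn1 : n1 ≤ n := le_trans (le_trans (le_max_left _ _) (le_max_left _ _)) hn
  have hn2 : n2 ≤ n := le_trans (le_trans (le_max_right _ _) (le_max_left _ _)) hn
  have hn3 : n3 ≤ n := le_trans (le_trans (le_max_left _ _) (le_max_right _ _)) hn
  have hn4' : max n4 3 ≤ n := le_trans (le_trans (le_max_right _ _) (le_max_right _ _)) hn
  have hn4 : n4 ≤ n := le_trans (le_max_left _ _) hn4'
  have hn5 : 3 ≤ n := le_trans (le_max_right _ _) hn4'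
  have hg := h1 n hn1
  have hgn := gg_le n (by omega)
  have h30 : gg n ^ 300 ≠ 0 := pow_ne_zero _ (by omega)
  have hp1 := Nat.pow_log_le_self 2 h30
  have hp2 := Nat.lt_pow_succ_log_self (show 1 < 2 by norm_num) (gg n ^ 300)
  have h3' := h3 n hn3
  have h4' := h4 n hn4
  rw [one_mul] at h3'
  rw [pow_one] at h4'
  refine ⟨hg, hgn, h2 n hn2, hp1, ?_, ?_, h3'⟩
  · have e1 : 2 ^ (Nat.log 2 (gg n ^ 300)).succ = 2 * 2 ^ Nat.log 2 (gg n ^ 300) := pow_succ' 2 _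
    rw [← e1]
    exact hp2
  · have h5 : 2 ^ Nat.log 2 (gg n ^ 300) ≤ n :=
      hp1.trans ((Nat.pow_le_pow_right (by omega) (by norm_num)).trans hgn)
    obtain ⟨D, hD⟩ : ∃ D, D = Nat.log 2 (gg n ^ 300) := ⟨_, rfl⟩
    rw [← hD] at h5 ⊢
    have h6 : ((2 : ℝ) ^ D) ≤ n := by exact_mod_cast h5
    have h7 : (D : ℝ) * Real.log 2 ≤ Real.log n := by
      rw [← Real.log_pow]
      exact Real.log_le_log (by positivity) h6
    have h8 : (1 / 2 : ℝ) ≤ Real.log 2 := by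
      have := Real.log_two_gt_d9
      linarith
    have h9 : (1 : ℝ) ≤ Real.log n := by
      rw [Real.le_log_iff_exp_le (by positivity)]
      have h10 := Real.exp_one_lt_d9
      have h11 : (3 : ℝ) ≤ n := by exact_mod_cast hn5
      linarith
    have h12 : (D : ℝ) * (1 / 2) ≤ (D : ℝ) * Real.log 2 :=
      mul_le_mul_of_nonneg_left h8 (Nat.cast_nonneg _)
    have h13 : (2 * ((D : ℝ) + 2)) ≤ gg n := by linarith
    exact_mod_cast h13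

theorem slq24_mul {g a b : ℕ} (hg : 1 ≤ g) (h : a + 1 ≤ b) : g * g ^ a ≤ g ^ b := by
  rw [← pow_succ']
  exact Nat.pow_le_pow_right hg h

theorem size_ok : ∃ n₀ : ℕ, ∀ n : ℕ, n₀ ≤ n → ∀ L : ℕ, (L : ℝ) ≤ (Real.log n) ^ 3 →
    ∀ (ι : Type) [Fintype ι], Fintype.card ι = n →
      SizeOK ι L (Nat.log 2 (gg n ^ 300)) (gg n ^ 940) (gg n ^ 950) (gg n ^ 930) (1 / (gg n : ℝ)) := by
  obtain ⟨n₀, h⟩ := slq24_facts
  refine ⟨n₀, fun n hn L hL ι _ hι => ?_⟩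
  obtain ⟨f1, f2, f3, f4, f5, f6, f7⟩ := h n hn
  have hLg : L ≤ gg n := by
    have : (L : ℝ) ≤ gg n := hL.trans f7
    exact_mod_cast this
  generalize gg n = g at *
  generalize Nat.log 2 (g ^ 300) = D at *
  have hg1 : 1 ≤ g := by omega
  have a1 : g ^ 300 ≤ g ^ 930 := Nat.pow_le_pow_right hg1 (by norm_num)
  have a2 : g * g ^ 0 ≤ g ^ 930 := slq24_mul hg1 (by norm_num)
  have a3 : g * g ^ 930 ≤ g ^ 940 := slq24_mul hg1 (by norm_num)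
  have a4 : g * g ^ 930 ≤ g ^ 950 := slq24_mul hg1 (by norm_num)
  have a5 : g * g ^ 940 ≤ g ^ 1000 := slq24_mul hg1 (by norm_num)
  have a6 : g * g ^ 930 ≤ g ^ 1000 := slq24_mul hg1 (by norm_num)
  have a7 : g * g ^ 931 ≤ g ^ 999 := slq24_mul hg1 (by norm_num)
  have a8 : g * g ^ 930 ≤ g ^ 931 := slq24_mul hg1 (by norm_num)
  have a9 : (2 ^ D) ^ 2 ≤ (g ^ 300) ^ 2 := Nat.pow_le_pow_left f4 2
  have a10 : (g ^ 300) ^ 2 ≤ g ^ 1000 := by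
    rw [← pow_mul]
    exact Nat.pow_le_pow_right hg1 (by norm_num)
  have a11 : g * g ^ 999 = g ^ 1000 := by rw [← pow_succ']
  generalize hx : g ^ 930 = x at *
  generalize hE : g ^ 940 = E at *
  generalize hl : g ^ 950 = l at *
  generalize hy : g ^ 931 = y at *
  generalize hz : g ^ 999 = z at *
  generalize hw : g ^ 1000 = w at *
  generalize hq : g ^ 300 = q at *
  generalize hd : 2 ^ D = d at *
  rw [pow_zero, mul_one] at a2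
  have b1 : 2000 * x ≤ g * x := Nat.mul_le_mul_right _ f1
  have b2 : 2000 * E ≤ g * E := Nat.mul_le_mul_right _ f1
  have b3 : 2000 * y ≤ g * y := Nat.mul_le_mul_right _ f1
  refine ⟨?_, ?_, ?_, ?_, ?_, ?_, ?_, ?_, ?_, ?_⟩
  · omega
  · omega
  · omega
  · rw [hι]; omega
  · rw [hd]; omega
  · rw [hι, hd]; omega
  · positivity
  · rw [div_le_one (by positivity)]
    exact_mod_cast hg1
  · have hgR : (0 : ℝ) < g := by
      have : 0 < g := by omega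
      exact_mod_cast this
    rw [hι, one_div, ← div_eq_inv_mul, le_div_iff₀ hgR]
    have c1 : 8 * (D + 2) * (x + 12 * d + L + 1) * g ≤ n := by
      have c2 : x + 12 * d + L + 1 ≤ 15 * x := by omega
      have c3 : 8 * (D + 2) ≤ 4 * g := by omega
      calc 8 * (D + 2) * (x + 12 * d + L + 1) * g ≤ 4 * g * (15 * x) * g :=
            Nat.mul_le_mul_right _ (Nat.mul_le_mul c3 c2)
        _ = 60 * (g * x) * g := by ring
        _ ≤ 60 * y * g := Nat.mul_le_mul_right _ (Nat.mul_le_mul_left _ a8)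
        _ ≤ (g * y) * g := Nat.mul_le_mul_right _ (by omega)
        _ ≤ z * g := Nat.mul_le_mul_right _ a7
        _ = w := by rw [mul_comm]; exact a11
        _ ≤ n := f2
    have c4 : ((8 * (D + 2) * (x + 12 * d + L + 1) * g : ℕ) : ℝ) ≤ (n : ℝ) := by exact_mod_cast c1
    have c5 : ((d : ℕ) : ℝ) = 2 ^ D := by rw [← hd]; push_cast; ring
    have c6 : ((x : ℕ) : ℝ) = (g : ℝ) ^ 930 := by rw [← hx]; push_cast; ring
    push_cast at c4 ⊢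
    rw [c5] at c4
    exact c4
  · rw [hι]
    have : (4 : ℕ) ^ D = (2 ^ D) ^ 2 := by
      rw [← pow_mul, mul_comm, pow_mul]
      norm_num
    rw [this, hd]
    exact a9.trans (a10.trans f2)

theorem slq24_base {D : ℕ} : ((2 : ℝ) ^ D) ^ 13 ≤ ((2.4964 : ℝ) ^ D) ^ 10 := by
  rw [← pow_mul, ← pow_mul, mul_comm D 13, mul_comm D 10, pow_mul, pow_mul]
  exact pow_le_pow_left₀ (by positivity) (by norm_num) D

theorem slq24_big {g D : ℕ} (hg : 2000 ≤ g) (h : g ^ 300 < 2 * 2 ^ D) :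
    1400 * (g : ℝ) ^ 388 ≤ (2.4964 : ℝ) ^ D := by
  have hg0 : (0 : ℝ) ≤ (g : ℝ) := Nat.cast_nonneg _
  have hgR : (2000 : ℝ) ≤ (g : ℝ) := by exact_mod_cast hg
  have hR : (g : ℝ) ^ 300 ≤ 2 * 2 ^ D := by
    have : ((g ^ 300 : ℕ) : ℝ) ≤ ((2 * 2 ^ D : ℕ) : ℝ) := by exact_mod_cast h.le
    push_cast at this
    exact this
  have h1 : ((g : ℝ) ^ 300) ^ 13 ≤ (2 * 2 ^ D) ^ 13 := pow_le_pow_left₀ (by positivity) hR 13
  have h2 : (1400 * (g : ℝ) ^ 388) ^ 10 ≤ ((2.4964 : ℝ) ^ D) ^ 10 := by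
    refine le_trans ?_ slq24_base
    have e1 : (1400 * (g : ℝ) ^ 388) ^ 10 = 1400 ^ 10 * (g : ℝ) ^ 3880 := by
      rw [mul_pow, ← pow_mul]
    have e2 : ((g : ℝ) ^ 300) ^ 13 = (g : ℝ) ^ 3880 * (g : ℝ) ^ 20 := by
      rw [← pow_mul, ← pow_add]
    have e3 : (2000 : ℝ) ^ 20 ≤ (g : ℝ) ^ 20 := pow_le_pow_left₀ (by norm_num) hgR 20
    have e4 : (2 * (2 : ℝ) ^ D) ^ 13 = 8192 * ((2 : ℝ) ^ D) ^ 13 := by
      rw [mul_pow]
      norm_num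
    rw [e2, e4] at h1
    rw [e1]
    have e5 : (0 : ℝ) ≤ (g : ℝ) ^ 3880 := by positivity
    have e6 : (g : ℝ) ^ 3880 * (2000 : ℝ) ^ 20 ≤ (g : ℝ) ^ 3880 * (g : ℝ) ^ 20 :=
      mul_le_mul_of_nonneg_left e3 e5
    have e7 : (8192 : ℝ) * 1400 ^ 10 ≤ 2000 ^ 20 := by norm_num
    have e8 : (g : ℝ) ^ 3880 * (8192 * 1400 ^ 10) ≤ (g : ℝ) ^ 3880 * 2000 ^ 20 :=
      mul_le_mul_of_nonneg_left e7 e5
    have e9 : 8192 * (1400 ^ 10 * (g : ℝ) ^ 3880) ≤ 8192 * ((2 : ℝ) ^ D) ^ 13 := by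
      calc 8192 * (1400 ^ 10 * (g : ℝ) ^ 3880) = (g : ℝ) ^ 3880 * (8192 * 1400 ^ 10) := by ring
        _ ≤ _ := e8.trans (e6.trans h1)
    linarith
  exact le_of_pow_le_pow_left₀ (by norm_num) (by positivity) h2

theorem pS_ge : ∃ n₀ : ℕ, ∀ n : ℕ, n₀ ≤ n →
    1 / (gg n : ℝ) ^ 612 ≤ pS n (Nat.log 2 (gg n ^ 300)) (1 / (gg n : ℝ)) := by
  obtain ⟨n₀, h⟩ := slq24_facts
  refine ⟨n₀, fun n hn => ?_⟩
  obtain ⟨f1, f2, f3, f4, f5, f6, f7⟩ := h n hn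
  have hbig := slq24_big f1 f5
  generalize gg n = g at *
  generalize Nat.log 2 (g ^ 300) = D at *
  have hgR : (2000 : ℝ) ≤ (g : ℝ) := by exact_mod_cast f1
  have hg0 : (0 : ℝ) < (g : ℝ) := by linarith
  have hg1 : 1 ≤ g := by omega
  have hnR : (g : ℝ) ^ 1000 ≤ n := by exact_mod_cast f2
  have hnR2 : (n : ℝ) ≤ 2 * (g : ℝ) ^ 1000 := by exact_mod_cast f3
  have hn0 : (0 : ℝ) < n := lt_of_lt_of_le (by positivity) hnR
  have hdn : 32 * 2 ^ D ≤ n := by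
    have a1 : g * g ^ 300 ≤ g ^ 1000 := slq24_mul hg1 (by norm_num)
    have a2 : 2000 * g ^ 300 ≤ g * g ^ 300 := Nat.mul_le_mul_right _ f1
    omega
  have hdR : 32 * (2 : ℝ) ^ D ≤ n := by exact_mod_cast hdn
  have hn64 : (4 : ℝ) ≤ n := by
    have : (1 : ℝ) ≤ 2 ^ D := one_le_pow₀ (by norm_num)
    linarith
  have A1 : (1 / 2 : ℝ) ≤ (1 - 4 / (n : ℝ)) ^ (4 * 2 ^ D) := by
    have b1 := one_add_mul_le_pow (show (-2 : ℝ) ≤ -(4 / (n : ℝ)) by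
      rw [neg_le_neg_iff, div_le_iff₀ hn0]
      linarith) (4 * 2 ^ D)
    have b2 : (1 : ℝ) + -(4 / (n : ℝ)) = 1 - 4 / (n : ℝ) := by ring
    rw [b2] at b1
    refine le_trans ?_ b1
    push_cast
    have b3 : (4 * (2 : ℝ) ^ D) * (4 / (n : ℝ)) ≤ 1 / 2 := by
      rw [mul_div_assoc', div_le_iff₀ hn0]
      linarith
    have b4 : (4 * (2 : ℝ) ^ D) * -(4 / (n : ℝ)) = -((4 * (2 : ℝ) ^ D) * (4 / (n : ℝ))) := by ring
    rw [b4]
    linarith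
  have hDg : 2 * ((D : ℝ) + 2) ≤ g := by exact_mod_cast f6
  have B1 : (1 / 2 : ℝ) ≤ (1 - 1 / (g : ℝ)) ^ (D + 1) := by
    have b1 := one_add_mul_le_pow (show (-2 : ℝ) ≤ -(1 / (g : ℝ)) by
      rw [neg_le_neg_iff, div_le_iff₀ hg0]
      linarith) (D + 1)
    have b2 : (1 : ℝ) + -(1 / (g : ℝ)) = 1 - 1 / (g : ℝ) := by ring
    rw [b2] at b1
    refine le_trans ?_ b1
    push_cast
    have b3 : ((D : ℝ) + 1) * (1 / (g : ℝ)) ≤ 1 / 2 := by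
      rw [mul_one_div, div_le_iff₀ hg0]
      linarith
    have b4 : ((D : ℝ) + 1) * -(1 / (g : ℝ)) = -(((D : ℝ) + 1) * (1 / (g : ℝ))) := by ring
    rw [b4]
    linarith
  unfold pS
  have C1 : (1 - 4 / (n : ℝ)) ^ (4 * 2 ^ D) * (1 - 1 / (g : ℝ)) * (2 * 0.79 * (1 - 1 / (g : ℝ))) ^ D =
      (1 - 4 / (n : ℝ)) ^ (4 * 2 ^ D) * (1 - 1 / (g : ℝ)) ^ (D + 1) * (1.58 : ℝ) ^ D := by
    rw [mul_pow, pow_succ]
    norm_num
    ring
  rw [C1]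
  have C2 : (1 / 4 : ℝ) ≤ (1 - 4 / (n : ℝ)) ^ (4 * 2 ^ D) * (1 - 1 / (g : ℝ)) ^ (D + 1) := by
    calc (1 / 4 : ℝ) = (1 / 2) * (1 / 2) := by norm_num
      _ ≤ _ := mul_le_mul A1 B1 (by norm_num) (le_trans (by norm_num) A1)
  have C3 : (1 / 4 : ℝ) * (1.58 : ℝ) ^ D ≤
      (1 - 4 / (n : ℝ)) ^ (4 * 2 ^ D) * (1 - 1 / (g : ℝ)) ^ (D + 1) * (1.58 : ℝ) ^ D :=
    mul_le_mul_of_nonneg_right C2 (by positivity)
  have C4 : ((1 / 4 : ℝ) * (1.58 : ℝ) ^ D) ^ 2 ≤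
      ((1 - 4 / (n : ℝ)) ^ (4 * 2 ^ D) * (1 - 1 / (g : ℝ)) ^ (D + 1) * (1.58 : ℝ) ^ D) ^ 2 :=
    pow_le_pow_left₀ (by positivity) C3 2
  have C5 : ((1 / 4 : ℝ) * (1.58 : ℝ) ^ D) ^ 2 = (1 / 16) * (2.4964 : ℝ) ^ D := by
    rw [mul_pow, ← pow_mul, mul_comm D 2, pow_mul]
    norm_num
  rw [C5] at C4
  have C6 : (1 / 16) * (1400 * (g : ℝ) ^ 388) ≤
      ((1 - 4 / (n : ℝ)) ^ (4 * 2 ^ D) * (1 - 1 / (g : ℝ)) ^ (D + 1) * (1.58 : ℝ) ^ D) ^ 2 := by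
    refine le_trans ?_ C4
    linarith
  rw [le_div_iff₀ (by positivity)]
  have C7 : 1 / (g : ℝ) ^ 612 * (8 * n) ≤ 16 * (g : ℝ) ^ 388 := by
    rw [div_mul_eq_mul_div, one_mul, div_le_iff₀ (by positivity)]
    have : 16 * (g : ℝ) ^ 388 * (g : ℝ) ^ 612 = 16 * (g : ℝ) ^ 1000 := by
      rw [mul_assoc, ← pow_add]
    rw [this]
    linarith
  have C8 : (0 : ℝ) ≤ (g : ℝ) ^ 388 := by positivity
  refine C7.trans ?_
  have C9 : (1 / 16) * (1400 * (g : ℝ) ^ 388) * (0.79 * 0.4) * 0.6 ≤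
      ((1 - 4 / (n : ℝ)) ^ (4 * 2 ^ D) * (1 - 1 / (g : ℝ)) ^ (D + 1) * (1.58 : ℝ) ^ D) ^ 2 *
        (0.79 * 0.4) * 0.6 :=
    mul_le_mul_of_nonneg_right (mul_le_mul_of_nonneg_right C6 (by norm_num)) (by norm_num)
  refine le_trans ?_ C9
  linarith

theorem budget : ∃ n₀ : ℕ, ∀ n : ℕ, n₀ ≤ n →
    gg n ^ 900 + (gg n ^ 614 + gg n * gg n ^ 614) * (10 * 2 ^ Nat.log 2 (gg n ^ 300)) ≤ gg n ^ 930 := by
  obtain ⟨n₀, h⟩ := slq24_facts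
  refine ⟨n₀, fun n hn => ?_⟩
  obtain ⟨f1, f2, f3, f4, f5, f6, f7⟩ := h n hn
  generalize gg n = g at *
  generalize Nat.log 2 (g ^ 300) = D at *
  have hg1 : 1 ≤ g := by omega
  have a1 : g ^ 900 ≤ g ^ 920 := Nat.pow_le_pow_right hg1 (by norm_num)
  have a2 : g ^ 614 + g * g ^ 614 ≤ 2 * g ^ 615 := by
    have b1 : g * g ^ 614 ≤ g ^ 615 := slq24_mul hg1 (by norm_num)
    have b2 : g ^ 614 ≤ g ^ 615 := Nat.pow_le_pow_right hg1 (by norm_num)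
    omega
  have a3 : g ^ 615 * g ^ 300 ≤ g ^ 920 := by
    rw [← pow_add]
    exact Nat.pow_le_pow_right hg1 (by norm_num)
  have a4 : g * g ^ 920 ≤ g ^ 930 := slq24_mul hg1 (by norm_num)
  have a5 : (g ^ 614 + g * g ^ 614) * (10 * 2 ^ D) ≤ 20 * g ^ 920 := by
    calc (g ^ 614 + g * g ^ 614) * (10 * 2 ^ D) ≤ 2 * g ^ 615 * (10 * g ^ 300) :=
          Nat.mul_le_mul a2 (Nat.mul_le_mul_left _ f4)
      _ = 20 * (g ^ 615 * g ^ 300) := by ring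
      _ ≤ 20 * g ^ 920 := Nat.mul_le_mul_left _ a3
  have a6 : 2000 * g ^ 920 ≤ g * g ^ 920 := Nat.mul_le_mul_right _ f1
  generalize (g ^ 614 + g * g ^ 614) * (10 * 2 ^ D) = w at *
  omega

theorem merge_bound : ∀ A : ℕ, ∃ n₀ : ℕ, ∀ n : ℕ, n₀ ≤ n →
    (1 - 1 / (gg n : ℝ) ^ 612) ^ (gg n ^ 614) + (gg n : ℝ) * (1 - 1 / (gg n : ℝ) ^ 612) ^ (gg n ^ 614) ≤
      1 / (n : ℝ) ^ A := by
  intro A
  obtain ⟨n1, h1⟩ := gg_tendsto 2000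
  obtain ⟨n2, h2⟩ := exp_le A
  refine ⟨max n1 n2, fun n hn => ?_⟩
  have f1 := h1 n (le_trans (le_max_left _ _) hn)
  refine le_trans ?_ (h2 n (le_trans (le_max_right _ _) hn))
  generalize gg n = g at *
  have hgR : (2000 : ℝ) ≤ (g : ℝ) := by exact_mod_cast f1
  have hg0 : (0 : ℝ) < (g : ℝ) := by linarith
  have hp0 : (0 : ℝ) < (g : ℝ) ^ 612 := by positivity
  have hp1 : 1 / (g : ℝ) ^ 612 ≤ 1 := by
    rw [div_le_one hp0]
    exact one_le_pow₀ (by linarith)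
  have a1 : (1 - 1 / (g : ℝ) ^ 612) ^ (g ^ 614) ≤ Real.exp (-((g : ℝ) * g)) := by
    have b1 : 1 - 1 / (g : ℝ) ^ 612 ≤ Real.exp (-(1 / (g : ℝ) ^ 612)) := by
      have := Real.add_one_le_exp (-(1 / (g : ℝ) ^ 612))
      linarith
    calc (1 - 1 / (g : ℝ) ^ 612) ^ (g ^ 614) ≤ (Real.exp (-(1 / (g : ℝ) ^ 612))) ^ (g ^ 614) :=
          pow_le_pow_left₀ (by linarith) b1 _
      _ = Real.exp (((g ^ 614 : ℕ) : ℝ) * (-(1 / (g : ℝ) ^ 612))) := by rw [← Real.exp_nat_mul]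
      _ = Real.exp (-((g : ℝ) * g)) := by
        congr 1
        push_cast
        have b2 : (g : ℝ) ^ 614 = (g : ℝ) ^ 612 * (g * g) := by
          rw [← pow_two, ← pow_add]
        rw [b2]
        field_simp
  have a2 : Real.exp (-((g : ℝ) * g)) ≤ Real.exp (-(g : ℝ)) * Real.exp (-(g : ℝ)) := by
    rw [← Real.exp_add]
    apply Real.exp_le_exp.2
    nlinarith
  have a3 : Real.exp (-(g : ℝ)) ≤ 1 / 2 := by
    have b1 : Real.exp (-(g : ℝ)) ≤ Real.exp (-1) := by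
      apply Real.exp_le_exp.2
      linarith
    have b2 : Real.exp (-1) ≤ 1 / 2 := by
      rw [Real.exp_neg, one_div]
      apply inv_anti₀ (by norm_num)
      have := Real.add_one_le_exp (1 : ℝ)
      linarith
    exact b1.trans b2
  have a4 : 0 < Real.exp (-(g : ℝ)) := Real.exp_pos _
  have a5 : (1 - 1 / (g : ℝ) ^ 612) ^ (g ^ 614) ≤ Real.exp (-(g : ℝ)) * (1 / 2) :=
    a1.trans (a2.trans (mul_le_mul_of_nonneg_left a3 a4.le))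
  have a6 : (g : ℝ) * (1 - 1 / (g : ℝ) ^ 612) ^ (g ^ 614) ≤ (g : ℝ) * (Real.exp (-(g : ℝ)) * (1 / 2)) :=
    mul_le_mul_of_nonneg_left a5 hg0.le
  have a7 : Real.exp (-(g : ℝ)) * 1 ≤ Real.exp (-(g : ℝ)) * g :=
    mul_le_mul_of_nonneg_left (by linarith) a4.le
  linarith

end Pool.Agent.H38H
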