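import Pool.Agent.Lib.H38H.Q.Q20
import Pool.Agent.Lib.H38H.Q.Q24

/-!
Module SL, Phase 2: the theorem, from the chunks.
-/

set_option autoImplicit false

namespace Pool.Agent.H38H

open Classical

theorem phase2 : Phase2 := by
  intro A
  obtain ⟨n1, h1⟩ := size_ok
  obtain ⟨n2, h2⟩ := pS_ge
  obtain ⟨n3, h3⟩ := budget
  obtain ⟨n4, h4⟩ := merge_bound A
  obtain ⟨n5, h5⟩ := gg_tendsto 1
  refine ⟨n1 + n2 + n3 + n4 + n5, fun n hn L hL ι _ hι I K h S hK HS hT => ?_⟩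
  obtain ⟨T, hT1, hT2⟩ := hT
  have ok := h1 n (by omega) L hL ι hι
  obtain ⟨cs, H, hcs⟩ := cst_of_p2 HS hT2
  have hg : 1 ≤ gg n := h5 n (by omega)
  have hgr : (1 : ℝ) ≤ (gg n : ℝ) := by exact_mod_cast hg
  have hp : 1 / (gg n : ℝ) ^ 612 ≤ pS (Fintype.card ι) (Nat.log 2 (gg n ^ 300)) (1 / (gg n : ℝ)) := by
    rw [hι]
    exact h2 n (by omega)
  have hp1 : 1 / (gg n : ℝ) ^ 612 ≤ 1 := by
    rw [div_le_one (by positivity)]
    exact one_le_pow₀ hgr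
  have hb := h3 n (by omega)
  have hm := h4 n (by omega)
  refine le_trans ?_ hm
  exact merge_ind (M := gg n ^ 614) ok hp hp1 (gg n) (gg n ^ 614) h K cs H (by omega) (by omega)

end Pool.Agent.H38H
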