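import Pool.Agent.Lib.H38H.Q.Q3

/-!
Chunk SLQ4 (M). One move: permutation, ends, lengths, change of the adjacency.

Proofs. Case distinction in `QStep` (keep, split, absorb `k`, absorb a cycle of `J`).
`qstep_perm`: `(P ++ [x']).reverse ++ w :: Q` is a permutation of `P ++ x' :: w :: Q`; `opn_perm`; reordering of appends and `List.flatten` (`List.flatten_append`, `List.flatten_cons`, `List.perm_append_comm`).
`qstep_ends`: the last element does not change (`Q`, resp. `s.l`, is at the end; in the keep case with `Q = []` the last element is `w` before and after), the head is `x'` (`opn_ends`).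
`qstep_adj`: `s.l.head? = some x`.
Keep: `l = (P ++ [x']) ++ (w :: Q)`: `ladj_append` gives `LAdj (P ++ [x']) ∨ LAdj (w :: Q) ∨ {x', w}`; the new path has `LAdj (P ++ [x']) ∨ LAdj (w :: Q) ∨ {x, w}`
(the last element of the reversed list is the head `x` of `P ++ [x']`). By `Nodup` the pair `{w, x'}` is not adjacent inside `P ++ [x']`, `w :: Q`, `k` or a cycle of `J` (`ladj_mem`, `cadj_mem`).
(If `P = []` then `x' = x` and the list does not change.) Split: `l = (P ++ [w]) ++ (x' :: Q)`, `CAdj (P ++ [w]) = LAdj (P ++ [w]) ∨ {x, w}`, `CAdj [] = False`.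
Absorb: `LAdj (R ++ l) = LAdj R ∨ LAdj l ∨ {w, x}` (`opn_ends`), `LAdj R` by `opn_adj`; `w, x'` occur in no other list, by `Nodup`.
-/

set_option autoImplicit false

namespace Pool.Agent.H38H

open Classical

variable {α : Type}

theorem slq4_perm_aux {s s' : QS α} {a : α × α} (h : QStep s a s') : ∀ x, s'.all.count x = s.all.count x := by
  intro x
  rcases h with ⟨P, Q, hl, rfl⟩ | ⟨P, Q, hl, hk, _, rfl⟩ | ⟨R, hR, rfl⟩ | ⟨J₁, c, J₂, R, hJ, hR, rfl⟩
  · simp only [QS.all, hl, List.count_append, List.count_reverse, List.count_cons, List.count_nil]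
    omega
  · simp only [QS.all, hl, hk, List.count_append, List.count_cons, List.count_nil]
    omega
  · have h1 := (opn_perm hR).count_eq x
    simp only [QS.all, List.count_append, List.count_nil, h1]
    omega
  · have h1 := (opn_perm hR).count_eq x
    simp only [QS.all, hJ, List.flatten_append, List.flatten_cons, List.count_append, h1]
    omega

theorem qstep_perm {s s' : QS α} {a : α × α} (h : QStep s a s') : s'.all.Perm s.all :=
  List.perm_iff_count.2 (slq4_perm_aux h)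

theorem qstep_ends {s s' : QS α} {w x' x y : α} (he : Ends s.l x y) (h : QStep s (w, x') s') :
    Ends s'.l x' y := by
  obtain ⟨h1, h2⟩ := he
  rcases h with ⟨P, Q, hl, rfl⟩ | ⟨P, Q, hl, hk, _, rfl⟩ | ⟨R, hR, rfl⟩ | ⟨J₁, c, J₂, R, hJ, hR, rfl⟩
  · rw [hl] at h2
    refine ⟨by simp, ?_⟩
    simp only [List.getLast?_append, List.getLast?_cons_cons] at h2 ⊢
    simpa using h2
  · rw [hl] at h2
    refine ⟨by simp, ?_⟩
    simp only [List.getLast?_append, List.getLast?_cons_cons] at h2 ⊢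
    simpa using h2
  · obtain ⟨h3, h4⟩ := opn_ends hR
    refine ⟨?_, ?_⟩
    · simp [List.head?_append, h3]
    · simp [List.getLast?_append, h2]
  · obtain ⟨h3, h4⟩ := opn_ends hR
    refine ⟨?_, ?_⟩
    · simp [List.head?_append, h3]
    · simp [List.getLast?_append, h2]

theorem qstep_wf {s s' : QS α} {a : α × α} (hw : s.WF) (h : QStep s a s') : s'.WF := by
  refine ⟨(qstep_perm h).nodup_iff.2 hw.nodup, ?_, ?_⟩
  · rcases h with ⟨P, Q, hl, rfl⟩ | ⟨P, Q, hl, hk, h2, rfl⟩ | ⟨R, hR, rfl⟩ | ⟨J₁, c, J₂, R, hJ, hR, rfl⟩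
    · exact hw.k3
    · right
      simp only [List.length_append, List.length_cons, List.length_nil]
      omega
    · left
      rfl
    · exact hw.k3
  · rcases h with ⟨P, Q, hl, rfl⟩ | ⟨P, Q, hl, hk, h2, rfl⟩ | ⟨R, hR, rfl⟩ | ⟨J₁, c, J₂, R, hJ, hR, rfl⟩
    · exact hw.J3
    · exact hw.J3
    · exact hw.J3
    · intro d hd
      apply hw.J3
      rw [hJ]
      simp only [List.mem_append, List.mem_cons] at hd ⊢
      tauto

theorem qstep_small {s s' : QS α} {a : α × α} (h : QStep s a s') (hm : s'.mg = false) :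
    s.mg = false ∧ s'.l.length + s'.k.length = s.l.length + s.k.length := by
  rcases h with ⟨P, Q, hl, rfl⟩ | ⟨P, Q, hl, hk, h2, rfl⟩ | ⟨R, hR, rfl⟩ | ⟨J₁, c, J₂, R, hJ, hR, rfl⟩
  · refine ⟨hm, ?_⟩
    simp only [hl, List.length_append, List.length_reverse, List.length_cons, List.length_nil]
    omega
  · refine ⟨hm, ?_⟩
    simp only [hl, hk, List.length_append, List.length_cons, List.length_nil]
    omega
  · refine ⟨hm, ?_⟩
    have h1 := (opn_perm hR).length_eq
    simp only [List.length_append, List.length_nil, h1]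
    omega
  · exact absurd hm (by simp)

theorem qstep_more {s s' : QS α} {a : α × α} (h : QStep s a s') :
    (∀ c ∈ s'.J, c ∈ s.J) ∧ s'.J.length + (if s'.mg = true then 1 else 0) ≤ s.J.length + (if s.mg = true then 1 else 0) ∧
      s.l.length + s.k.length ≤ s'.l.length + s'.k.length := by
  rcases h with ⟨P, Q, hl, rfl⟩ | ⟨P, Q, hl, hk, h2, rfl⟩ | ⟨R, hR, rfl⟩ | ⟨J₁, c, J₂, R, hJ, hR, rfl⟩
  · refine ⟨fun c hc => hc, le_rfl, ?_⟩
    simp only [hl, List.length_append, List.length_reverse, List.length_cons, List.length_nil]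
    omega
  · refine ⟨fun c hc => hc, le_rfl, ?_⟩
    simp only [hl, hk, List.length_append, List.length_cons, List.length_nil]
    omega
  · refine ⟨fun c hc => hc, le_rfl, ?_⟩
    have h1 := (opn_perm hR).length_eq
    simp only [List.length_append, List.length_nil, h1]
    omega
  · refine ⟨?_, ?_, ?_⟩
    · intro d hd
      rw [hJ]
      simp only [List.mem_append, List.mem_cons] at hd ⊢
      tauto
    · simp only [hJ, List.length_append, List.length_cons, if_true]
      split_ifs <;> omega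
    · simp only [List.length_append]
      omega

theorem slq4_core {A B C : α → α → Prop} {w x' x : α}
    (hA : ∀ a b, A a b ↔ C a b ∨ (a = w ∧ b = x') ∨ (a = x' ∧ b = w))
    (hB : ∀ a b, B a b ↔ C a b ∨ (a = x ∧ b = w) ∨ (a = w ∧ b = x))
    (h1 : ¬ C w x') (h2 : ¬ C x' w) (a b : α) :
    B a b ↔ (A a b ∧ ¬ (a = w ∧ b = x') ∧ ¬ (a = x' ∧ b = w)) ∨ (a = x ∧ b = w) ∨ (a = w ∧ b = x) := by
  rw [hA, hB]
  constructor
  · rintro (h | h)
    · left
      refine ⟨Or.inl h, ?_, ?_⟩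
      · rintro ⟨rfl, rfl⟩
        exact h1 h
      · rintro ⟨rfl, rfl⟩
        exact h2 h
    · right
      exact h
  · rintro (⟨h, h3, h4⟩ | h)
    · rcases h with h | h | h
      · exact Or.inl h
      · exact absurd h h3
      · exact absurd h h4
    · exact Or.inr h

theorem slq4_keep {s : QS α} {w x' x : α} (h1 : s.l.head? = some x) (hn : (s.l ++ s.k ++ s.J.flatten).Nodup)
    (P Q : List α) (hl : s.l = P ++ x' :: w :: Q) :
    ∀ a b, QS.Adj { s with l := (P ++ [x']).reverse ++ w :: Q } a b ↔ (s.Adj a b ∧ ¬ (a = w ∧ b = x') ∧ ¬ (a = x' ∧ b = w)) ∨ (a = x ∧ b = w) ∨ (a = w ∧ b = x) := by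
  have hl2 : s.l = (P ++ [x']) ++ (w :: Q) := by rw [hl]; simp
  have hx : (P ++ [x']).head? = some x := by
    rw [← h1, hl2, List.head?_append]
    cases P <;> simp
  have hlast : (P ++ [x']).reverse.getLast? = some x := by
    rw [List.getLast?_reverse, hx]
  have hd : ∀ z, z ∈ s.l → z ∉ s.k ∧ ∀ c ∈ s.J, z ∉ c := by
    intro z hz
    rw [List.append_assoc, List.nodup_append'] at hn
    have h3 := hn.2.2 hz
    simp only [List.mem_append, List.mem_flatten] at h3
    exact ⟨fun hk' => h3 (Or.inl hk'), fun c hc hz' => h3 (Or.inr ⟨c, hc, hz'⟩)⟩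
  have hnl : ((P ++ [x']) ++ (w :: Q)).Nodup := by
    rw [← hl2]
    rw [List.append_assoc, List.nodup_append'] at hn
    exact hn.1
  have hdj := (List.nodup_append'.1 hnl).2.2
  have hw1 : w ∉ P ++ [x'] := fun hh => hdj hh (by simp)
  have hx1 : x' ∉ w :: Q := fun hh => hdj (by simp) hh
  have hwl : w ∈ s.l := by rw [hl2]; simp
  have hxl : x' ∈ s.l := by rw [hl2]; simp
  refine slq4_core (C := fun a b => LAdj (P ++ [x']) a b ∨ LAdj (w :: Q) a b ∨ CAdj s.k a b ∨ ∃ c ∈ s.J, CAdj c a b) ?_ ?_ ?_ ?_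
  · intro a b
    show LAdj s.l a b ∨ CAdj s.k a b ∨ (∃ c ∈ s.J, CAdj c a b) ↔ _
    rw [hl2, ladj_append]
    have e1 : (P ++ [x']).getLast? = some x' := by simp
    have e2 : (w :: Q).head? = some w := rfl
    rw [e1, e2]
    simp only [Option.some.injEq]
    generalize (∃ c ∈ s.J, CAdj c a b) = E
    constructor
    · rintro ((h | h | ⟨h, h'⟩ | ⟨h, h'⟩) | h | h)
      · tauto
      · tauto
      · subst h; subst h'; tauto
      · subst h; subst h'; tauto
      · tauto
      · tauto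
    · rintro ((h | h | h | h) | ⟨h, h'⟩ | ⟨h, h'⟩)
      · tauto
      · tauto
      · tauto
      · tauto
      · subst h; subst h'; tauto
      · subst h; subst h'; tauto
  · intro a b
    show LAdj ((P ++ [x']).reverse ++ w :: Q) a b ∨ CAdj s.k a b ∨ (∃ c ∈ s.J, CAdj c a b) ↔ _
    rw [ladj_append, ladj_reverse]
    have e2 : (w :: Q).head? = some w := rfl
    rw [hlast, e2]
    simp only [Option.some.injEq]
    generalize (∃ c ∈ s.J, CAdj c a b) = E
    constructor
    · rintro ((h | h | ⟨h, h'⟩ | ⟨h, h'⟩) | h | h)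
      · tauto
      · tauto
      · subst h; subst h'; tauto
      · subst h; subst h'; tauto
      · tauto
      · tauto
    · rintro ((h | h | h | h) | ⟨h, h'⟩ | ⟨h, h'⟩)
      · tauto
      · tauto
      · tauto
      · tauto
      · subst h; subst h'; tauto
      · subst h; subst h'; tauto
  · rintro (h | h | h | ⟨c, hc, h⟩)
    · exact hw1 (ladj_mem h).1
    · exact hx1 (ladj_mem h).2
    · exact (hd w hwl).1 (cadj_mem h).1
    · exact (hd w hwl).2 c hc (cadj_mem h).1
  · rintro (h | h | h | ⟨c, hc, h⟩)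
    · exact hw1 (ladj_mem h).2
    · exact hx1 (ladj_mem h).1
    · exact (hd w hwl).1 (cadj_mem h).2
    · exact (hd w hwl).2 c hc (cadj_mem h).2

theorem slq4_split {s : QS α} {w x' x : α} (h1 : s.l.head? = some x) (hn : (s.l ++ s.k ++ s.J.flatten).Nodup)
    (P Q : List α) (hl : s.l = P ++ w :: x' :: Q) (hk : s.k = []) :
    ∀ a b, QS.Adj { s with l := x' :: Q, k := P ++ [w] } a b ↔ (s.Adj a b ∧ ¬ (a = w ∧ b = x') ∧ ¬ (a = x' ∧ b = w)) ∨ (a = x ∧ b = w) ∨ (a = w ∧ b = x) := by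
  have hl2 : s.l = (P ++ [w]) ++ (x' :: Q) := by rw [hl]; simp
  have hx : (P ++ [w]).head? = some x := by
    rw [← h1, hl2, List.head?_append]
    cases P <;> simp
  have hd : ∀ z, z ∈ s.l → z ∉ s.k ∧ ∀ c ∈ s.J, z ∉ c := by
    intro z hz
    rw [List.append_assoc, List.nodup_append'] at hn
    have h3 := hn.2.2 hz
    simp only [List.mem_append, List.mem_flatten] at h3
    exact ⟨fun hk' => h3 (Or.inl hk'), fun c hc hz' => h3 (Or.inr ⟨c, hc, hz'⟩)⟩
  have hnl : ((P ++ [w]) ++ (x' :: Q)).Nodup := by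
    rw [← hl2]
    rw [List.append_assoc, List.nodup_append'] at hn
    exact hn.1
  have hdj := (List.nodup_append'.1 hnl).2.2
  have hx1 : x' ∉ P ++ [w] := fun hh => hdj hh (by simp)
  have hw1 : w ∉ x' :: Q := fun hh => hdj (by simp) hh
  have hwl : w ∈ s.l := by rw [hl2]; simp
  refine slq4_core (C := fun a b => LAdj (P ++ [w]) a b ∨ LAdj (x' :: Q) a b ∨ ∃ c ∈ s.J, CAdj c a b) ?_ ?_ ?_ ?_
  · intro a b
    show LAdj s.l a b ∨ CAdj s.k a b ∨ (∃ c ∈ s.J, CAdj c a b) ↔ _
    rw [hl2, ladj_append, hk]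
    have e1 : (P ++ [w]).getLast? = some w := by simp
    have e2 : (x' :: Q).head? = some x' := rfl
    rw [e1, e2]
    simp only [Option.some.injEq]
    generalize (∃ c ∈ s.J, CAdj c a b) = E
    constructor
    · rintro ((h | h | ⟨h, h'⟩ | ⟨h, h'⟩) | h | h)
      · tauto
      · tauto
      · subst h; subst h'; tauto
      · subst h; subst h'; tauto
      · exact absurd h cadj_nil
      · tauto
    · rintro ((h | h | h) | ⟨h, h'⟩ | ⟨h, h'⟩)
      · tauto
      · tauto
      · tauto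
      · subst h; subst h'; tauto
      · subst h; subst h'; tauto
  · intro a b
    show LAdj (x' :: Q) a b ∨ CAdj (P ++ [w]) a b ∨ (∃ c ∈ s.J, CAdj c a b) ↔ _
    have e1 : (P ++ [w]).getLast? = some w := by simp
    generalize (∃ c ∈ s.J, CAdj c a b) = E
    unfold CAdj Ends
    rw [hx, e1]
    simp only [Option.some.injEq]
    constructor
    · rintro (h | (h | ⟨h, h'⟩ | ⟨h, h'⟩) | h)
      · tauto
      · tauto
      · subst h; subst h'; tauto
      · subst h; subst h'; tauto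
      · tauto
    · rintro ((h | h | h) | ⟨h, h'⟩ | ⟨h, h'⟩)
      · tauto
      · tauto
      · tauto
      · subst h; subst h'; tauto
      · subst h; subst h'; tauto
  · rintro (h | h | ⟨c, hc, h⟩)
    · exact hx1 (ladj_mem h).2
    · exact hw1 (ladj_mem h).1
    · exact (hd w hwl).2 c hc (cadj_mem h).1
  · rintro (h | h | ⟨c, hc, h⟩)
    · exact hx1 (ladj_mem h).1
    · exact hw1 (ladj_mem h).2
    · exact (hd w hwl).2 c hc (cadj_mem h).2

theorem slq4_absk {s : QS α} {w x' x : α} (hw : s.WF) (h1 : s.l.head? = some x) (hn : (s.l ++ s.k ++ s.J.flatten).Nodup)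
    (R : List α) (hR : Opn s.k w x' R) :
    ∀ a b, QS.Adj { s with l := R ++ s.l, k := [] } a b ↔ (s.Adj a b ∧ ¬ (a = w ∧ b = x') ∧ ¬ (a = x' ∧ b = w)) ∨ (a = x ∧ b = w) ∨ (a = w ∧ b = x) := by
  obtain ⟨hwk, hxk, hck⟩ := opn_mem hR
  obtain ⟨hR1, hR2⟩ := opn_ends hR
  have hnk : s.k.Nodup := by
    rw [List.append_assoc, List.nodup_append'] at hn
    exact (List.nodup_append'.1 hn.2.1).1
  have hk3 : 3 ≤ s.k.length := by
    rcases hw.k3 with h | h
    · rw [h] at hwk
      exact absurd hwk (by simp)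
    · exact h
  have hopn := opn_adj hnk hk3 hR
  have hwl : w ∉ s.l := by
    intro hh
    rw [List.append_assoc, List.nodup_append'] at hn
    exact hn.2.2 hh (by simp [hwk])
  have hwJ : ∀ c ∈ s.J, w ∉ c := by
    intro c hc hh
    have h3 := (List.nodup_append'.1 hn).2.2
    exact h3 (a := w) (by simp [hwk]) (List.mem_flatten.2 ⟨c, hc, hh⟩)
  refine slq4_core (C := fun a b => LAdj R a b ∨ LAdj s.l a b ∨ ∃ c ∈ s.J, CAdj c a b) ?_ ?_ ?_ ?_
  · intro a b
    show LAdj s.l a b ∨ CAdj s.k a b ∨ (∃ c ∈ s.J, CAdj c a b) ↔ _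
    rw [hopn a b]
    generalize (∃ c ∈ s.J, CAdj c a b) = E
    constructor
    · rintro (h | h | h)
      · tauto
      · by_cases e1 : a = w ∧ b = x'
        · tauto
        · by_cases e2 : a = x' ∧ b = w
          · tauto
          · tauto
      · tauto
    · rintro ((h | h | h) | ⟨h, h'⟩ | ⟨h, h'⟩)
      · tauto
      · tauto
      · tauto
      · subst h; subst h'; tauto
      · subst h; subst h'
        exact Or.inr (Or.inl (cadj_symm hck))
  · intro a b
    show LAdj (R ++ s.l) a b ∨ CAdj [] a b ∨ (∃ c ∈ s.J, CAdj c a b) ↔ _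
    rw [ladj_append, hR2, h1]
    simp only [Option.some.injEq]
    generalize (∃ c ∈ s.J, CAdj c a b) = E
    constructor
    · rintro ((h | h | ⟨h, h'⟩ | ⟨h, h'⟩) | h | h)
      · tauto
      · tauto
      · subst h; subst h'; tauto
      · subst h; subst h'; tauto
      · exact absurd h cadj_nil
      · tauto
    · rintro ((h | h | h) | ⟨h, h'⟩ | ⟨h, h'⟩)
      · tauto
      · tauto
      · tauto
      · subst h; subst h'; tauto
      · subst h; subst h'; tauto
  · rintro (h | h | ⟨c, hc, h⟩)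
    · exact ((hopn _ _).1 h).2.1 ⟨rfl, rfl⟩
    · exact hwl (ladj_mem h).1
    · exact hwJ c hc (cadj_mem h).1
  · rintro (h | h | ⟨c, hc, h⟩)
    · exact ((hopn _ _).1 h).2.2 ⟨rfl, rfl⟩
    · exact hwl (ladj_mem h).2
    · exact hwJ c hc (cadj_mem h).2

theorem slq4_absJ {s : QS α} {w x' x : α} (hw : s.WF) (h1 : s.l.head? = some x) (hn : (s.l ++ s.k ++ s.J.flatten).Nodup)
    (J₁ J₂ : List (List α)) (c R : List α) (hJ : s.J = J₁ ++ c :: J₂) (hR : Opn c w x' R) :
    ∀ a b, QS.Adj { s with l := R ++ s.l, J := J₁ ++ J₂, mg := true } a b ↔ (s.Adj a b ∧ ¬ (a = w ∧ b = x') ∧ ¬ (a = x' ∧ b = w)) ∨ (a = x ∧ b = w) ∨ (a = w ∧ b = x) := by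
  obtain ⟨hwk, hxk, hck⟩ := opn_mem hR
  obtain ⟨hR1, hR2⟩ := opn_ends hR
  have hcJ : c ∈ s.J := by rw [hJ]; simp
  have hn' := hn
  rw [hJ, List.flatten_append, List.flatten_cons] at hn'
  obtain ⟨hn1, hn2, hn3⟩ := List.nodup_append'.1 hn'
  obtain ⟨hn4, hn5, hn6⟩ := List.nodup_append'.1 hn2
  obtain ⟨hn7, hn8, hn9⟩ := List.nodup_append'.1 hn5
  have hk3 : 3 ≤ c.length := hw.J3 c hcJ
  have hopn := opn_adj hn7 hk3 hR
  have hwl : w ∉ s.l := by
    intro hh
    exact hn3 (a := w) (by simp [hh]) (by simp [hwk])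
  have hwk' : w ∉ s.k := by
    intro hh
    exact hn3 (a := w) (by simp [hh]) (by simp [hwk])
  have hwJ : ∀ d ∈ J₁ ++ J₂, w ∉ d := by
    intro d hd hh
    rcases List.mem_append.1 hd with hd | hd
    · exact hn6 (a := w) (List.mem_flatten.2 ⟨d, hd, hh⟩) (by simp [hwk])
    · exact hn9 (a := w) hwk (List.mem_flatten.2 ⟨d, hd, hh⟩)
  have hex : ∀ a b, (∃ d ∈ s.J, CAdj d a b) ↔ CAdj c a b ∨ ∃ d ∈ J₁ ++ J₂, CAdj d a b := by
    intro a b
    rw [hJ]
    constructor
    · rintro ⟨d, hd, h⟩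
      rcases List.mem_append.1 hd with hd | hd
      · exact Or.inr ⟨d, by simp [hd], h⟩
      · rcases List.mem_cons.1 hd with rfl | hd
        · exact Or.inl h
        · exact Or.inr ⟨d, by simp [hd], h⟩
    · rintro (h | ⟨d, hd, h⟩)
      · exact ⟨c, by simp, h⟩
      · rcases List.mem_append.1 hd with hd | hd
        · exact ⟨d, by simp [hd], h⟩
        · exact ⟨d, by simp [hd], h⟩
  refine slq4_core (C := fun a b => LAdj R a b ∨ LAdj s.l a b ∨ CAdj s.k a b ∨ ∃ c ∈ J₁ ++ J₂, CAdj c a b) ?_ ?_ ?_ ?_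
  · intro a b
    show LAdj s.l a b ∨ CAdj s.k a b ∨ (∃ c ∈ s.J, CAdj c a b) ↔ _
    rw [hopn a b, hex]
    generalize (∃ d ∈ J₁ ++ J₂, CAdj d a b) = E
    constructor
    · rintro (h | h | h | h)
      · tauto
      · tauto
      · by_cases e1 : a = w ∧ b = x'
        · tauto
        · by_cases e2 : a = x' ∧ b = w
          · tauto
          · tauto
      · tauto
    · rintro ((h | h | h | h) | ⟨h, h'⟩ | ⟨h, h'⟩)
      · tauto
      · tauto
      · tauto
      · tauto
      · subst h; subst h'; tauto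
      · subst h; subst h'
        exact Or.inr (Or.inr (Or.inl (cadj_symm hck)))
  · intro a b
    show LAdj (R ++ s.l) a b ∨ CAdj s.k a b ∨ (∃ c ∈ J₁ ++ J₂, CAdj c a b) ↔ _
    rw [ladj_append, hR2, h1]
    simp only [Option.some.injEq]
    generalize (∃ c ∈ J₁ ++ J₂, CAdj c a b) = E
    constructor
    · rintro ((h | h | ⟨h, h'⟩ | ⟨h, h'⟩) | h | h)
      · tauto
      · tauto
      · subst h; subst h'; tauto
      · subst h; subst h'; tauto
      · tauto
      · tauto
    · rintro ((h | h | h | h) | ⟨h, h'⟩ | ⟨h, h'⟩)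
      · tauto
      · tauto
      · tauto
      · tauto
      · subst h; subst h'; tauto
      · subst h; subst h'; tauto
  · rintro (h | h | h | ⟨d, hd, h⟩)
    · exact ((hopn _ _).1 h).2.1 ⟨rfl, rfl⟩
    · exact hwl (ladj_mem h).1
    · exact hwk' (cadj_mem h).1
    · exact hwJ d hd (cadj_mem h).1
  · rintro (h | h | h | ⟨d, hd, h⟩)
    · exact ((hopn _ _).1 h).2.2 ⟨rfl, rfl⟩
    · exact hwl (ladj_mem h).2
    · exact hwk' (cadj_mem h).2
    · exact hwJ d hd (cadj_mem h).2

theorem qstep_adj {s s' : QS α} {w x' x y : α} (hw : s.WF) (he : Ends s.l x y) (h : QStep s (w, x') s') :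
    ∀ a b, s'.Adj a b ↔ (s.Adj a b ∧ ¬ (a = w ∧ b = x') ∧ ¬ (a = x' ∧ b = w)) ∨ (a = x ∧ b = w) ∨ (a = w ∧ b = x) := by
  obtain ⟨h1, h2⟩ := he
  have hn := hw.nodup
  unfold QS.all at hn
  rcases h with ⟨P, Q, hl, rfl⟩ | ⟨P, Q, hl, hk, h2P, rfl⟩ | ⟨R, hR, rfl⟩ | ⟨J₁, c, J₂, R, hJ, hR, rfl⟩
  · exact slq4_keep h1 hn P Q hl
  · exact slq4_split h1 hn P Q hl hk
  · exact slq4_absk hw h1 hn R hR
  · exact slq4_absJ hw h1 hn J₁ J₂ c R hJ hR

/-! ### the reversed state -/

theorem rev_rev (s : QS α) : s.rev.rev = s := by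
  cases s
  simp [QS.rev]

theorem rev_wf {s : QS α} (h : s.WF) : s.rev.WF := by
  refine ⟨?_, h.k3, h.J3⟩
  have h1 : s.rev.all.Perm s.all := by
    unfold QS.all
    exact (((List.reverse_perm s.l).append_right s.k).append_right s.J.flatten)
  exact h1.nodup_iff.2 h.nodup

theorem rev_adj {s : QS α} {a b : α} : s.rev.Adj a b ↔ s.Adj a b := by
  show LAdj s.l.reverse a b ∨ CAdj s.k a b ∨ (∃ c ∈ s.J, CAdj c a b) ↔ _
  rw [ladj_reverse]
  rfl

theorem rev_mem {s : QS α} {a : α} : a ∈ s.rev.all ↔ a ∈ s.all := by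
  show a ∈ s.l.reverse ++ s.k ++ s.J.flatten ↔ a ∈ s.l ++ s.k ++ s.J.flatten
  simp

end Pool.Agent.H38H
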